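import Pool.Agent.Lib.H68L.Defs

open MeasureTheory Set Matrix Filter Topology

namespace Pool.Agent.Lib.H68L


/-- The proximal map of a concave Lipschitz function.

Proof. Fix `w`. The function `f ξ = ‖ξ - w‖ ^ 2 / 2 - U ξ` is continuous and tends to infinity
(`U ξ ≤ U w + L ‖ξ - w‖`), so it has a minimum (`Continuous.exists_forall_le`, or restrict to a
large closed ball, which is compact); let `R w` be a minimiser. For `ξ` and `t ∈ (0, 1]` put
`ξ_t = R w + t (ξ - R w)`. Minimality and concavity (`U ξ_t ≥ (1 - t) U (R w) + t U ξ`) give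
`0 ≤ t ⟪R w - w, ξ - R w⟫ + t² ‖ξ - R w‖² / 2 + t (U (R w) - U ξ)`; divide by `t` and let
`t → 0` (or: assume the claim fails by `ε > 0` and take `t` small). -/
theorem m01 {U : E3 → ℝ} (hU : ConcaveOn ℝ univ U) {L : NNReal} (hL : LipschitzWith L U) :
    ∃ R : E3 → E3, ∀ w ξ, U ξ ≤ U (R w) + inner ℝ (R w - w) (ξ - R w) := by
  have hmin : ∀ w : E3, ∃ r : E3, ∀ ξ, ‖r - w‖ ^ 2 / 2 - U r ≤ ‖ξ - w‖ ^ 2 / 2 - U ξ := by
    intro w
    have hL0 : (0 : ℝ) ≤ L := L.2
    have hcont : Continuous fun ξ : E3 => ‖ξ - w‖ ^ 2 / 2 - U ξ := by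
      have h1 := hL.continuous
      fun_prop
    obtain ⟨r, hr, hrm⟩ := (isCompact_closedBall w (2 * (L : ℝ) + 1)).exists_isMinOn
      ⟨w, Metric.mem_closedBall_self (by positivity)⟩ hcont.continuousOn
    refine ⟨r, fun ξ => ?_⟩
    by_cases hξ : ξ ∈ Metric.closedBall w (2 * (L : ℝ) + 1)
    · exact hrm hξ
    · have h1 : ‖r - w‖ ^ 2 / 2 - U r ≤ ‖w - w‖ ^ 2 / 2 - U w :=
        hrm (Metric.mem_closedBall_self (by positivity))
      rw [sub_self, norm_zero] at h1
      have h2 : 2 * (L : ℝ) + 1 < ‖ξ - w‖ := by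
        rw [Metric.mem_closedBall, dist_eq_norm, not_le] at hξ
        exact hξ
      have h3 := hL.dist_le_mul ξ w
      rw [dist_eq_norm, dist_eq_norm] at h3
      have h4 : U ξ - U w ≤ L * ‖ξ - w‖ := (le_abs_self _).trans h3
      nlinarith [norm_nonneg (ξ - w)]
  choose R hR using hmin
  refine ⟨R, fun w ξ => ?_⟩
  by_contra hlt
  rw [not_le] at hlt
  set a : ℝ := U (R w) + inner ℝ (R w - w) (ξ - R w) - U ξ with ha
  set b : ℝ := ‖ξ - R w‖ ^ 2 / 2 with hb
  have ha0 : a < 0 := by rw [ha]; linarith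
  have hb0 : 0 ≤ b := by positivity
  have key : ∀ t : ℝ, 0 < t → t ≤ 1 → 0 ≤ a + t * b := by
    intro t ht ht1
    have h1 := hR w (R w + t • (ξ - R w))
    have h2 : (1 - t) • R w + t • ξ = R w + t • (ξ - R w) := by
      rw [smul_sub, sub_smul, one_smul]
      abel
    have h3 := hU.2 (mem_univ (R w)) (mem_univ ξ) (by linarith : 0 ≤ 1 - t) ht.le (by ring)
    rw [h2, smul_eq_mul, smul_eq_mul] at h3
    have h4 : ‖R w + t • (ξ - R w) - w‖ ^ 2 = ‖R w - w‖ ^ 2 + 2 * (t * inner ℝ (R w - w) (ξ - R w)) + t ^ 2 * ‖ξ - R w‖ ^ 2 := by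
      have h5 : R w + t • (ξ - R w) - w = (R w - w) + t • (ξ - R w) := by abel
      rw [h5, norm_add_sq_real, real_inner_smul_right, norm_smul, mul_pow, Real.norm_eq_abs, sq_abs]
    rw [h4] at h1
    have h6 : 0 ≤ t * (a + t * b) := by
      rw [ha, hb]
      nlinarith
    exact nonneg_of_mul_nonneg_right h6 ht
  have ht0 : 0 < min 1 (-a / (2 * (b + 1))) := lt_min one_pos (div_pos (by linarith) (by linarith))
  have h1 := key _ ht0 (min_le_left _ _)
  have h2 : min 1 (-a / (2 * (b + 1))) * b ≤ -a / 2 := by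
    have h3 : min 1 (-a / (2 * (b + 1))) * b ≤ (-a / (2 * (b + 1))) * b :=
      mul_le_mul_of_nonneg_right (min_le_right _ _) hb0
    refine h3.trans ?_
    rw [div_mul_eq_mul_div, div_le_div_iff₀ (by linarith) (by norm_num)]
    nlinarith
  linarith

end Pool.Agent.Lib.H68L
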