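import Pool.Agent.Lib.H68L.Defs

open MeasureTheory Set Matrix Filter Topology

namespace Pool.Agent.Lib.H68L


/-- Proof. Add the hypothesis for `(w, R w')` and for `(w', R w)`:
`0 ≤ ⟪(R w - w) - (R w' - w'), R w' - R w⟫ = -‖R w - R w'‖² + ⟪w - w', R w - R w'⟫`. -/
theorem m02_firm {U : E3 → ℝ} {R : E3 → E3}
    (hR : ∀ w ξ, U ξ ≤ U (R w) + inner ℝ (R w - w) (ξ - R w)) (w w' : E3) :
    ‖R w - R w'‖ ^ 2 ≤ inner ℝ (w - w') (R w - R w') := by
  have h1 := hR w (R w')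
  have h2 := hR w' (R w)
  have h3 : inner ℝ (R w - w) (R w' - R w) + inner ℝ (R w' - w') (R w - R w') =
      inner ℝ (w - w') (R w - R w') - ‖R w - R w'‖ ^ 2 := by
    rw [← real_inner_self_eq_norm_sq]
    simp only [inner_sub_left, inner_sub_right]
    ring
  linarith

/-- Proof. `m02_firm` and Cauchy-Schwarz (`real_inner_le_norm`). -/
theorem m02_lip {U : E3 → ℝ} {R : E3 → E3}
    (hR : ∀ w ξ, U ξ ≤ U (R w) + inner ℝ (R w - w) (ξ - R w)) : LipschitzWith 1 R := by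
  refine LipschitzWith.of_dist_le_mul fun w w' => ?_
  rw [dist_eq_norm, dist_eq_norm, NNReal.coe_one, one_mul]
  have h1 := m02_firm hR w w'
  have h2 := real_inner_le_norm (w - w') (R w - R w')
  by_contra h
  rw [not_le] at h
  nlinarith [norm_nonneg (R w - R w'), norm_nonneg (w - w')]

/-- Proof. Let `w = ξ - g`. The hypothesis at `(w, ξ)` is
`U ξ ≤ U (R w) + ⟪R w - w, ξ - R w⟫`, and `hg` at `ζ = R w` is `U (R w) ≤ U ξ + ⟪g, R w - ξ⟫`,
`g = ξ - w`. The sum is `0 ≤ ⟪R w - ξ, ξ - R w⟫ = -‖R w - ξ‖²`. -/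
theorem m02_val {U : E3 → ℝ} {R : E3 → E3}
    (hR : ∀ w ξ, U ξ ≤ U (R w) + inner ℝ (R w - w) (ξ - R w)) {ξ g : E3}
    (hg : ∀ ζ, U ζ ≤ U ξ + inner ℝ g (ζ - ξ)) : R (ξ - g) = ξ := by
  have h1 := hR (ξ - g) ξ
  have h2 := hg (R (ξ - g))
  set r := R (ξ - g) with hr
  have h3 : inner ℝ (r - (ξ - g)) (ξ - r) + inner ℝ g (r - ξ) = -‖r - ξ‖ ^ 2 := by
    rw [← real_inner_self_eq_norm_sq]
    simp only [inner_sub_left, inner_sub_right]
    ring
  have h4 : ‖r - ξ‖ ^ 2 ≤ 0 := by linarith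
  have h5 : ‖r - ξ‖ = 0 := by
    have := sq_nonneg ‖r - ξ‖
    exact pow_eq_zero_iff (two_ne_zero) |>.1 (le_antisymm h4 this)
  exact sub_eq_zero.1 (norm_eq_zero.1 h5)

/-- A differentiable concave function lies below its tangent.

Proof. For `t ∈ (0, 1]`: `U (ξ + t (ζ - ξ)) ≥ (1 - t) U ξ + t U ζ`, so
`U ζ - U ξ ≤ (U (ξ + t (ζ - ξ)) - U ξ) / t`, which tends to `⟪g, ζ - ξ⟫` as `t → 0+`
(the derivative of `t ↦ U (ξ + t (ζ - ξ))` at `0`; or Mathlib's lemmas on the slope of concave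
functions of one variable). -/
theorem m02_tan {U : E3 → ℝ} (hU : ConcaveOn ℝ univ U) {ξ g : E3} (hg : HasGradientAt U g ξ)
    (ζ : E3) : U ζ ≤ U ξ + inner ℝ g (ζ - ξ) := by
  have h1 : HasDerivAt (fun t : ℝ => ξ + t • (ζ - ξ)) (ζ - ξ) 0 := by
    have h := ((hasDerivAt_id (0 : ℝ)).smul_const (ζ - ξ)).const_add ξ
    simpa using h
  have h2 : HasFDerivAt U (InnerProductSpace.toDual ℝ E3 g) (ξ + (0 : ℝ) • (ζ - ξ)) := by
    rw [zero_smul, add_zero]
    exact hg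
  have h3 := h2.comp_hasDerivAt (0 : ℝ) h1
  have h4 := h3.tendsto_slope_zero_right
  rw [InnerProductSpace.toDual_apply_apply] at h4
  have h5 : U ζ - U ξ ≤ inner ℝ g (ζ - ξ) := by
    refine ge_of_tendsto h4 ?_
    have h6 : Ioc (0 : ℝ) 1 ∈ 𝓝[>] (0 : ℝ) := Ioc_mem_nhdsGT one_pos
    filter_upwards [h6] with t ht
    have h7 : (1 - t) • ξ + t • ζ = ξ + t • (ζ - ξ) := by
      rw [smul_sub, sub_smul, one_smul]
      abel
    have h8 := hU.2 (mem_univ ξ) (mem_univ ζ) (by linarith [ht.2] : 0 ≤ 1 - t) ht.1.le (by ring)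
    rw [h7, smul_eq_mul, smul_eq_mul] at h8
    simp only [Function.comp, zero_add, zero_smul, add_zero, smul_eq_mul]
    rw [inv_mul_eq_div, le_div_iff₀ ht.1]
    linarith
  linarith

/-- Proof. The function `ζ ↦ U (R w) + ⟪R w - w, ζ - R w⟫ - U ζ` is nonnegative and vanishes at
`R w`, so its gradient at `R w`, which is `(R w - w) - g`, is zero
(`IsLocalMin.hasFDerivAt_eq_zero`). -/
theorem m02_grad {U : E3 → ℝ} {R : E3 → E3}
    (hR : ∀ w ξ, U ξ ≤ U (R w) + inner ℝ (R w - w) (ξ - R w)) {w g : E3}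
    (hg : HasGradientAt U g (R w)) : R w - w = g := by
  have h1 : IsLocalMin (fun ζ => (innerSL ℝ (R w - w)) ζ - U ζ) (R w) := by
    refine Filter.Eventually.of_forall fun ζ => ?_
    have h2 := hR w ζ
    rw [inner_sub_right] at h2
    simp only [innerSL_apply_apply]
    linarith
  have h2 : HasFDerivAt (fun ζ => (innerSL ℝ (R w - w)) ζ - U ζ)
      (innerSL ℝ (R w - w) - InnerProductSpace.toDual ℝ E3 g) (R w) :=
    (innerSL ℝ (R w - w)).hasFDerivAt.sub hg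
  have h3 := h1.hasFDerivAt_eq_zero h2
  have h4 := congrArg (fun f : E3 →L[ℝ] ℝ => f (R w - w - g)) h3
  simp only [_root_.sub_apply, innerSL_apply_apply, InnerProductSpace.toDual_apply_apply,
    _root_.zero_apply] at h4
  rw [← inner_sub_left] at h4
  exact sub_eq_zero.1 (inner_self_eq_zero.1 h4)

end Pool.Agent.Lib.H68L
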