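import Pool.Agent.Lib.H68L.P05
import Pool.Agent.Lib.H68L.M02
import Pool.Agent.Lib.H68L.M01

open MeasureTheory Set Matrix Filter Topology

namespace Pool.Agent.Lib.H68L


/-- The optimal transport between two compact sets, with the resolvent `R` of the potential. -/
structure TData (A B : Set E3) where
  U : E3 → ℝ
  R : E3 → E3
  A' : Set E3
  hR : ∀ w ξ, U ξ ≤ U (R w) + inner ℝ (R w - w) (ξ - R w)
  tan : ∀ ξ ∈ A', ∀ ζ, U ζ ≤ U ξ + inner ℝ (gradient U ξ) (ζ - ξ)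
  mA' : MeasurableSet A'
  sub : A' ⊆ A
  null : nu (A \ A') = 0
  diff : ∀ x ∈ A', DifferentiableAt ℝ U x
  cont : Continuous U
  mem : ∀ x ∈ A', Fm U x ∈ B
  inj : InjOn (Fm U) A'
  pos : ∀ x ∈ A', 0 < U x - inner ℝ x (gradient U x)
  mono : ∀ x ∈ A', ∀ x' ∈ A', qq x (Fm U x) * qq x' (Fm U x') ≤ qq x (Fm U x') * qq x' (Fm U x)
  push : ∀ Y : Set E3, MeasurableSet Y → nu (A' ∩ Fm U ⁻¹' Y) * nu B = nu (B ∩ Y) * nu A

/-- Proof. `p05`, `m01` and `m02_tan` (`DifferentiableAt.hasGradientAt`). -/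
theorem c00 {A B : Set E3} (hA : IsCompact A) (hB : IsCompact B) (hfin : IsFiniteMeasure nu)
    (hA0 : nu A ≠ 0) (hB0 : nu B ≠ 0) (hq : ∀ x ∈ A, ∀ y ∈ B, 0 < qq x y) :
    Nonempty (TData A B) := by
  obtain ⟨U, A', hconc, ⟨L, hL⟩, mA', sub, null, diff, mem, inj, pos, mono, push⟩ :=
    p05 hA hB hfin hA0 hB0 hq
  obtain ⟨R, hR⟩ := m01 hconc hL
  exact ⟨{
    U := U
    R := R
    A' := A'
    hR := hR
    tan := fun ξ hξ ζ => m02_tan hconc (diff ξ hξ).hasGradientAt ζ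
    mA' := mA'
    sub := sub
    null := null
    diff := diff
    cont := hL.continuous
    mem := mem
    inj := inj
    pos := pos
    mono := mono
    push := push }⟩

end Pool.Agent.Lib.H68L
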