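import Pool.Agent.Lib.H68L.C00

open MeasureTheory Set Matrix Filter Topology

namespace Pool.Agent.Lib.H68L


/-- Proof. `m02_grad` with `g = gradient U (R w)`. -/
theorem c01_grad {A B : Set E3} (T : TData A B) {w : E3} (hw : T.R w ∈ T.A') :
    T.R w - w = gradient T.U (T.R w) :=
  m02_grad T.hR (T.diff _ hw).hasGradientAt

/-- Proof. `c01_grad`, unfold `eta`, `dd`, `Fm`. -/
theorem c01_eta {A B : Set E3} (T : TData A B) {w : E3} (hw : T.R w ∈ T.A') :
    eta T.U T.R w = Fm T.U (T.R w) := by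
  unfold eta dd Fm
  rw [c01_grad T hw]

/-- Proof. `c01_grad` and `T.pos`. -/
theorem c01_dd {A B : Set E3} (T : TData A B) {w : E3} (hw : T.R w ∈ T.A') :
    0 < dd T.U T.R w := by
  unfold dd
  rw [c01_grad T hw]
  exact T.pos _ hw

/-- Proof. `m02_val` with `g = gradient U ξ`, `T.tan`. -/
theorem c01_surj {A B : Set E3} (T : TData A B) {ξ : E3} (hξ : ξ ∈ T.A') :
    T.R (ξ - gradient T.U ξ) = ξ :=
  m02_val T.hR (T.tan ξ hξ)

/-- Proof. By `c01_grad`, `w = R w - gradient U (R w)`. -/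
theorem c01_injR {A B : Set E3} (T : TData A B) : InjOn T.R {w | T.R w ∈ T.A'} := by
  intro w hw w' hw' h
  have h1 := c01_grad T hw
  have h2 := c01_grad T hw'
  rw [← h] at h2
  have h3 : T.R w - w = T.R w - w' := by rw [h1, h2]
  exact sub_right_injective h3

/-- Proof. `c01_eta`, `T.inj`, `c01_injR`. -/
theorem c01_injeta {A B : Set E3} (T : TData A B) :
    InjOn (eta T.U T.R) {w | T.R w ∈ T.A'} := by
  intro w hw w' hw' h
  rw [c01_eta T hw, c01_eta T hw'] at h
  exact c01_injR T hw hw' (T.inj hw hw' h)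

end Pool.Agent.Lib.H68L
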