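import Pool.Agent.Lib.H68L.C01

open MeasureTheory Set Matrix Filter Topology

namespace Pool.Agent.Lib.H68L


theorem c02_sq {u v w : ℝ} (h : u ^ 2 + v ^ 2 + w ^ 2 ≤ 0) : u = 0 ∧ v = 0 ∧ w = 0 := by
  have h1 := sq_nonneg u
  have h2 := sq_nonneg v
  have h3 := sq_nonneg w
  refine ⟨?_, ?_, ?_⟩
  · have : u ^ 2 = 0 := by linarith
    exact pow_eq_zero_iff (two_ne_zero) |>.1 this
  · have : v ^ 2 = 0 := by linarith
    exact pow_eq_zero_iff (two_ne_zero) |>.1 this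
  · have : w ^ 2 = 0 := by linarith
    exact pow_eq_zero_iff (two_ne_zero) |>.1 this

theorem c02_div {Q Q' A B t : ℝ} (h : 0 < Q) (ht : 0 < t) (hQ : Q' = t * Q)
    (e : Q⁻¹ * A = Q'⁻¹ * B) : B = t * A := by
  rw [hQ, mul_inv] at e
  have hQ0 : Q⁻¹ ≠ 0 := inv_ne_zero h.ne'
  have e2 : Q⁻¹ * A = Q⁻¹ * (t⁻¹ * B) := by rw [e]; ring
  have e3 := mul_left_cancel₀ hQ0 e2
  rw [e3, ← mul_assoc, mul_inv_cancel₀ ht.ne', one_mul]

theorem c02_i1 (a b c a' b' c' : ℝ) :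
    (1 + (a * a' + b * b' + c * c')) ^ 2 + ((a' - a - (b * c' - c * b')) ^ 2 +
      (b' - b - (c * a' - a * c')) ^ 2 + (c' - c - (a * b' - b * a')) ^ 2) =
      (1 + (a ^ 2 + b ^ 2 + c ^ 2)) * (1 + (a' ^ 2 + b' ^ 2 + c' ^ 2)) := by
  ring

theorem c02_i2 (a b c p q r a' b' c' : ℝ) :
    (1 + (a ^ 2 + b ^ 2 + c ^ 2)) * (1 - (a' * p + b' * q + c' * r)) =
      (1 + (a * a' + b * b' + c * c')) * (1 - (a * p + b * q + c * r)) -
      ((a' - a - (b * c' - c * b')) * (a + p + (q * c - r * b)) +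
       (b' - b - (c * a' - a * c')) * (b + q + (r * a - p * c)) +
       (c' - c - (a * b' - b * a')) * (c + r + (p * b - q * a))) := by
  ring

theorem c02_i3 (a b c a' b' c' p' q' r' : ℝ) :
    (1 + (a' ^ 2 + b' ^ 2 + c' ^ 2)) * (1 - (a * p' + b * q' + c * r')) =
      (1 + (a * a' + b * b' + c * c')) * (1 - (a' * p' + b' * q' + c' * r')) -
        ((a - a' - (b * c' - c * b')) * (a' + p' + (b' * r' - c' * q')) +
        (b - b' - (c * a' - a * c')) * (b' + q' + (c' * p' - a' * r')) +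
        (c - c' - (a * b' - b * a')) * (c' + r' + (a' * q' - b' * p'))) := by
  ring

theorem c02_i4 (a b c p q r a' b' c' : ℝ) :
    (a - a' - (b * c' - c * b')) * (a + p + (b * r - c * q)) +
        (b - b' - (c * a' - a * c')) * (b + q + (c * p - a * r)) +
        (c - c' - (a * b' - b * a')) * (c + r + (a * q - b * p)) =
      -((a' - a - (b * c' - c * b')) * (a + p + (q * c - r * b)) +
       (b' - b - (c * a' - a * c')) * (b + q + (r * a - p * c)) +
       (c' - c - (a * b' - b * a')) * (c + r + (p * b - q * a))) := by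
  ring

/-- The conclusion from the identities. -/
theorem c02_con {Q t g G u v w X Y N N' : ℝ} (hQ : 0 < Q) (ht : 0 < t) (hN : 0 < N) (hN' : 0 < N')
    (i1 : g ^ 2 + (u ^ 2 + v ^ 2 + w ^ 2) = N * N') (i2 : N * Y = g * Q - G)
    (i5 : N' * X = t * (g * Q + G)) (hm : Q * (t * Q) ≤ X * Y) :
    u ^ 2 + v ^ 2 + w ^ 2 ≤ 0 := by
  have k1 : Q * (t * Q) * (N * N') ≤ (t * (g * Q + G)) * (g * Q - G) := by
    rw [← i2, ← i5]
    have := mul_le_mul_of_nonneg_right hm (mul_pos hN hN').le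
    linarith
  rw [← i1] at k1
  have k2 : t * (Q ^ 2 * (u ^ 2 + v ^ 2 + w ^ 2)) ≤ -(t * G ^ 2) := by linarith
  have h2 : 0 ≤ t * G ^ 2 := by positivity
  by_contra hcon
  push Not at hcon
  have : 0 < t * (Q ^ 2 * (u ^ 2 + v ^ 2 + w ^ 2)) := by positivity
  linarith

/-- The real computation behind `c02_alg`. -/
theorem c02_real (a b c p q r a' b' c' p' q' r' Q Q' : ℝ)
    (hQ : Q = 1 - (a * p + b * q + c * r)) (hQ' : Q' = 1 - (a' * p' + b' * q' + c' * r'))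
    (h : 0 < Q) (h' : 0 < Q')
    (e0 : Q⁻¹ * (a + p + (b * r - c * q)) = Q'⁻¹ * (a' + p' + (b' * r' - c' * q')))
    (e1 : Q⁻¹ * (b + q + (c * p - a * r)) = Q'⁻¹ * (b' + q' + (c' * p' - a' * r')))
    (e2 : Q⁻¹ * (c + r + (a * q - b * p)) = Q'⁻¹ * (c' + r' + (a' * q' - b' * p')))
    (hm : Q * Q' ≤ (1 - (a * p' + b * q' + c * r')) * (1 - (a' * p + b' * q + c' * r))) :
    a = a' ∧ b = b' ∧ c = c' := by
  obtain ⟨t, htp, hQt⟩ : ∃ t : ℝ, 0 < t ∧ Q' = t * Q := ⟨Q' / Q, by positivity, by field_simp⟩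
  have f0 := c02_div h htp hQt e0
  have f1 := c02_div h htp hQt e1
  have f2 := c02_div h htp hQt e2
  have i3 := c02_i3 a b c a' b' c' p' q' r'
  rw [f0, f1, f2, ← hQ', hQt] at i3
  have i4 := c02_i4 a b c p q r a' b' c'
  have i2 := c02_i2 a b c p q r a' b' c'
  rw [← hQ] at i2
  have hN : 0 < 1 + (a ^ 2 + b ^ 2 + c ^ 2) := by positivity
  have hN' : 0 < 1 + (a' ^ 2 + b' ^ 2 + c' ^ 2) := by positivity
  rw [hQt] at hm
  have k3 := c02_con h htp hN hN' (c02_i1 a b c a' b' c') i2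
    (X := 1 - (a * p' + b * q' + c * r'))
    (by rw [i3]; linear_combination (-t) * i4) hm
  obtain ⟨hu, hv, hw⟩ := c02_sq k3
  have l1 : (a' - a) ^ 2 + (b' - b) ^ 2 + (c' - c) ^ 2 ≤ 0 := by
    have m1 : a' - a = b * c' - c * b' := by linarith
    have m2 : b' - b = c * a' - a * c' := by linarith
    have m3 : c' - c = a * b' - b * a' := by linarith
    have : (a' - a) ^ 2 + (b' - b) ^ 2 + (c' - c) ^ 2 = 0 := by
      calc (a' - a) ^ 2 + (b' - b) ^ 2 + (c' - c) ^ 2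
        = (a' - a) * (b * c' - c * b') + (b' - b) * (c * a' - a * c') +
          (c' - c) * (a * b' - b * a') := by rw [← m1, ← m2, ← m3]; ring
      _ = 0 := by ring
    exact this.le
  obtain ⟨n0, n1, n2⟩ := c02_sq l1
  exact ⟨by linarith, by linarith, by linarith⟩

/-- The product determines the factors of an optimal pair.

Proof. Let `q = qq x y`, `q' = qq x' y'`, `τ = q' / q > 0`. From `op x y = op x' y'`:
`x' + y' + cro x' y' = τ • (x + y + cro x y)` (three scalar equations), `q' = τ q`.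
Put `g₀ = 1 + x·x'`, `γ = x' - x - x × x'`, `w = x + y + y × x`. Polynomial identities:
(1) `g₀² + |γ|² = nn x * nn x'`;
(2) `nn x * qq x' y = g₀ q - γ·w`;
(3) `nn x' * qq x y' = g₀ q' - (x - x' - x × x')·(x' + y' + x' × y')`;
(4) `g₀ q - (x - x' - x × x')·(x + y + x × y) = g₀ q + γ·w`.
So `nn x' * qq x y' = τ (g₀ q + γ·w)`, and the hypothesis multiplied by `nn x * nn x'` reads
`τ q² (g₀² + |γ|²) ≤ τ (g₀² q² - (γ·w)²)`. Hence `q² |γ|² ≤ 0`, `γ = 0`, and
`|x' - x|² = (x' - x)·(x × x') = 0`. (In terms of quaternions `X = 1 + x` etc.: `g = X̄ X'`,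
`X' Y' = τ X Y`.) -/
theorem c02_alg {x y x' y' : E3} (h : 0 < qq x y) (h' : 0 < qq x' y') (he : op x y = op x' y')
    (hm : qq x y * qq x' y' ≤ qq x y' * qq x' y) : x = x' := by
  have e0 := congrArg (fun z : E3 => z 0) he
  have e1 := congrArg (fun z : E3 => z 1) he
  have e2 := congrArg (fun z : E3 => z 2) he
  simp only [op0, op1, op2] at e0 e1 e2
  rw [qq_eq x y', qq_eq x' y] at hm
  obtain ⟨h0, h1, h2⟩ := c02_real _ _ _ _ _ _ _ _ _ _ _ _ _ _ (qq_eq x y) (qq_eq x' y') h h'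
    e0 e1 e2 hm
  ext i
  fin_cases i
  · exact h0
  · exact h1
  · exact h2

/-- Proof. `c01_eta`, `T.mono`, `T.mem`, `c02_alg`, then `c01_injR`. -/
theorem c02_inj {A B : Set E3} (hq : ∀ x ∈ A, ∀ y ∈ B, 0 < qq x y) (T : TData A B) :
    InjOn (zeta T.U T.R) {w | T.R w ∈ T.A'} := by
  intro w hw w' hw' h
  apply c01_injR T hw hw'
  unfold zeta at h
  rw [c01_eta T hw, c01_eta T hw'] at h
  exact c02_alg (hq _ (T.sub hw) _ (T.mem _ hw)) (hq _ (T.sub hw') _ (T.mem _ hw')) h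
    (T.mono _ hw _ hw')

end Pool.Agent.Lib.H68L
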