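import Pool.Agent.Lib.H68L.Defs

open MeasureTheory Set Matrix Filter Topology

namespace Pool.Agent.Lib.H68L


/-- Proof. The Hausdorff measure `μH[3]` of the three dimensional space `E3` is an additive Haar
measure (`MeasureTheory.isAddHaarMeasure_hausdorffMeasure`; `finrank ℝ E3 = 3`), so it has the same
null sets as the volume (`Measure.isAddHaarMeasure_eq_smul` or the absolute continuity lemmas), and
`LipschitzWith.hausdorffMeasure_image_le`. -/
theorem c03_null {R : E3 → E3} (hR : LipschitzWith 1 R) {N : Set E3} (hN : volume N = 0) :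
    volume (R '' N) = 0 := by
  have h1 : (volume : Measure E3) ≪ (Measure.hausdorffMeasure (Module.finrank ℝ E3 : ℝ)) := by
    rw [Measure.isAddLeftInvariant_eq_smul (volume : Measure E3)
      (Measure.hausdorffMeasure (Module.finrank ℝ E3 : ℝ))]
    exact Measure.smul_absolutelyContinuous
  have h2 : (Measure.hausdorffMeasure (Module.finrank ℝ E3 : ℝ)) ≪ (volume : Measure E3) := by
    rw [Measure.isAddLeftInvariant_eq_smul
      (Measure.hausdorffMeasure (Module.finrank ℝ E3 : ℝ) : Measure E3) volume]
    exact Measure.smul_absolutelyContinuous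
  apply h1
  have h3 := hR.hausdorffMeasure_image_le (d := (Module.finrank ℝ E3 : ℝ)) (by positivity) N
  rw [h2 hN, mul_zero] at h3
  exact nonpos_iff_eq_zero.1 h3

/-- Proof. `nu (f '' s) = ∫⁻ x in f '' s, ofReal (dens x)` (`withDensity_apply'`), and
`lintegral_image_eq_lintegral_abs_det_fderiv_mul`. -/
theorem c03_cov {f : E3 → E3} {f' : E3 → E3 →L[ℝ] E3} {s : Set E3} (hs : MeasurableSet s)
    (hf' : ∀ x ∈ s, HasFDerivAt f (f' x) x) (hf : InjOn f s) :
    nu (f '' s) = ∫⁻ x in s, ENNReal.ofReal |(f' x).det| * ENNReal.ofReal (dens (f x)) := by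
  unfold nu
  rw [withDensity_apply']
  exact lintegral_image_eq_lintegral_abs_det_fderiv_mul volume hs
    (fun x hx => (hf' x hx).hasFDerivWithinAt) hf (fun x => ENNReal.ofReal (dens x))

end Pool.Agent.Lib.H68L
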