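import Pool.Agent.Lib.H68L.C01
import Pool.Agent.Lib.H68L.C03

open MeasureTheory Set Matrix Filter Topology

namespace Pool.Agent.Lib.H68L


/-- The set of good points `w`. -/
def goodW {A B : Set E3} (T : TData A B) : Set E3 :=
  {w | T.R w ∈ T.A' ∧ DifferentiableAt ℝ T.R w}

/-- Proof. `T.R` is continuous (`m02_lip`), `measurableSet_of_differentiableAt`. -/
theorem c04_meas {A B : Set E3} (T : TData A B) : MeasurableSet (goodW T) := by
  have h1 : Continuous T.R := (m02_lip T.hR).continuous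
  exact (h1.measurable T.mA').inter (measurableSet_of_differentiableAt ℝ T.R)

/-- Proof. By `c03_cov` (`c01_injR`) the integral is `nu (R '' goodW)`. `R '' goodW ⊆ A' ⊆ A`. If
`ξ ∈ A'`, then `ξ = R w` with `w = ξ - gradient U ξ` (`c01_surj`), so
`A \ R '' goodW ⊆ (A \ A') ∪ R '' {w | ¬ DifferentiableAt ℝ R w}`, a null set for `nu`: `T.null`,
`LipschitzWith.ae_differentiableAt` (`m02_lip`), `c03_null`, `nu_ac`. -/
theorem c04_mass {A B : Set E3} (T : TData A B) :
    ∫⁻ w in goodW T, ENNReal.ofReal |(fderiv ℝ T.R w).det| * ENNReal.ofReal (dens (T.R w)) =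
      nu A := by
  have hlip : LipschitzWith 1 T.R := m02_lip T.hR
  rw [← c03_cov (f := T.R) (f' := fun w => fderiv ℝ T.R w) (c04_meas T)
    (fun w hw => hw.2.hasFDerivAt) ((c01_injR T).mono fun w hw => hw.1)]
  apply le_antisymm
  · apply measure_mono
    rintro _ ⟨w, hw, rfl⟩
    exact T.sub hw.1
  · have hnull : nu (T.R '' {w | ¬ DifferentiableAt ℝ T.R w}) = 0 := by
      apply nu_ac
      apply c03_null hlip
      exact hlip.ae_differentiableAt
    have hsub : A ⊆ T.R '' goodW T ∪ ((A \ T.A') ∪ T.R '' {w | ¬ DifferentiableAt ℝ T.R w}) := by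
      intro ξ hξ
      by_cases h : ξ ∈ T.A'
      · have h1 := c01_surj T h
        by_cases h2 : DifferentiableAt ℝ T.R (ξ - gradient T.U ξ)
        · left
          exact ⟨_, ⟨by rw [h1]; exact h, h2⟩, h1⟩
        · right; right
          exact ⟨_, h2, h1⟩
      · right; left
        exact ⟨hξ, h⟩
    calc nu A ≤ nu (T.R '' goodW T ∪ ((A \ T.A') ∪ T.R '' {w | ¬ DifferentiableAt ℝ T.R w})) :=
          measure_mono hsub
      _ ≤ nu (T.R '' goodW T) + nu ((A \ T.A') ∪ T.R '' {w | ¬ DifferentiableAt ℝ T.R w}) :=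
          measure_union_le _ _
      _ ≤ nu (T.R '' goodW T) + (nu (A \ T.A') + nu (T.R '' {w | ¬ DifferentiableAt ℝ T.R w})) := by
          gcongr
          exact measure_union_le _ _
      _ = nu (T.R '' goodW T) := by rw [T.null, hnull, add_zero, add_zero]

end Pool.Agent.Lib.H68L
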