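import Pool.Agent.Lib.H68L.M05

open MeasureTheory Set Matrix Filter Topology

namespace Pool.Agent.Lib.H68L


/-- Proof. `dd U R w = U (R w) - ⟪R w, R w - w⟫`; its derivative in the direction `h` is
`⟪S (R w - w), h⟫ - ⟪S h, R w - w⟫ - ⟪R w, S h - h⟫ = ⟪R w, h - S h⟫` (`m05`, `m04_symm`). -/
theorem d02_dd {U : E3 → ℝ} {R : E3 → E3}
    (hR : ∀ w ξ, U ξ ≤ U (R w) + inner ℝ (R w - w) (ξ - R w)) {w : E3} {S : E3 →L[ℝ] E3}
    (hS : HasFDerivAt R S w) :
    HasFDerivAt (dd U R)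
      ((innerSL ℝ (R w)).comp (ContinuousLinearMap.id ℝ E3 - S)) w := by
  have h1 : HasFDerivAt (fun w => U (R w)) (innerSL ℝ (S (R w - w))) w :=
    (m05 hR hS).hasFDerivAt
  have h2 : HasFDerivAt (fun w => R w - w) (S - ContinuousLinearMap.id ℝ E3) w :=
    hS.sub (hasFDerivAt_id w)
  have h3 := hS.inner ℝ h2
  have h4 := h1.sub h3
  refine h4.congr_fderiv ?_
  ext h
  have h5 : inner ℝ (S (R w)) h = inner ℝ (R w) (S h) := m04_symm hR hS _ _
  have h5' : inner ℝ (S w) h = inner ℝ w (S h) := m04_symm hR hS _ _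
  have h6 : inner ℝ (S h) (R w - w) = inner ℝ (R w - w) (S h) := real_inner_comm _ _
  simp [h5, h5', h6, inner_sub_right, inner_sub_left, fderivInnerCLM_apply]

/-- Proof. `eta = -(dd⁻¹ • (R w - w))`; by `d02_dd`, with `D = dd U R w`, `T = 1 - S`, the derivative
in the direction `h` is `D⁻¹ T h + D⁻² ⟪R w, T h⟫ (R w - w) = D⁻¹ (T h - ⟪R w, T h⟫ eta w)`, which is
`tm (D⁻¹ • ((1 - vv (eta w) (R w)) * (1 - mt S))) h` (`tm_mul`, `tm_sub`, `tm_one`, `tm_mt`, `tm_smul`,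
and `tm (vv y x) k = ⟪x, k⟫ • y`). -/
theorem d02 {U : E3 → ℝ} {R : E3 → E3}
    (hR : ∀ w ξ, U ξ ≤ U (R w) + inner ℝ (R w - w) (ξ - R w)) {w : E3} {S : E3 →L[ℝ] E3}
    (hS : HasFDerivAt R S w) (hD : dd U R w ≠ 0) :
    HasFDerivAt (eta U R) (tm (hM (dd U R w) (R w) (eta U R w) (mt S))) w := by
  have hvv : ∀ (x y k : E3), tm (vv y x) k = (inner ℝ x k : ℝ) • y := by
    intro x y k
    ext i
    rw [tm_apply, inner_eq]
    simp [vv]
    ring
  have h2 : HasFDerivAt (fun w => R w - w) (S - ContinuousLinearMap.id ℝ E3) w :=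
    hS.sub (hasFDerivAt_id w)
  have h3 := (hasDerivAt_inv hD).comp_hasFDerivAt w (d02_dd hR hS)
  have h4 := (h3.smul h2).neg
  refine h4.congr_fderiv ?_
  have e1 : tm (hM (dd U R w) (R w) (eta U R w) (mt S)) =
      (dd U R w)⁻¹ • ((ContinuousLinearMap.id ℝ E3 - tm (vv (eta U R w) (R w))).comp
        (ContinuousLinearMap.id ℝ E3 - S)) := by
    rw [hM, tm_smul, tm_mul, tm_sub, tm_sub, tm_one, tm_mt]
  rw [e1]
  refine ContinuousLinearMap.ext fun h => ?_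
  have e2 : ((dd U R w)⁻¹ • ((ContinuousLinearMap.id ℝ E3 - tm (vv (eta U R w) (R w))).comp
        (ContinuousLinearMap.id ℝ E3 - S))) h =
      (dd U R w)⁻¹ • ((h - S h) - (inner ℝ (R w) (h - S h) : ℝ) • eta U R w) := by
    simp only [_root_.smul_apply, ContinuousLinearMap.comp_apply, _root_.sub_apply,
      ContinuousLinearMap.id_apply, hvv]
  rw [e2]
  simp only [eta]
  have hf : (fun x => (Inv.inv ∘ dd U R) x) w = (dd U R w)⁻¹ := rfl
  simp [sub_eq_add_neg, inner_add_right, inner_neg_right]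
  ext i
  simp
  field_simp
  ring

end Pool.Agent.Lib.H68L
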