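import Pool.Agent.Lib.H68L.C04
import Pool.Agent.Lib.H68L.D02

open MeasureTheory Set Matrix Filter Topology

namespace Pool.Agent.Lib.H68L


/-- Auxiliary: the image of a good set under `eta` as a preimage. -/
theorem c05_pre {A B : Set E3} (T : TData A B) {E : Set E3} (hE : E ⊆ goodW T) :
    T.A' ∩ Fm T.U ⁻¹' (eta T.U T.R '' E) = T.R '' E := by
  ext ξ
  constructor
  · rintro ⟨hξ, w, hw, he⟩
    refine ⟨w, hw, ?_⟩
    have hw' : T.R w ∈ T.A' := (hE hw).1
    rw [c01_eta T hw'] at he
    exact T.inj hw' hξ he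
  · rintro ⟨w, hw, rfl⟩
    have hw' : T.R w ∈ T.A' := (hE hw).1
    exact ⟨hw', w, hw, c01_eta T hw'⟩

/-- Auxiliary: `eta` is measurable. -/
theorem c05_meas {A B : Set E3} (T : TData A B) : Measurable (eta T.U T.R) := by
  have hR : Continuous T.R := (m02_lip T.hR).continuous
  have hdd : Continuous (dd T.U T.R) := by
    unfold dd
    exact (T.cont.comp hR).sub (hR.inner (hR.sub continuous_id))
  unfold eta
  exact (hdd.measurable.inv.smul (hR.sub continuous_id).measurable).neg

/-- Auxiliary: measurability of the Jacobian densities. -/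
theorem c05_jac {f : E3 → E3} (hf : Measurable f) :
    Measurable fun w => ENNReal.ofReal |(fderiv ℝ f w).det| * ENNReal.ofReal (dens (f w)) := by
  have h1 : Measurable fun w => (fderiv ℝ f w).det :=
    ContinuousLinearMap.continuous_det.measurable.comp (measurable_fderiv ℝ f)
  exact (h1.abs.ennreal_ofReal).mul ((continuous_dens.measurable.comp hf).ennreal_ofReal)

/-- Proof. `d02` (with `c01_dd`) gives the differentiability of `eta` at the points of `goodW T`.
Let `p w = ofReal |(fderiv ℝ R w).det| * ofReal (dens (R w))`,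
`r w = ofReal |(fderiv ℝ eta w).det| * ofReal (dens (eta w))`: measurable functions
(`measurable_fderiv`, `ContinuousLinearMap.continuous_det`, `dens` continuous, `R` continuous, `U`
continuous so `eta` is measurable). For every measurable `E ⊆ goodW T`:
`∫⁻ w in E, p w = nu (R '' E)`, `∫⁻ w in E, r w = nu (eta '' E)` (`c03_cov`, injectivity). The set
`Y = eta '' E` is measurable (`MeasurableSet.image_of_measurable_injOn`), `Y ⊆ B`
(`c01_eta`, `T.mem`), and `A' ∩ Fm ⁻¹' Y = R '' E` (if `ξ ∈ A'` and `Fm ξ = eta w = Fm (R w)`,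
`w ∈ E`, then `ξ = R w` by `T.inj`). So `T.push` says `(∫⁻ E, p) * nu B = (∫⁻ E, r) * nu A`. All these
numbers are finite. Hence `p * nu B = r * nu A` almost everywhere on `goodW T`
(`MeasureTheory.ae_eq_of_forall_setLIntegral_eq_of_sigmaFinite` for the measure
`volume.restrict (goodW T)` and the functions `p * nu B`, `r * nu A`). -/
theorem c05 {A B : Set E3} (hfin : IsFiniteMeasure nu) (T : TData A B) :
    ∀ᵐ w ∂(volume.restrict (goodW T)),
      ENNReal.ofReal |(fderiv ℝ T.R w).det| * ENNReal.ofReal (dens (T.R w)) * nu B =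
      ENNReal.ofReal |(fderiv ℝ (eta T.U T.R) w).det| *
        ENNReal.ofReal (dens (eta T.U T.R w)) * nu A := by
  have hR : Continuous T.R := (m02_lip T.hR).continuous
  have hmE := c05_meas T
  have m1 := c05_jac hR.measurable
  have m2 := c05_jac hmE
  refine ae_eq_of_forall_setLIntegral_eq_of_sigmaFinite (m1.mul_const _) (m2.mul_const _) ?_
  intro s hs _
  rw [Measure.restrict_restrict hs, lintegral_mul_const _ m1, lintegral_mul_const _ m2]
  have hE : MeasurableSet (s ∩ goodW T) := hs.inter (c04_meas T)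
  have hsub : s ∩ goodW T ⊆ goodW T := inter_subset_right
  have hsub' : s ∩ goodW T ⊆ {w | T.R w ∈ T.A'} := fun w hw => (hsub hw).1
  have injR : InjOn T.R (s ∩ goodW T) := (c01_injR T).mono hsub'
  have injE : InjOn (eta T.U T.R) (s ∩ goodW T) := (c01_injeta T).mono hsub'
  have dR : ∀ w ∈ s ∩ goodW T, HasFDerivAt T.R (fderiv ℝ T.R w) w :=
    fun w hw => (hsub hw).2.hasFDerivAt
  have dE : ∀ w ∈ s ∩ goodW T, HasFDerivAt (eta T.U T.R) (fderiv ℝ (eta T.U T.R) w) w :=
    fun w hw => (d02 T.hR (dR w hw) (c01_dd T (hsub hw).1).ne').differentiableAt.hasFDerivAt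
  have c1 := c03_cov hE dR injR
  have c2 := c03_cov hE dE injE
  have hY : MeasurableSet (eta T.U T.R '' (s ∩ goodW T)) :=
    hE.image_of_measurable_injOn hmE injE
  have hYB : eta T.U T.R '' (s ∩ goodW T) ⊆ B := by
    rintro _ ⟨w, hw, rfl⟩
    rw [c01_eta T (hsub hw).1]
    exact T.mem _ (hsub hw).1
  have hp := T.push _ hY
  rw [c05_pre T hsub, inter_eq_self_of_subset_right hYB, c1, c2] at hp
  exact hp

end Pool.Agent.Lib.H68L
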