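import Pool.Agent.Lib.H68L.D01
import Pool.Agent.Lib.H68L.D02

open MeasureTheory Set Matrix Filter Topology

namespace Pool.Agent.Lib.H68L


/-- Proof. `d01`, `d02`, and `tm_add`, `tm_mul`, `tm_mt`. -/
theorem d03 {U : E3 → ℝ} {R : E3 → E3}
    (hR : ∀ w ξ, U ξ ≤ U (R w) + inner ℝ (R w - w) (ξ - R w)) {w : E3} {S : E3 →L[ℝ] E3}
    (hS : HasFDerivAt R S w) (hD : dd U R w ≠ 0) (hq : qq (R w) (eta U R w) ≠ 0) :
    HasFDerivAt (zeta U R) (tm (zxM (R w) (eta U R w) * mt S +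
      zyM (R w) (eta U R w) * hM (dd U R w) (R w) (eta U R w) (mt S))) w := by
  have h := d01 hS (d02 hR hS hD) hq
  rw [tm_add, tm_mul, tm_mul, tm_mt]
  exact h

/-- Proof. `ContinuousLinearMap.det` is the determinant of the underlying linear map, which is
`Matrix.toEuclideanLin M` (`Matrix.coe_toEuclideanCLM_eq_toEuclideanLin`), i.e. `Matrix.toLin` for
the standard basis (`Matrix.toEuclideanLin_eq_toLin`), `LinearMap.det_toLin`. -/
theorem d03_det (M : Matrix (Fin 3) (Fin 3) ℝ) : (tm M).det = M.det := by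
  rw [ContinuousLinearMap.det, tm, Matrix.coe_toEuclideanCLM_eq_toEuclideanLin,
    Matrix.toEuclideanLin_eq_toLin, LinearMap.det_toLin]

/-- Proof. `d03_det` and `tm_mt`. -/
theorem d03_mt (L : E3 →L[ℝ] E3) : (mt L).det = L.det := by
  rw [← d03_det, tm_mt]

end Pool.Agent.Lib.H68L
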