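import Pool.Agent.Lib.H68L.J08

open MeasureTheory Set Matrix Filter Topology

namespace Pool.Agent.Lib.H68L


/-- Proof. For `0 < ε ≤ 1` the matrix `(1 - ε) • S + (ε / 2) • 1` is positive definite (the sum of
a positive semidefinite and a positive definite one), and so is
`1 - ((1 - ε) • S + (ε / 2) • 1) = (1 - ε) • (1 - S) + (ε / 2) • 1`. -/
theorem j09_eps {S : Matrix (Fin 3) (Fin 3) ℝ} (hS : S.PosSemidef) (hT : (1 - S).PosSemidef)
    {ε : ℝ} (h0 : 0 < ε) (h1 : ε ≤ 1) :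
    ((1 - ε) • S + (ε / 2) • (1 : Matrix (Fin 3) (Fin 3) ℝ)).PosDef ∧
      (1 - ((1 - ε) • S + (ε / 2) • (1 : Matrix (Fin 3) (Fin 3) ℝ))).PosDef := by
  have hI : ((ε / 2) • (1 : Matrix (Fin 3) (Fin 3) ℝ)).PosDef :=
    Matrix.PosDef.one.smul (by positivity)
  constructor
  · exact Matrix.PosDef.posSemidef_add (hS.smul (by linarith)) hI
  · have e : 1 - ((1 - ε) • S + (ε / 2) • (1 : Matrix (Fin 3) (Fin 3) ℝ)) =
        (1 - ε) • (1 - S) + (ε / 2) • (1 : Matrix (Fin 3) (Fin 3) ℝ) := by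
      module
    rw [e]
    exact Matrix.PosDef.posSemidef_add (hT.smul (by linarith)) hI

/-- The pointwise inequality.

Proof. Apply `j08` to `S_ε = (1 - ε) • S + (ε / 2) • 1` (`j09_eps`) and let `ε → 0+`: both sides are
continuous functions of `ε` (`Continuous.matrix_det`, `j06_cont`), `le_of_tendsto_of_tendsto`. -/
theorem j09 {x y : E3} (hq : 0 < qq x y) {D : ℝ} (hD : 0 < D)
    {S : Matrix (Fin 3) (Fin 3) ℝ} (hS : S.PosSemidef) (hT : (1 - S).PosSemidef) :
    Phi (qq x y / √(nn x * nn y)) (lamM x * S).det (rhoM y * hM D x y S).det ≤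
      (lamM x * S + rhoM y * hM D x y S).det := by
  set T : ℝ → Matrix (Fin 3) (Fin 3) ℝ := fun ε =>
    (1 - ε) • S + (ε / 2) • (1 : Matrix (Fin 3) (Fin 3) ℝ) with hTd
  have hTc : Continuous T := by
    simp only [hTd]
    fun_prop
  have hT0 : T 0 = S := by simp [hTd]
  have ha : Continuous fun ε => (lamM x * T ε) := continuous_const.mul hTc
  have hb : Continuous fun ε => (rhoM y * hM D x y (T ε)) := by
    unfold hM
    have h1 : Continuous fun ε => (1 - T ε) := continuous_const.sub hTc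
    have h2 : Continuous fun ε => (1 - vv y x) * (1 - T ε) := continuous_const.mul h1
    have h3 : Continuous fun ε => D⁻¹ • ((1 - vv y x) * (1 - T ε)) :=
      (continuous_const_smul (D⁻¹ : ℝ)).comp h2
    exact continuous_const.mul h3
  have hf : Continuous fun ε => Phi (qq x y / √(nn x * nn y)) (lamM x * T ε).det
      (rhoM y * hM D x y (T ε)).det :=
    (j06_cont (qq x y / √(nn x * nn y))).comp (ha.matrix_det.prodMk hb.matrix_det)
  have hg : Continuous fun ε => (lamM x * T ε + rhoM y * hM D x y (T ε)).det :=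
    (ha.add hb).matrix_det
  have hf' := (hf.tendsto 0).mono_left (nhdsWithin_le_nhds (s := Ioi (0 : ℝ)))
  have hg' := (hg.tendsto 0).mono_left (nhdsWithin_le_nhds (s := Ioi (0 : ℝ)))
  simp only [hT0] at hf' hg'
  refine le_of_tendsto_of_tendsto hf' hg' ?_
  have h1 : ∀ᶠ ε in 𝓝[>] (0 : ℝ), ε ∈ Ioc (0 : ℝ) 1 := Ioc_mem_nhdsGT one_pos
  filter_upwards [h1] with ε hε
  obtain ⟨h2, h3⟩ := j09_eps hS hT hε.1 hε.2
  exact j08 hq hD h2 h3

/-- Proof. `det (lamM x) = dens x > 0` (`j01_d`), `det S ≥ 0` (`Matrix.PosSemidef.det_nonneg`). -/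
theorem j09_a {S : Matrix (Fin 3) (Fin 3) ℝ} (hS : S.PosSemidef) (x : E3) :
    0 ≤ (lamM x * S).det := by
  rw [Matrix.det_mul, j01_d]
  exact mul_nonneg (dens_pos x).le hS.det_nonneg

/-- Proof. `det (rhoM y) = dens y` (`j01_d'`), `det (1 - vv y x) = qq x y` (`j01_f`),
`Matrix.det_smul`, `det (1 - S) ≥ 0`. -/
theorem j09_b {S : Matrix (Fin 3) (Fin 3) ℝ} (hT : (1 - S).PosSemidef) {x y : E3}
    (hq : 0 < qq x y) {D : ℝ} (hD : 0 < D) : 0 ≤ (rhoM y * hM D x y S).det := by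
  rw [Matrix.det_mul, j01_d', hM, Matrix.det_smul, Matrix.det_mul, j01_f]
  exact mul_nonneg (dens_pos y).le (mul_nonneg (pow_nonneg (inv_nonneg.2 hD.le) _)
    (mul_nonneg hq.le hT.det_nonneg))

end Pool.Agent.Lib.H68L
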