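import Pool.Agent.Lib.H68L.M03

open MeasureTheory Set Matrix Filter Topology

namespace Pool.Agent.Lib.H68L

/-- The inner product as a continuous bilinear map. -/
noncomputable def m04_B : E3 →L[ℝ] E3 →L[ℝ] ℝ :=
  (isBoundedBilinearMap_inner (𝕜 := ℝ) (E := E3)).toContinuousLinearMap

theorem m04_B_apply (x y : E3) : m04_B x y = inner ℝ x y := rfl

/-- Proof. The function `e w = ‖R w - w‖ ^ 2 / 2 - U (R w)` has the derivative
`h ↦ ⟪w - R w, h⟫` everywhere (`m03`; `f' w = innerSL ℝ (w - R w)`), and `f'` has a derivative at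
`w`: `h ↦ innerSL ℝ (h - S h)`. By `second_derivative_symmetric` (real case: second derivatives
are symmetric), `⟪h - S h, k⟫ = ⟪k - S k, h⟫`, so `⟪S h, k⟫ = ⟪h, S k⟫`. -/
theorem m04_symm {U : E3 → ℝ} {R : E3 → E3}
    (hR : ∀ w ξ, U ξ ≤ U (R w) + inner ℝ (R w - w) (ξ - R w)) {w : E3} {S : E3 →L[ℝ] E3}
    (hS : HasFDerivAt R S w) (h k : E3) : inner ℝ (S h) k = inner ℝ h (S k) := by
  have hf : ∀ y, HasFDerivAt (fun w => ‖R w - w‖ ^ 2 / 2 - U (R w)) (m04_B (y - R y)) y := by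
    intro y
    have h1 := (m03 hR y).hasFDerivAt
    have h2 : (InnerProductSpace.toDual ℝ E3) (y - R y) = m04_B (y - R y) := by
      ext v
      rw [InnerProductSpace.toDual_apply_apply, m04_B_apply]
    rw [h2] at h1
    exact h1
  have hx : HasFDerivAt (fun y => m04_B (y - R y)) (m04_B.comp (ContinuousLinearMap.id ℝ E3 - S)) w :=
    m04_B.hasFDerivAt.comp w ((hasFDerivAt_id w).sub hS)
  have h3 := second_derivative_symmetric (𝕜 := ℝ) hf hx h k
  simp only [ContinuousLinearMap.comp_apply, _root_.sub_apply, ContinuousLinearMap.id_apply,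
    m04_B_apply, inner_sub_left] at h3
  have h4 : inner ℝ h k = inner ℝ k h := real_inner_comm k h
  have h5 : inner ℝ h (S k) = inner ℝ (S k) h := real_inner_comm (S k) h
  linarith

/-- Proof. By `m02_firm`, `‖(R (w + t h) - R w)/t‖² ≤ ⟪h, (R (w + t h) - R w)/t⟫` for `t ≠ 0`;
let `t → 0` (`HasFDerivAt.lim` or `HasDerivAt` of `t ↦ R (w + t h)` and its slope). -/
theorem m04_firm {U : E3 → ℝ} {R : E3 → E3}
    (hR : ∀ w ξ, U ξ ≤ U (R w) + inner ℝ (R w - w) (ξ - R w)) {w : E3} {S : E3 →L[ℝ] E3}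
    (hS : HasFDerivAt R S w) (h : E3) : ‖S h‖ ^ 2 ≤ inner ℝ h (S h) := by
  have hγ : HasDerivAt (fun t : ℝ => R (w + t • h)) (S h) 0 := by
    have h1 : HasDerivAt (fun t : ℝ => w + t • h) h 0 := by
      simpa using ((hasDerivAt_id (0 : ℝ)).smul_const h).const_add w
    have hS' : HasFDerivAt R S (w + (0 : ℝ) • h) := by simpa using hS
    exact hS'.comp_hasDerivAt (0 : ℝ) h1
  have hlim := hasDerivAt_iff_tendsto_slope.1 hγ
  have hl1 : Tendsto (fun t => ‖slope (fun t : ℝ => R (w + t • h)) 0 t‖ ^ 2) (𝓝[≠] 0) (𝓝 (‖S h‖ ^ 2)) :=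
    hlim.norm.pow 2
  have hl2 : Tendsto (fun t => inner ℝ h (slope (fun t : ℝ => R (w + t • h)) 0 t)) (𝓝[≠] 0)
      (𝓝 (inner ℝ h (S h))) :=
    (tendsto_const_nhds).inner hlim
  refine le_of_tendsto_of_tendsto hl1 hl2 ?_
  filter_upwards [self_mem_nhdsWithin] with t ht
  have ht0 : t ≠ 0 := ht
  have h2 := m02_firm hR (w + t • h) w
  rw [add_sub_cancel_left] at h2
  rw [slope_def_module]
  simp only [sub_zero, zero_smul, add_zero]
  rw [norm_smul, mul_pow, inner_smul_right, norm_inv, Real.norm_eq_abs, inv_pow, sq_abs]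
  rw [inner_smul_left] at h2
  simp only [conj_trivial] at h2
  have ht2 : 0 < t ^ 2 := by positivity
  rw [← mul_le_mul_iff_right₀ ht2, ← mul_assoc, mul_inv_cancel₀ ht2.ne', one_mul]
  calc ‖R (w + t • h) - R w‖ ^ 2 ≤ t * inner ℝ h (R (w + t • h) - R w) := h2
    _ = t ^ 2 * (t⁻¹ * inner ℝ h (R (w + t • h) - R w)) := by field_simp

theorem m04_mt_apply (S : E3 →L[ℝ] E3) (i j : Fin 3) : mt S i j = inner ℝ (EuclideanSpace.single i (1 : ℝ)) (S (EuclideanSpace.single j 1)) := by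
  have h1 : S (EuclideanSpace.single j 1) i = mt S i j := by
    conv_lhs => rw [← tm_mt S]
    rw [tm_apply]
    fin_cases j <;> simp
  rw [← h1, EuclideanSpace.inner_single_left]
  simp

theorem m04_form (S : E3 →L[ℝ] E3) (x : Fin 3 → ℝ) :
    star x ⬝ᵥ (mt S *ᵥ x) = inner ℝ (WithLp.toLp 2 x : E3) (S (WithLp.toLp 2 x)) := by
  conv_rhs => rw [← tm_mt S]
  rw [inner_eq, tm_apply, tm_apply, tm_apply]
  simp [Matrix.mulVec, dotProduct, Fin.sum_univ_three]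

/-- Proof. `mt S` is symmetric by `m04_symm` applied to the basis vectors
(`EuclideanSpace.single i 1`), and `x ⬝ᵥ (mt S *ᵥ x) = ⟪x, S x⟫ ≥ 0` by `m04_firm`
(`Matrix.PosSemidef`: hermitian and nonnegative form; `tm_mt`, `tm_apply` to compare). -/
theorem m04_pos {U : E3 → ℝ} {R : E3 → E3}
    (hR : ∀ w ξ, U ξ ≤ U (R w) + inner ℝ (R w - w) (ξ - R w)) {w : E3} {S : E3 →L[ℝ] E3}
    (hS : HasFDerivAt R S w) : (mt S).PosSemidef := by
  rw [Matrix.posSemidef_iff_dotProduct_mulVec]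
  refine ⟨?_, ?_⟩
  · ext i j
    rw [Matrix.conjTranspose_apply, m04_mt_apply, m04_mt_apply, star_trivial, ← m04_symm hR hS]
    exact real_inner_comm _ _
  · intro x
    rw [m04_form]
    exact le_trans (sq_nonneg _) (m04_firm hR hS _)

/-- Proof. As `m04_pos`: `⟪x, x - S x⟫ ≥ 0`, because `‖S x‖² ≤ ⟪x, S x⟫ ≤ ‖x‖ ‖S x‖` gives
`‖S x‖ ≤ ‖x‖` and so `⟪x, S x⟫ ≤ ‖x‖²`. -/
theorem m04_le {U : E3 → ℝ} {R : E3 → E3}
    (hR : ∀ w ξ, U ξ ≤ U (R w) + inner ℝ (R w - w) (ξ - R w)) {w : E3} {S : E3 →L[ℝ] E3}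
    (hS : HasFDerivAt R S w) : (1 - mt S).PosSemidef := by
  rw [Matrix.posSemidef_iff_dotProduct_mulVec]
  refine ⟨?_, ?_⟩
  · exact Matrix.isHermitian_one.sub (m04_pos hR hS).isHermitian
  · intro x
    rw [Matrix.sub_mulVec, dotProduct_sub, m04_form, Matrix.one_mulVec]
    have h1 := m04_firm hR hS (WithLp.toLp 2 x)
    have h2 := real_inner_le_norm (WithLp.toLp 2 x : E3) (S (WithLp.toLp 2 x))
    have h3 : star x ⬝ᵥ x = ‖(WithLp.toLp 2 x : E3)‖ ^ 2 := by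
      rw [norm_sq_eq]
      simp [dotProduct, Fin.sum_univ_three, sq]
    rw [h3]
    have h4 : 0 ≤ ‖(WithLp.toLp 2 x : E3)‖ := norm_nonneg _
    have h5 : 0 ≤ ‖S (WithLp.toLp 2 x)‖ := norm_nonneg _
    nlinarith

end Pool.Agent.Lib.H68L
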