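import Pool.Agent.Lib.H68L.C01
import Pool.Agent.Lib.H68L.D03
import Pool.Agent.Lib.H68L.J09
import Pool.Agent.Lib.H68L.M04

open MeasureTheory Set Matrix Filter Topology

namespace Pool.Agent.Lib.H68L


/-- Auxiliary: absolute values of determinants. -/
theorem c06_abs {d a m : ℝ} (hd : 0 < d) (h : 0 ≤ m) (hm : m = d * a) : |a| * d = m := by
  have ha : 0 ≤ a := by
    by_contra hcon
    push Not at hcon
    have := mul_neg_of_pos_of_neg hd hcon
    linarith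
  rw [abs_of_nonneg ha, hm, mul_comm]

/-- Auxiliary: the coefficient lies between `c0` and `1`. -/
theorem c06_coef {x y : E3} (hq : 0 < qq x y) {c0 : ℝ} (hc : c0 * √(nn x * nn y) ≤ qq x y) :
    c0 ≤ qq x y / √(nn x * nn y) ∧ 0 ≤ qq x y / √(nn x * nn y) ∧
      qq x y / √(nn x * nn y) ≤ 1 := by
  have hp : 0 < nn x * nn y := mul_pos (nn_pos x) (nn_pos y)
  have hs : 0 < √(nn x * nn y) := Real.sqrt_pos.2 hp
  refine ⟨(le_div_iff₀ hs).2 hc, by positivity, ?_⟩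
  rw [div_le_one hs]
  apply Real.le_sqrt_of_sq_le
  rw [← j01_g hq.ne']
  have h1 : 1 ≤ nn (op x y) := by
    unfold nn
    have := sq_nonneg ‖op x y‖
    linarith
  have h2 : 0 ≤ qq x y ^ 2 := sq_nonneg _
  nlinarith

/-- The pointwise inequality for the three Jacobians.

Proof. `S = fderiv ℝ R w`, `x = R w`, `y = eta w ∈ B`, `D = dd U R w > 0` (`c01_dd`),
`a_w = (lamM x * mt S).det = |S.det| * dens x` (`d03_mt`, `j01_d`, `j09_a`), similarly
`b_w = (rhoM y * hM D x y (mt S)).det = |(eta').det| * dens y` with `eta' = tm (hM D x y (mt S))`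
(`d02`, `d03_det`, `j01_d'`, `j09_b`; `HasFDerivAt.fderiv`), and
`|(zeta').det| * dens (zeta w) = (lamM x * mt S + rhoM y * hM ..).det` (`d03`, `d03_det`, `j02_e`;
the right side is nonnegative by `j09` and `j06_nonneg`). Then `j09` (`m04_pos`, `m04_le`) and
`j06_mono`: `c0 ≤ qq x y / √(nn x * nn y)` (and this quotient is `≤ 1` by `j01_g`, `nn ≥ 1`). -/
theorem c06 {A B : Set E3} (T : TData A B) (hq : ∀ x ∈ A, ∀ y ∈ B, 0 < qq x y) {c0 : ℝ}
    (hc0 : 0 ≤ c0) (hc : ∀ x ∈ A, ∀ y ∈ B, c0 * √(nn x * nn y) ≤ qq x y)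
    {w : E3} (hw : T.R w ∈ T.A') (hd : DifferentiableAt ℝ T.R w) :
    Phi c0 (|(fderiv ℝ T.R w).det| * dens (T.R w))
      (|(fderiv ℝ (eta T.U T.R) w).det| * dens (eta T.U T.R w)) ≤
      |(fderiv ℝ (zeta T.U T.R) w).det| * dens (zeta T.U T.R w) ∧
    DifferentiableAt ℝ (zeta T.U T.R) w := by
  have hS := hd.hasFDerivAt
  have hD := c01_dd T hw
  have hy : eta T.U T.R w ∈ B := by
    rw [c01_eta T hw]
    exact T.mem _ hw
  have hqp : 0 < qq (T.R w) (eta T.U T.R w) := hq _ (T.sub hw) _ hy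
  have hcp : c0 * √(nn (T.R w) * nn (eta T.U T.R w)) ≤ qq (T.R w) (eta T.U T.R w) :=
    hc _ (T.sub hw) _ hy
  have e1 := d02 T.hR hS hD.ne'
  have e2 := d03 T.hR hS hD.ne' hqp.ne'
  have hp1 := m04_pos T.hR hS
  have hp2 := m04_le T.hR hS
  refine ⟨?_, e2.differentiableAt⟩
  obtain ⟨k1, k2, k3⟩ := c06_coef hqp hcp
  have na := j09_a hp1 (T.R w)
  have nb := j09_b hp2 hqp hD
  have ha : |(fderiv ℝ T.R w).det| * dens (T.R w) = (lamM (T.R w) * mt (fderiv ℝ T.R w)).det :=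
    c06_abs (dens_pos _) na (by rw [Matrix.det_mul, j01_d, d03_mt])
  have hb : |(fderiv ℝ (eta T.U T.R) w).det| * dens (eta T.U T.R w) =
      (rhoM (eta T.U T.R w) *
        hM (dd T.U T.R w) (T.R w) (eta T.U T.R w) (mt (fderiv ℝ T.R w))).det :=
    c06_abs (dens_pos _) nb (by rw [Matrix.det_mul, j01_d', e1.fderiv, d03_det])
  have hmain := j09 hqp hD hp1 hp2
  have hz : |(fderiv ℝ (zeta T.U T.R) w).det| * dens (zeta T.U T.R w) =
      (lamM (T.R w) * mt (fderiv ℝ T.R w) + rhoM (eta T.U T.R w) *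
        hM (dd T.U T.R w) (T.R w) (eta T.U T.R w) (mt (fderiv ℝ T.R w))).det := by
    refine c06_abs (dens_pos _) ((j06_nonneg k2 k3 na nb).trans hmain) ?_
    rw [← j02_e hqp.ne', e2.fderiv, d03_det, mul_comm]
    rfl
  rw [ha, hb, hz]
  exact (j06_mono k1 na nb).trans hmain

end Pool.Agent.Lib.H68L
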