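import Pool.Agent.Lib.H68L.C02
import Pool.Agent.Lib.H68L.C05
import Pool.Agent.Lib.H68L.C06

open MeasureTheory Set Matrix Filter Topology

namespace Pool.Agent.Lib.H68L


/-- The inequality for compact sets in the coordinate.

Proof. Take `T` from `c00`; `z = zeta T.U T.R` is injective on `goodW T` (`c02_inj`) and
`z w = op (R w) (eta w) ∈ image2 op A B`. By `c03_cov`, with `W = goodW T`,
`nu (image2 op A B) ≥ nu (z '' W) = ∫⁻ w in W, ofReal (|(fderiv z w).det| * dens (z w))`
`≥ ∫⁻ w in W, ofReal (Phi c0 (a_w) (b_w))` (`c06`), where `a_w = |(fderiv R w).det| * dens (R w)`,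
`b_w = |(fderiv eta w).det| * dens (eta w)`. With `a = nu.real A > 0`, `b = nu.real B > 0`, `c05` says
`a_w * b = b_w * a` for almost all `w ∈ W` (take `toReal`), so `(a_w, b_w) = (a_w / a) (a, b)` and
`Phi c0 a_w b_w = (a_w / a) Phi c0 a b` (`j06_hom`). The integral is
`ofReal (Phi c0 a b / a) * ∫⁻ W, ofReal a_w = ofReal (Phi c0 a b / a) * nu A = ofReal (Phi c0 a b)`
(`c04_mass`). Take `toReal` (`nu` is finite; if `c0 > 1` there is no problem, but `c0 ≤ 1` holds
because `A`, `B` are not empty and `qq x y ≤ √(nn x * nn y)`). -/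
theorem c07 {A B : Set E3} (hA : IsCompact A) (hB : IsCompact B) (hfin : IsFiniteMeasure nu)
    (hA0 : nu A ≠ 0) (hB0 : nu B ≠ 0) (hq : ∀ x ∈ A, ∀ y ∈ B, 0 < qq x y) {c0 : ℝ}
    (hc0 : 0 ≤ c0) (hc : ∀ x ∈ A, ∀ y ∈ B, c0 * √(nn x * nn y) ≤ qq x y) :
    Phi c0 (nu.real A) (nu.real B) ≤ nu.real (image2 op A B) := by
  obtain ⟨T⟩ := c00 hA hB hfin hA0 hB0 hq
  have hWm := c04_meas T
  have hd : ∀ w ∈ goodW T, HasFDerivAt (zeta T.U T.R) (fderiv ℝ (zeta T.U T.R) w) w :=
    fun w hw => (c06 T hq hc0 hc hw.1 hw.2).2.hasFDerivAt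
  have hinj : InjOn (zeta T.U T.R) (goodW T) := (c02_inj hq T).mono fun w hw => hw.1
  have hcov := c03_cov hWm hd hinj
  have hsub : zeta T.U T.R '' goodW T ⊆ image2 op A B := by
    rintro _ ⟨w, hw, rfl⟩
    refine ⟨T.R w, T.sub hw.1, eta T.U T.R w, ?_, rfl⟩
    rw [c01_eta T hw.1]
    exact T.mem _ hw.1
  have ha : 0 < nu.real A := ENNReal.toReal_pos hA0 (measure_ne_top _ _)
  have h1 : ENNReal.ofReal (Phi c0 (nu.real A) (nu.real B)) ≤ nu (image2 op A B) := by
    refine le_trans ?_ (measure_mono hsub)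
    rw [hcov]
    have h2 : ∫⁻ w in goodW T, ENNReal.ofReal |(fderiv ℝ T.R w).det| *
        ENNReal.ofReal (dens (T.R w)) *
          ENNReal.ofReal (Phi c0 (nu.real A) (nu.real B) / nu.real A) =
        ENNReal.ofReal (Phi c0 (nu.real A) (nu.real B)) := by
      rw [lintegral_mul_const' _ _ ENNReal.ofReal_ne_top, c04_mass T,
        ← ENNReal.ofReal_toReal (measure_ne_top nu A), ← ENNReal.ofReal_mul ENNReal.toReal_nonneg]
      congr 1
      change nu.real A * (Phi c0 (nu.real A) (nu.real B) / nu.real A) = _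
      field_simp
    rw [← h2]
    refine lintegral_mono_ae ?_
    filter_upwards [c05 hfin T, ae_restrict_mem hWm] with w hw hwW
    have h3 := (c06 T hq hc0 hc hwW.1 hwW.2).1
    set aw : ℝ := |(fderiv ℝ T.R w).det| * dens (T.R w) with haw
    set bw : ℝ := |(fderiv ℝ (eta T.U T.R) w).det| * dens (eta T.U T.R w) with hbw
    have haw0 : 0 ≤ aw := mul_nonneg (abs_nonneg _) (dens_pos _).le
    have hbw0 : 0 ≤ bw := mul_nonneg (abs_nonneg _) (dens_pos _).le
    have h4 : aw * nu.real B = bw * nu.real A := by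
      have h5 := congrArg ENNReal.toReal hw
      simp only [ENNReal.toReal_mul, ENNReal.toReal_ofReal (abs_nonneg _),
        ENNReal.toReal_ofReal (dens_pos _).le] at h5
      exact h5
    have h6 : Phi c0 aw bw = aw * (Phi c0 (nu.real A) (nu.real B) / nu.real A) := by
      have h7 := j06_hom (c := c0) (a := nu.real A) (b := nu.real B) (t := aw / nu.real A)
        measureReal_nonneg measureReal_nonneg (div_nonneg haw0 ha.le)
      have h8 : aw / nu.real A * nu.real A = aw := by field_simp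
      have h9 : aw / nu.real A * nu.real B = bw := by
        field_simp
        linarith
      rw [h8, h9] at h7
      rw [h7]
      ring
    rw [← ENNReal.ofReal_mul (abs_nonneg _), ← ENNReal.ofReal_mul (abs_nonneg _), ← haw,
      ← ENNReal.ofReal_mul haw0, ← h6]
    exact ENNReal.ofReal_le_ofReal h3
  exact (ENNReal.ofReal_le_iff_le_toReal (measure_ne_top _ _)).1 h1

end Pool.Agent.Lib.H68L
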