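import Pool.Agent.Lib.H68L.Defs

open MeasureTheory Set Matrix Filter Topology

namespace Pool.Agent.Lib.H68L

theorem d01_coord {f : E3 → E3} {f' : E3 →L[ℝ] E3} {w : E3} :
    HasFDerivAt f f' w ↔
      ∀ i, HasFDerivAt (fun x => f x i) ((PiLp.proj 2 (fun _ : Fin 3 => ℝ) i).comp f') w := by
  simp only [← hasFDerivWithinAt_univ]
  exact hasFDerivWithinAt_euclidean

theorem d01_mul {f g : E3 → ℝ} {f' g' : E3 →L[ℝ] ℝ} {w : E3} (hf : HasFDerivAt f f' w)
    (hg : HasFDerivAt g g' w) : HasFDerivAt (fun x => f x * g x) (f w • g' + g w • f') w :=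
  hf.mul hg

theorem d01_div {f g : E3 → ℝ} {f' g' : E3 →L[ℝ] ℝ} {w : E3} (hf : HasFDerivAt f f' w)
    (hg : HasFDerivAt g g' w) (h0 : g w ≠ 0) :
    HasFDerivAt (fun x => (g x)⁻¹ * f x) ((g w)⁻¹ • f' - (f w * ((g w)⁻¹ * (g w)⁻¹)) • g') w := by
  have h1 : HasFDerivAt (fun x => (g x)⁻¹) ((-((g w) ^ 2)⁻¹) • g') w :=
    (hasDerivAt_inv h0).comp_hasFDerivAt w hg
  have h2 := d01_mul h1 hf
  refine h2.congr_fderiv ?_
  ext h
  simp only [_root_.add_apply, _root_.sub_apply,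
    _root_.smul_apply, smul_eq_mul]
  field_simp
  ring

/-- Proof. `op (x w) (y w) = (qq (x w) (y w))⁻¹ • (x w + y w + cro (x w) (y w))`; the function `qq` has
the derivative `h ↦ -(⟪x' h, y⟫ + ⟪x, y' h⟫)`, the function `cro` is bilinear (in coordinates:
`hasFDerivAt_pi`-type lemmas for `EuclideanSpace`, e.g. `hasFDerivAt_euclidean`, or write `cro` as a
continuous bilinear map). With `z = op x y` and `q = qq x y` the derivative is
`q⁻¹ (x' h + y' h + x' h × y + x × y' h) + q⁻¹ (⟪x' h, y⟫ + ⟪x, y' h⟫) z`, which is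
`tm (zxM x y) (x' h) + tm (zyM x y) (y' h)` (`tm_apply`; `x' h × y = -(y × x' h)`; compare the
three coordinates). -/
theorem d01 {x y : E3 → E3} {w : E3} {x' y' : E3 →L[ℝ] E3} (hx : HasFDerivAt x x' w)
    (hy : HasFDerivAt y y' w) (hq : qq (x w) (y w) ≠ 0) :
    HasFDerivAt (fun w => op (x w) (y w))
      ((tm (zxM (x w) (y w))).comp x' + (tm (zyM (x w) (y w))).comp y') w := by
  have hxi := fun i => (d01_coord.1 hx) i
  have hyi := fun i => (d01_coord.1 hy) i
  have hqd := (((d01_mul (hxi 0) (hyi 0)).add (d01_mul (hxi 1) (hyi 1))).add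
      (d01_mul (hxi 2) (hyi 2))).const_sub 1
  have hq1 : ∀ w, qq (x w) (y w) = 1 - (x w 0 * y w 0 + x w 1 * y w 1 + x w 2 * y w 2) :=
    fun w => qq_eq _ _
  have hq' : (1 - (x w 0 * y w 0 + x w 1 * y w 1 + x w 2 * y w 2)) ≠ 0 := by
    rwa [hq1] at hq
  rw [d01_coord]
  intro i
  fin_cases i
  · have h := d01_div (((hxi 0).add (hyi 0)).add
      ((d01_mul (hxi 1) (hyi 2)).sub (d01_mul (hxi 2) (hyi 1)))) hqd hq'
    simp only [Fin.zero_eta, op0, hq1]
    refine h.congr_fderiv ?_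
    ext h
    simp [tm_apply, zxM, zyM, crM, vv, op0, hq1]
    field_simp
    ring
  · have h := d01_div (((hxi 1).add (hyi 1)).add
      ((d01_mul (hxi 2) (hyi 0)).sub (d01_mul (hxi 0) (hyi 2)))) hqd hq'
    simp only [Fin.mk_one, op1, hq1]
    refine h.congr_fderiv ?_
    ext h
    simp [tm_apply, zxM, zyM, crM, vv, op1, hq1]
    field_simp
    ring
  · have h := d01_div (((hxi 2).add (hyi 2)).add
      ((d01_mul (hxi 0) (hyi 1)).sub (d01_mul (hxi 1) (hyi 0)))) hqd hq'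
    simp only [Fin.reduceFinMk, op2, hq1]
    refine h.congr_fderiv ?_
    ext h
    simp [tm_apply, zxM, zyM, crM, vv, op2, hq1]
    field_simp
    ring

end Pool.Agent.Lib.H68L
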