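import Mathlib

/-!
# Product sets of rotations inside balls: definitions

The rotation by the angle `θ` about the unit vector `u` has the coordinate `ξ = tan (θ/2) u` in
`E3 = ℝ³` (it is the conjugation by the quaternion `1 + ξ`). The product of the rotations with
the coordinates `ξ`, `η` has the coordinate `op ξ η`, and the Haar measure has the density `dens`
in this coordinate.
-/

open MeasureTheory Set Matrix

namespace Pool.Agent.Lib.H68L

/-- The Euclidean space of dimension three. -/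
abbrev E3 := EuclideanSpace ℝ (Fin 3)

/-- The vector product. -/
noncomputable def cro (x y : E3) : E3 :=
  !₂[x 1 * y 2 - x 2 * y 1, x 2 * y 0 - x 0 * y 2, x 0 * y 1 - x 1 * y 0]

/-- The quantity `1 - x · y`, the real part of `(1 + x) (1 + y)`. -/
noncomputable def qq (x y : E3) : ℝ := 1 - inner ℝ x y

/-- The product in the coordinate. -/
noncomputable def op (x y : E3) : E3 := (qq x y)⁻¹ • (x + y + cro x y)

/-- The squared norm of the quaternion `1 + x`. -/
noncomputable def nn (x : E3) : ℝ := 1 + ‖x‖ ^ 2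

/-- The density of the Haar measure in the coordinate. -/
noncomputable def dens (x : E3) : ℝ := ((nn x) ^ 2)⁻¹

/-- The Haar measure in the coordinate (not normalised). -/
noncomputable def nu : Measure E3 := volume.withDensity fun x => ENNReal.ofReal (dens x)

/-- The matrix of the map `y ↦ x × y`. -/
def crM (x : E3) : Matrix (Fin 3) (Fin 3) ℝ :=
  !![0, -x 2, x 1; x 2, 0, -x 0; -x 1, x 0, 0]

/-- The matrix `x yᵀ`. -/
def vv (x y : E3) : Matrix (Fin 3) (Fin 3) ℝ := Matrix.of fun i j => x i * y j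

/-- The left invariant form at `x`. -/
noncomputable def lamM (x : E3) : Matrix (Fin 3) (Fin 3) ℝ := (nn x)⁻¹ • (1 - crM x)

/-- The right invariant form at `y`. -/
noncomputable def rhoM (y : E3) : Matrix (Fin 3) (Fin 3) ℝ := (nn y)⁻¹ • (1 + crM y)

/-- The derivative of `op x y` in `x`. -/
noncomputable def zxM (x y : E3) : Matrix (Fin 3) (Fin 3) ℝ :=
  (qq x y)⁻¹ • (1 - crM y + vv (op x y) y)

/-- The derivative of `op x y` in `y`. -/
noncomputable def zyM (x y : E3) : Matrix (Fin 3) (Fin 3) ℝ :=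
  (qq x y)⁻¹ • (1 + crM x + vv (op x y) x)

/-- The linear map of a matrix. -/
noncomputable def tm (M : Matrix (Fin 3) (Fin 3) ℝ) : E3 →L[ℝ] E3 :=
  Matrix.toEuclideanCLM (𝕜 := ℝ) (n := Fin 3) M

/-- The matrix of a linear map. -/
noncomputable def mt (L : E3 →L[ℝ] E3) : Matrix (Fin 3) (Fin 3) ℝ :=
  (Matrix.toEuclideanCLM (𝕜 := ℝ) (n := Fin 3)).symm L

/-- The mixture of the Brunn-Minkowski functions of dimension three and two. -/
noncomputable def Phi (c a b : ℝ) : ℝ :=
  c * (a ^ (1 / 3 : ℝ) + b ^ (1 / 3 : ℝ)) ^ 3 + (1 - c) * (√a + √b) ^ 2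

/-- The transform of `v` for the cost `K`. -/
noncomputable def ctr {X Y : Type*} (K : X → Y → ℝ) (v : Y → ℝ) (x : X) : ℝ :=
  ⨅ y, (K x y - v y)

/-- The concave potential `x ↦ inf {(1 - x · y) b y : y ∈ B}`. -/
noncomputable def pot (B : Set E3) (b : E3 → ℝ) (x : E3) : ℝ := ⨅ y : B, qq x y * b y

/-- The map defined by a potential. -/
noncomputable def Fm (U : E3 → ℝ) (x : E3) : E3 :=
  -((U x - inner ℝ x (gradient U x))⁻¹ • gradient U x)

/-- The denominator of `eta`. -/
noncomputable def dd (U : E3 → ℝ) (R : E3 → E3) (w : E3) : ℝ :=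
  U (R w) - inner ℝ (R w) (R w - w)

/-- The optimal map in the coordinate `w`. -/
noncomputable def eta (U : E3 → ℝ) (R : E3 → E3) (w : E3) : E3 := -((dd U R w)⁻¹ • (R w - w))

/-- The product of a point and its image in the coordinate `w`. -/
noncomputable def zeta (U : E3 → ℝ) (R : E3 → E3) (w : E3) : E3 := op (R w) (eta U R w)

/-- The second factor of the derivative. -/
noncomputable def hM (D : ℝ) (x y : E3) (S : Matrix (Fin 3) (Fin 3) ℝ) :
    Matrix (Fin 3) (Fin 3) ℝ := D⁻¹ • ((1 - vv y x) * (1 - S))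

/-- The matrix `x xᵀ + [x] + 1`, the inverse of `lamM x`. -/
def laM (x : E3) : Matrix (Fin 3) (Fin 3) ℝ := 1 + crM x + vv x x

/-- The vector part of `(1 + y) (1 + x)`, divided by the real part. -/
noncomputable def vop (x y : E3) : E3 := (qq x y)⁻¹ • (x + y + cro y x)

theorem inner_eq (x y : E3) : inner ℝ x y = x 0 * y 0 + x 1 * y 1 + x 2 * y 2 := by
  simp [PiLp.inner_apply, Fin.sum_univ_three, mul_comm]

theorem norm_sq_eq (x : E3) : ‖x‖ ^ 2 = x 0 ^ 2 + x 1 ^ 2 + x 2 ^ 2 := by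
  rw [EuclideanSpace.norm_sq_eq, Fin.sum_univ_three]
  simp [sq_abs]

theorem qq_eq (x y : E3) : qq x y = 1 - (x 0 * y 0 + x 1 * y 1 + x 2 * y 2) := by
  rw [qq, inner_eq]

theorem nn_eq (x : E3) : nn x = 1 + (x 0 ^ 2 + x 1 ^ 2 + x 2 ^ 2) := by
  rw [nn, norm_sq_eq]

theorem cro0 (x y : E3) : cro x y 0 = x 1 * y 2 - x 2 * y 1 := by simp [cro]
theorem cro1 (x y : E3) : cro x y 1 = x 2 * y 0 - x 0 * y 2 := by simp [cro]
theorem cro2 (x y : E3) : cro x y 2 = x 0 * y 1 - x 1 * y 0 := by simp [cro]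

theorem op0 (x y : E3) : op x y 0 = (qq x y)⁻¹ * (x 0 + y 0 + (x 1 * y 2 - x 2 * y 1)) := by
  simp [op, cro]; ring
theorem op1 (x y : E3) : op x y 1 = (qq x y)⁻¹ * (x 1 + y 1 + (x 2 * y 0 - x 0 * y 2)) := by
  simp [op, cro]; ring
theorem op2 (x y : E3) : op x y 2 = (qq x y)⁻¹ * (x 2 + y 2 + (x 0 * y 1 - x 1 * y 0)) := by
  simp [op, cro]; ring

theorem vop0 (x y : E3) : vop x y 0 = (qq x y)⁻¹ * (x 0 + y 0 + (y 1 * x 2 - y 2 * x 1)) := by
  simp [vop, cro]; ring
theorem vop1 (x y : E3) : vop x y 1 = (qq x y)⁻¹ * (x 1 + y 1 + (y 2 * x 0 - y 0 * x 2)) := by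
  simp [vop, cro]; ring
theorem vop2 (x y : E3) : vop x y 2 = (qq x y)⁻¹ * (x 2 + y 2 + (y 0 * x 1 - y 1 * x 0)) := by
  simp [vop, cro]; ring

theorem nn_pos (x : E3) : 0 < nn x := by unfold nn; positivity

theorem dens_pos (x : E3) : 0 < dens x := by
  have := nn_pos x
  unfold dens
  positivity

theorem continuous_nn : Continuous nn := by
  unfold nn
  fun_prop

theorem continuous_dens : Continuous dens := by
  unfold dens
  exact (continuous_nn.pow 2).inv₀ fun x => (pow_pos (nn_pos x) 2).ne'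

theorem continuous_qq : Continuous fun p : E3 × E3 => qq p.1 p.2 := by
  unfold qq
  fun_prop

theorem nu_ac : nu ≪ (volume : Measure E3) := withDensity_absolutelyContinuous _ _

theorem tm_apply (M : Matrix (Fin 3) (Fin 3) ℝ) (x : E3) (i : Fin 3) :
    tm M x i = M i 0 * x 0 + M i 1 * x 1 + M i 2 * x 2 := by
  have h : tm M x = WithLp.toLp 2 (M *ᵥ (WithLp.ofLp x)) := rfl
  rw [h]
  simp [Matrix.mulVec, dotProduct, Fin.sum_univ_three]

theorem tm_mt (L : E3 →L[ℝ] E3) : tm (mt L) = L := by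
  simp [tm, mt]

theorem mt_tm (M : Matrix (Fin 3) (Fin 3) ℝ) : mt (tm M) = M := by
  simp [tm, mt]

theorem tm_mul (M N : Matrix (Fin 3) (Fin 3) ℝ) : tm (M * N) = (tm M).comp (tm N) := by
  simp only [tm, map_mul]
  rfl

theorem tm_add (M N : Matrix (Fin 3) (Fin 3) ℝ) : tm (M + N) = tm M + tm N := by
  simp [tm]

theorem tm_sub (M N : Matrix (Fin 3) (Fin 3) ℝ) : tm (M - N) = tm M - tm N := by
  simp [tm]

theorem tm_smul (c : ℝ) (M : Matrix (Fin 3) (Fin 3) ℝ) : tm (c • M) = c • tm M := by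
  simp [tm]

theorem tm_one : tm 1 = ContinuousLinearMap.id ℝ E3 := by
  simp only [tm, map_one]
  rfl

end Pool.Agent.Lib.H68L
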