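import Pool.Agent.Lib.H68L.Defs

open MeasureTheory Set Matrix Filter Topology

namespace Pool.Agent.Lib.H68L


/-- Proof. Entries: `ext i j; fin_cases i <;> fin_cases j`, `simp` with `Matrix.mul_apply`,
`Fin.sum_univ_three`, `crM`, `vv`, `laM`, `nn_eq`; `ring`. -/
theorem j01_a (x : E3) : (1 - crM x) * laM x = nn x • (1 : Matrix (Fin 3) (Fin 3) ℝ) := by
  rw [nn_eq]
  ext i j
  fin_cases i <;> fin_cases j <;>
    simp [Matrix.mul_apply, Fin.sum_univ_three, crM, vv, laM, Matrix.one_apply] <;> ring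

/-- Proof. As `j01_a`. -/
theorem j01_a' (x : E3) : laM x * (1 - crM x) = nn x • (1 : Matrix (Fin 3) (Fin 3) ℝ) := by
  rw [nn_eq]
  ext i j
  fin_cases i <;> fin_cases j <;>
    simp [Matrix.mul_apply, Fin.sum_univ_three, crM, vv, laM, Matrix.one_apply] <;> ring

/-- Proof. `j01_a'` and `nn x ≠ 0`. -/
theorem j01_b (x : E3) : laM x * lamM x = 1 := by
  rw [lamM, Matrix.mul_smul, j01_a', smul_smul, inv_mul_cancel₀ (nn_pos x).ne', one_smul]

/-- Proof. `Matrix.det_fin_three`, `simp`, `ring`. -/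
theorem j01_c (x : E3) : (1 - crM x).det = nn x := by
  rw [nn_eq, Matrix.det_fin_three]
  simp [crM, Matrix.one_apply]
  ring

/-- Proof. As `j01_c`. -/
theorem j01_c' (x : E3) : (1 + crM x).det = nn x := by
  rw [nn_eq, Matrix.det_fin_three]
  simp [crM, Matrix.one_apply]
  ring

/-- Proof. `Matrix.det_smul`, `j01_c`: `(nn x)⁻¹ ^ 3 * nn x = ((nn x) ^ 2)⁻¹`. -/
theorem j01_d (x : E3) : (lamM x).det = dens x := by
  have h := (nn_pos x).ne'
  rw [lamM, Matrix.det_smul, j01_c, dens]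
  simp only [Fintype.card_fin]
  field_simp

/-- Proof. As `j01_d`. -/
theorem j01_d' (x : E3) : (rhoM x).det = dens x := by
  have h := (nn_pos x).ne'
  rw [rhoM, Matrix.det_smul, j01_c', dens]
  simp only [Fintype.card_fin]
  field_simp

/-- Proof. Expand; or from `j01_a` by taking determinants. -/
theorem j01_e (x : E3) : (laM x).det = nn x ^ 2 := by
  rw [nn_eq, Matrix.det_fin_three]
  simp [crM, laM, vv, Matrix.one_apply]
  ring

/-- Proof. `Matrix.det_fin_three`, `qq_eq`, `ring`. -/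
theorem j01_f (x y : E3) : (1 - vv y x).det = qq x y := by
  rw [qq_eq, Matrix.det_fin_three]
  simp [vv, Matrix.one_apply]
  ring

/-- Proof. Clear the denominator `qq x y`: `nn_eq`, `op0`, `op1`, `op2`, `field_simp`, then
`qq_eq` and `ring` (the norm of the quaternion product `(1 + x) (1 + y)`). -/
theorem j01_g {x y : E3} (h : qq x y ≠ 0) : nn (op x y) * qq x y ^ 2 = nn x * nn y := by
  rw [nn_eq, nn_eq, nn_eq, op0, op1, op2]
  have e : ∀ A B C : ℝ, (1 + (((qq x y)⁻¹ * A) ^ 2 + ((qq x y)⁻¹ * B) ^ 2 +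
      ((qq x y)⁻¹ * C) ^ 2)) * qq x y ^ 2 = qq x y ^ 2 + A ^ 2 + B ^ 2 + C ^ 2 := by
    intro A B C
    field_simp
    ring
  rw [e, qq_eq]
  ring

/-- Proof. As `j01_g`. -/
theorem j01_g' {x y : E3} (h : qq x y ≠ 0) : nn (vop x y) * qq x y ^ 2 = nn x * nn y := by
  rw [nn_eq, nn_eq, nn_eq, vop0, vop1, vop2]
  have e : ∀ A B C : ℝ, (1 + (((qq x y)⁻¹ * A) ^ 2 + ((qq x y)⁻¹ * B) ^ 2 +
      ((qq x y)⁻¹ * C) ^ 2)) * qq x y ^ 2 = qq x y ^ 2 + A ^ 2 + B ^ 2 + C ^ 2 := by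
    intro A B C
    field_simp
    ring
  rw [e, qq_eq]
  ring

end Pool.Agent.Lib.H68L
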