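import Pool.Agent.Lib.H68L.J01

open MeasureTheory Set Matrix Filter Topology

namespace Pool.Agent.Lib.H68L


/-- Proof. `laM x * lamM x = 1` (`j01_b`). -/
theorem j02_a (x y : E3) : zxM x y * laM x * lamM x = zxM x y := by
  rw [Matrix.mul_assoc, j01_b, Matrix.mul_one]

theorem j02_aux (q Ny : ℝ) (hq : q ≠ 0) (hN : Ny ≠ 0) (M : Matrix (Fin 3) (Fin 3) ℝ)
    (M' N L P : Matrix (Fin 3) (Fin 3) ℝ)
    (h : (q • M') * L * P = Ny • (q • N)) (hM : M = M') :
    (q⁻¹ • M) * L * (Ny⁻¹ • P) = q⁻¹ • N := by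
  subst hM
  have h1 : M * L * P = Ny • N := by
    have h2 : q • (M * L * P) = q • (Ny • N) := by
      rw [← Matrix.smul_mul, ← Matrix.smul_mul, h, smul_comm]
    have h3 := congrArg (fun X => q⁻¹ • X) h2
    simpa only [smul_smul, inv_mul_cancel_left₀ hq, inv_mul_cancel₀ hq, one_smul] using h3
  rw [Matrix.smul_mul, Matrix.smul_mul, Matrix.mul_smul, h1, smul_smul Ny⁻¹ Ny,
    inv_mul_cancel₀ hN, one_smul]

/-- Proof. Entry by entry: multiply by `qq x y ^ 2 * nn y` and expand (`op0`, `op1`, `op2`,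
`qq_eq`, `nn_eq`, `field_simp`, `ring`). The identity is
`q (1 - [y] + z yᵀ) (1 + [x] + x xᵀ) (1 + [y]) = q (1 + |y|²) (1 + [x] + z xᵀ)` with
`q z = x + y + x × y`, `q = 1 - x · y` (checked with exact arithmetic at random points). -/
theorem j02_b {x y : E3} (h : qq x y ≠ 0) : zxM x y * laM x * rhoM y = zyM x y := by
  have z0 : qq x y * op x y 0 = x 0 + y 0 + (x 1 * y 2 - x 2 * y 1) := by
    rw [op0, mul_inv_cancel_left₀ h]
  have z1 : qq x y * op x y 1 = x 1 + y 1 + (x 2 * y 0 - x 0 * y 2) := by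
    rw [op1, mul_inv_cancel_left₀ h]
  have z2 : qq x y * op x y 2 = x 2 + y 2 + (x 0 * y 1 - x 1 * y 0) := by
    rw [op2, mul_inv_cancel_left₀ h]
  have hq := qq_eq x y
  have e1 : qq x y • (1 - crM y + vv (op x y) y) = qq x y • (1 - crM y) +
      vv (x + y + cro x y) y := by
    ext i j
    fin_cases i <;> fin_cases j <;>
      simp [vv, crM, cro0, cro1, cro2, Matrix.one_apply]
    · linear_combination y 0 * z0
    · linear_combination y 1 * z0
    · linear_combination y 2 * z0
    · linear_combination y 0 * z1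
    · linear_combination y 1 * z1
    · linear_combination y 2 * z1
    · linear_combination y 0 * z2
    · linear_combination y 1 * z2
    · linear_combination y 2 * z2
  have e2 : qq x y • (1 + crM x + vv (op x y) x) = qq x y • (1 + crM x) +
      vv (x + y + cro x y) x := by
    ext i j
    fin_cases i <;> fin_cases j <;>
      simp [vv, crM, cro0, cro1, cro2, Matrix.one_apply]
    · linear_combination x 0 * z0
    · linear_combination x 1 * z0
    · linear_combination x 2 * z0
    · linear_combination x 0 * z1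
    · linear_combination x 1 * z1
    · linear_combination x 2 * z1
    · linear_combination x 0 * z2
    · linear_combination x 1 * z2
    · linear_combination x 2 * z2
  rw [zxM, rhoM, zyM]
  refine j02_aux (qq x y) (nn y) h (nn_pos y).ne' _ _ _ _ _ ?_ rfl
  rw [e1, e2, hq, nn_eq]
  ext i j
  fin_cases i <;> fin_cases j <;>
    simp [Matrix.mul_apply, Fin.sum_univ_three, vv, crM, laM, cro0, cro1, cro2,
      Matrix.one_apply] <;> ring

/-- Proof. `Matrix.det_fin_three`, clear the denominators, `ring`. Possibly simpler: for a matrix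
`N = 1 - [y] + z yᵀ` one has `det N = (1 + |y|²) + zᵀ adj(1 - [y]) y`-type formula; with
`adj (1 - [y]) = 1 + [y] + y yᵀ` it is `(1 + |y|²) (1 + y · z)`, and
`q (1 + y · z) = q + y · x + |y|² = 1 + |y|²`. So `det (zxM x y) = (1 + |y|²)² / q⁴`, and
`j01_g` gives the claim. -/
theorem j02_c {x y : E3} (h : qq x y ≠ 0) : (zxM x y).det * nn x ^ 2 = nn (op x y) ^ 2 := by
  have z0 : qq x y * op x y 0 = x 0 + y 0 + (x 1 * y 2 - x 2 * y 1) := by
    rw [op0, mul_inv_cancel_left₀ h]
  have z1 : qq x y * op x y 1 = x 1 + y 1 + (x 2 * y 0 - x 0 * y 2) := by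
    rw [op1, mul_inv_cancel_left₀ h]
  have z2 : qq x y * op x y 2 = x 2 + y 2 + (x 0 * y 1 - x 1 * y 0) := by
    rw [op2, mul_inv_cancel_left₀ h]
  have hd : (1 - crM y + vv (op x y) y).det =
      nn y * (1 + (y 0 * op x y 0 + y 1 * op x y 1 + y 2 * op x y 2)) := by
    rw [nn_eq, Matrix.det_fin_three]
    simp [vv, crM, Matrix.one_apply]
    ring
  have h1 : qq x y * (1 + (y 0 * op x y 0 + y 1 * op x y 1 + y 2 * op x y 2)) = nn y := by
    rw [nn_eq]
    linear_combination y 0 * z0 + y 1 * z1 + y 2 * z2 + qq_eq x y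
  have h2 := j01_g h
  have h3 : (zxM x y).det * qq x y ^ 4 = nn y ^ 2 := by
    rw [zxM, Matrix.det_smul, hd]
    simp only [Fintype.card_fin]
    have h4 : (qq x y)⁻¹ ^ 3 * (nn y *
        (1 + (y 0 * op x y 0 + y 1 * op x y 1 + y 2 * op x y 2))) * qq x y ^ 4 =
        nn y * (qq x y * (1 + (y 0 * op x y 0 + y 1 * op x y 1 + y 2 * op x y 2))) := by
      field_simp
    rw [h4, h1]
    ring
  have h5 : qq x y ^ 4 ≠ 0 := pow_ne_zero _ h
  apply mul_right_cancel₀ h5
  calc (zxM x y).det * nn x ^ 2 * qq x y ^ 4 = ((zxM x y).det * qq x y ^ 4) * nn x ^ 2 := by ring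
    _ = (nn x * nn y) ^ 2 := by rw [h3]; ring
    _ = (nn (op x y) * qq x y ^ 2) ^ 2 := by rw [h2]
    _ = nn (op x y) ^ 2 * qq x y ^ 4 := by ring

/-- Proof. Entry by entry as `j02_b`: `(1 + [y]) (1 - y xᵀ) (1 + |x|²) = q (1 + [v]) (1 - [x] + x xᵀ)`
with `q v = x + y + y × x` (`vop0`, `vop1`, `vop2`). -/
theorem j02_d {x y : E3} (h : qq x y ≠ 0) :
    (1 + crM y) * (1 - vv y x) =
      (qq x y / nn x) • ((1 + crM (vop x y)) * (laM x).transpose) := by
  have z0 : qq x y * vop x y 0 = x 0 + y 0 + (y 1 * x 2 - y 2 * x 1) := by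
    rw [vop0, mul_inv_cancel_left₀ h]
  have z1 : qq x y * vop x y 1 = x 1 + y 1 + (y 2 * x 0 - y 0 * x 2) := by
    rw [vop1, mul_inv_cancel_left₀ h]
  have z2 : qq x y * vop x y 2 = x 2 + y 2 + (y 0 * x 1 - y 1 * x 0) := by
    rw [vop2, mul_inv_cancel_left₀ h]
  have hq := qq_eq x y
  have e1 : qq x y • (1 + crM (vop x y)) = qq x y • (1 : Matrix (Fin 3) (Fin 3) ℝ) +
      crM (x + y + cro y x) := by
    ext i j
    fin_cases i <;> fin_cases j <;>
      simp [crM, cro0, cro1, cro2, Matrix.one_apply]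
    · linear_combination (-1 : ℝ) * z2
    · linear_combination z1
    · linear_combination z2
    · linear_combination (-1 : ℝ) * z0
    · linear_combination (-1 : ℝ) * z1
    · linear_combination z0
  have hn := (nn_pos x).ne'
  have e2 : nn x • ((1 + crM y) * (1 - vv y x)) =
      (qq x y • (1 + crM (vop x y))) * (laM x).transpose := by
    rw [e1, hq, nn_eq]
    ext i j
    fin_cases i <;> fin_cases j <;>
      simp [Matrix.mul_apply, Fin.sum_univ_three, vv, crM, laM, cro0, cro1, cro2,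
        Matrix.one_apply] <;> ring
  rw [Matrix.smul_mul] at e2
  have e3 := congrArg (fun X => (nn x)⁻¹ • X) e2
  simp only [smul_smul, inv_mul_cancel₀ hn, one_smul] at e3
  rw [e3, div_eq_inv_mul]

/-- The Jacobian of the product.

Proof. By `j02_a`, `j02_b` the matrix on the left is `(zxM x y * laM x) * (lamM x * S + rhoM y * H)`.
`det (zxM x y) * det (laM x) = nn (op x y) ^ 2` (`j02_c`, `j01_e`), and
`dens (op x y) = (nn (op x y) ^ 2)⁻¹`. -/
theorem j02_e {x y : E3} (h : qq x y ≠ 0) (S H : Matrix (Fin 3) (Fin 3) ℝ) :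
    (zxM x y * S + zyM x y * H).det * dens (op x y) = (lamM x * S + rhoM y * H).det := by
  have e : zxM x y * S + zyM x y * H = (zxM x y * laM x) * (lamM x * S + rhoM y * H) := by
    rw [Matrix.mul_add, ← Matrix.mul_assoc (zxM x y * laM x), ← Matrix.mul_assoc (zxM x y * laM x),
      j02_a, j02_b h]
  rw [e, Matrix.det_mul, Matrix.det_mul, j01_e, j02_c h, dens]
  have := (nn_pos (op x y)).ne'
  field_simp

end Pool.Agent.Lib.H68L
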