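import Pool.Agent.Lib.H68L.Defs

open MeasureTheory Set Matrix Filter Topology

namespace Pool.Agent.Lib.H68L


/-- Proof. `P` is symmetric (`P i j = P j i`), six entries. Expand the determinant of the
`3 × 3` matrix (`Matrix.det_fin_three`); the identity holds modulo `c2 * nn v = 1`:
the coefficient of `c2 ^ 3` is `nn v * det P`, and
`c2 ^ 3 * nn v * det P = c2 ^ 2 * det P` (`linear_combination`). The term `tr ([v] P)` vanishes
for symmetric `P`, and the sum of the principal minors of `(1 + [v]) P` is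
`tr (adj P) + vᵀ adj(P) v`. -/
theorem j03 {P : Matrix (Fin 3) (Fin 3) ℝ} (hP : P.transpose = P) {v : E3} {c2 : ℝ}
    (hc : c2 * nn v = 1) :
    (1 + c2 • ((1 + crM v) * P)).det = 1 + c2 * P.trace +
      c2 ^ 2 * (P.adjugate.trace + (WithLp.ofLp v) ⬝ᵥ (P.adjugate *ᵥ (WithLp.ofLp v))) +
      c2 ^ 2 * P.det := by
  have h10 : P 1 0 = P 0 1 := congrFun (congrFun hP 0) 1
  have h20 : P 2 0 = P 0 2 := congrFun (congrFun hP 0) 2
  have h21 : P 2 1 = P 1 2 := congrFun (congrFun hP 1) 2
  rw [nn_eq] at hc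
  rw [Matrix.adjugate_fin_three P, Matrix.det_fin_three, Matrix.det_fin_three P]
  simp [Matrix.mul_apply, Fin.sum_univ_three, crM, Matrix.one_apply, Matrix.trace,
    Matrix.mulVec, dotProduct, h10, h20, h21]
  generalize P 0 0 = a at *
  generalize P 0 1 = b at *
  generalize P 0 2 = c at *
  generalize P 1 1 = d at *
  generalize P 1 2 = e at *
  generalize P 2 2 = f at *
  linear_combination c2 ^ 2 * (a * d * f - a * e * e - b * b * f + b * e * c + c * b * e -
    c * d * c) * hc

/-- Proof. `Matrix.det_mul`, `Matrix.det_smul` (dimension 3), `det (1 + crM v) = nn v`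
(`Matrix.det_fin_three`, `nn_eq`). -/
theorem j03_b (P : Matrix (Fin 3) (Fin 3) ℝ) (v : E3) (c2 : ℝ) :
    (c2 • ((1 + crM v) * P)).det = c2 ^ 3 * nn v * P.det := by
  have h : (1 + crM v).det = nn v := by
    rw [nn_eq, Matrix.det_fin_three]
    simp [crM, Matrix.one_apply]
    ring
  rw [Matrix.det_smul, Matrix.det_mul, h]
  simp only [Fintype.card_fin]
  ring

end Pool.Agent.Lib.H68L
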