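import Pool.Agent.Lib.H68L.Defs

open MeasureTheory Set Matrix Filter Topology

namespace Pool.Agent.Lib.H68L


/-- Proof. If `n = e₃` take `O = 1`. Otherwise let `u = n - e₃`, `m = u · u > 0` and
`O = 1 - (2 / m) u uᵀ` (Householder). Then `Oᵀ = O`, `O O = 1`, and `m = 2 - 2 n₂ = 2 u · n`
(because `n · n = 1`), so `O n = n - u = e₃`. -/
theorem j04 {n : Fin 3 → ℝ} (hn : n ⬝ᵥ n = 1) :
    ∃ O : Matrix (Fin 3) (Fin 3) ℝ, O * O.transpose = 1 ∧ O.transpose * O = 1 ∧
      O *ᵥ n = Pi.single 2 1 := by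
  have hn' : n 0 * n 0 + n 1 * n 1 + n 2 * n 2 = 1 := by
    simpa [dotProduct, Fin.sum_univ_three] using hn
  by_cases h2 : n 2 = 1
  · have h0 : n 0 = 0 := by
      rw [h2] at hn'
      nlinarith [mul_self_nonneg (n 0), mul_self_nonneg (n 1)]
    have h1 : n 1 = 0 := by
      rw [h2] at hn'
      nlinarith [mul_self_nonneg (n 0), mul_self_nonneg (n 1)]
    refine ⟨1, by simp, by simp, ?_⟩
    rw [Matrix.one_mulVec]
    ext i
    fin_cases i <;> simp [h0, h1, h2]
  · have hd : n 2 - 1 ≠ 0 := sub_ne_zero.2 h2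
    set k : ℝ := (1 - n 2)⁻¹ with hk
    have hk' : k * (1 - n 2) = 1 := by
      rw [hk]
      exact inv_mul_cancel₀ (by intro h; apply hd; linarith)
    let O : Matrix (Fin 3) (Fin 3) ℝ :=
      !![1 - k * n 0 * n 0, - (k * n 0 * n 1), - (k * n 0 * (n 2 - 1));
         - (k * n 0 * n 1), 1 - k * n 1 * n 1, - (k * n 1 * (n 2 - 1));
         - (k * n 0 * (n 2 - 1)), - (k * n 1 * (n 2 - 1)), 1 - k * (n 2 - 1) * (n 2 - 1)]
    have hsym : O.transpose = O := by
      ext i j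
      fin_cases i <;> fin_cases j <;> simp [O]
    have hm : n 0 * n 0 + n 1 * n 1 + (n 2 - 1) * (n 2 - 1) = 2 * (1 - n 2) := by
      linear_combination hn'
    have hsq : O * O = 1 := by
      ext i j
      fin_cases i <;> fin_cases j <;>
        simp [O, Matrix.mul_apply, Fin.sum_univ_three]
      · linear_combination (k ^ 2 * n 0 * n 0) * hm + 2 * k * n 0 * n 0 * hk'
      · linear_combination (k ^ 2 * n 0 * n 1) * hm + 2 * k * n 0 * n 1 * hk'
      · linear_combination (k ^ 2 * n 0 * (n 2 - 1)) * hm + 2 * k * n 0 * (n 2 - 1) * hk'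
      · linear_combination (k ^ 2 * n 0 * n 1) * hm + 2 * k * n 0 * n 1 * hk'
      · linear_combination (k ^ 2 * n 1 * n 1) * hm + 2 * k * n 1 * n 1 * hk'
      · linear_combination (k ^ 2 * n 1 * (n 2 - 1)) * hm + 2 * k * n 1 * (n 2 - 1) * hk'
      · linear_combination (k ^ 2 * n 0 * (n 2 - 1)) * hm + 2 * k * n 0 * (n 2 - 1) * hk'
      · linear_combination (k ^ 2 * n 1 * (n 2 - 1)) * hm + 2 * k * n 1 * (n 2 - 1) * hk'
      · linear_combination (k ^ 2 * (n 2 - 1) * (n 2 - 1)) * hm +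
          2 * k * (n 2 - 1) * (n 2 - 1) * hk'
    refine ⟨O, by rw [hsym, hsq], by rw [hsym, hsq], ?_⟩
    have hu : n 0 * n 0 + n 1 * n 1 + (n 2 - 1) * n 2 = 1 - n 2 := by
      linear_combination hn'
    ext i
    fin_cases i <;> simp [O, Matrix.mulVec, dotProduct, Fin.sum_univ_three]
    · linear_combination (-(k * n 0)) * hu - n 0 * hk'
    · linear_combination (-(k * n 1)) * hu - n 1 * hk'
    · linear_combination (-(k * (n 2 - 1))) * hu - (n 2 - 1) * hk'

end Pool.Agent.Lib.H68L
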