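import Pool.Agent.Lib.H68L.J04

open MeasureTheory Set Matrix Filter Topology

namespace Pool.Agent.Lib.H68L


/-- Proof. Let `P = (a d f; d b g; f g c)`. The adjugate of a positive definite matrix is positive
definite (or: the 2 × 2 leading block is positive definite), so `e = a b - d² > 0`, `a, b > 0`,
`det P > 0`. `det P = c e - (b f² - 2 d f g + a g²)` and `b f² - 2 d f g + a g² ≥ 0`, so
`s := det P / e` satisfies `0 < s ≤ c`. `a + b ≥ 2 √e` since `(a + b)² ≥ 4 a b ≥ 4 e`. This is the
first claim. Second: the other two diagonal cofactors are `A₀ = b c - g²`, `A₁ = a c - f²`,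
and `A₀ A₁ - (off-diagonal cofactor)² = c det P`, so `A₀ A₁ ≥ c det P ≥ s · s e`, `A₀, A₁ ≥ 0`,
`A₀ + A₁ ≥ 2 √(A₀ A₁) ≥ 2 s √e`. -/
theorem j05_a {P : Matrix (Fin 3) (Fin 3) ℝ} (hP : P.PosDef) :
    0 < P.adjugate 2 2 ∧
    P.det / P.adjugate 2 2 + 2 * √(P.adjugate 2 2) ≤ P.trace ∧
    P.adjugate 2 2 + 2 * (P.det / P.adjugate 2 2) * √(P.adjugate 2 2) ≤ P.adjugate.trace := by
  have hdet := hP.det_pos
  have h10 : P 1 0 = P 0 1 := by
    have := congrFun (congrFun hP.1.eq 1) 0
    rw [Matrix.conjTranspose_apply] at this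
    simpa using this.symm
  have h20 : P 2 0 = P 0 2 := by
    have := congrFun (congrFun hP.1.eq 2) 0
    rw [Matrix.conjTranspose_apply] at this
    simpa using this.symm
  have h21 : P 2 1 = P 1 2 := by
    have := congrFun (congrFun hP.1.eq 2) 1
    rw [Matrix.conjTranspose_apply] at this
    simpa using this.symm
  have ha : 0 < P 0 0 := hP.diag_pos
  have hb : 0 < P 1 1 := hP.diag_pos
  have hc : 0 < P 2 2 := hP.diag_pos
  have he : 0 < P 0 0 * P 1 1 - P 0 1 * P 0 1 := by
    have h := (hP.submatrix (e := ![0, 1]) (by decide)).det_pos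
    rw [Matrix.det_fin_two] at h
    simpa [h10] using h
  have hA0 : 0 < P 1 1 * P 2 2 - P 1 2 * P 1 2 := by
    have h := (hP.submatrix (e := ![1, 2]) (by decide)).det_pos
    rw [Matrix.det_fin_two] at h
    simpa [h21] using h
  have hA1 : 0 < P 0 0 * P 2 2 - P 0 2 * P 0 2 := by
    have h := (hP.submatrix (e := ![0, 2]) (by decide)).det_pos
    rw [Matrix.det_fin_two] at h
    simpa [h20] using h
  have e22 : P.adjugate 2 2 = P 0 0 * P 1 1 - P 0 1 * P 0 1 := by
    rw [Matrix.adjugate_fin_three P]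
    simp [h10]
  have etr : P.adjugate.trace = (P 1 1 * P 2 2 - P 1 2 * P 1 2) +
      (P 0 0 * P 2 2 - P 0 2 * P 0 2) + (P 0 0 * P 1 1 - P 0 1 * P 0 1) := by
    rw [Matrix.adjugate_fin_three P, Matrix.trace, Fin.sum_univ_three]
    simp [h10, h20, h21]
  have etr' : P.trace = P 0 0 + P 1 1 + P 2 2 := by
    rw [Matrix.trace, Fin.sum_univ_three]
    simp
  have edet : P.det = P 0 0 * P 1 1 * P 2 2 + 2 * P 0 1 * P 0 2 * P 1 2 -
      P 0 0 * P 1 2 * P 1 2 - P 1 1 * P 0 2 * P 0 2 - P 2 2 * P 0 1 * P 0 1 := by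
    rw [Matrix.det_fin_three, h10, h20, h21]
    ring
  rw [e22, etr, etr', edet]
  rw [edet] at hdet
  generalize P 0 0 = a at *
  generalize P 0 1 = d at *
  generalize P 0 2 = f at *
  generalize P 1 1 = b at *
  generalize P 1 2 = g at *
  generalize P 2 2 = c at *
  set D := a * b * c + 2 * d * f * g - a * g * g - b * f * f - c * d * d with hD
  set e := a * b - d * d with hee
  have hs : D / e ≤ c := by
    rw [div_le_iff₀ he]
    have h1 : 0 ≤ a * (b * f * f - 2 * d * f * g + a * g * g) := by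
      have h2 : a * (b * f * f - 2 * d * f * g + a * g * g) =
          (a * g - d * f) ^ 2 + e * f ^ 2 := by rw [hee]; ring
      rw [h2]
      positivity
    have h3 : 0 ≤ b * f * f - 2 * d * f * g + a * g * g := by
      by_contra h
      push Not at h
      nlinarith [mul_neg_of_pos_of_neg ha h]
    rw [hD, hee]
    linarith
  have hs0 : 0 < D / e := div_pos hdet he
  have hse : D / e * e = D := div_mul_cancel₀ D he.ne'
  set s := D / e with hsdef
  have hsq := Real.sq_sqrt he.le
  have hsq0 := Real.sqrt_nonneg e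
  refine ⟨he, ?_, ?_⟩
  · have h1 : √e ≤ (a + b) / 2 := by
      rw [Real.sqrt_le_left (by positivity)]
      rw [hee]
      nlinarith [sq_nonneg (a - b), sq_nonneg d]
    linarith
  · have h1 : 2 * s * √e ≤ (b * c - g * g) + (a * c - f * f) := by
      rw [← pow_le_pow_iff_left₀ (n := 2) (by positivity) (by positivity) (by norm_num)]
      have h2 : (2 * s * √e) ^ 2 = 4 * s * D := by
        calc (2 * s * √e) ^ 2 = 4 * s * s * (√e) ^ 2 := by ring
          _ = 4 * s * (s * e) := by rw [hsq]; ring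
          _ = 4 * s * D := by rw [hse]
      have h3 : s * D ≤ c * D := mul_le_mul_of_nonneg_right hs hdet.le
      have h4 : c * D = (b * c - g * g) * (a * c - f * f) - (d * c - f * g) ^ 2 := by
        rw [hD]; ring
      rw [h2]
      nlinarith [sq_nonneg (d * c - f * g),
        sq_nonneg ((b * c - g * g) - (a * c - f * f))]
    linarith

/-- Proof. Let `O` be the matrix of `j04`, `P' = O P Oᵀ` (positive definite). Then
`det P' = det P`, `tr P' = tr P` (cyclicity), `adj P' = O (adj P) Oᵀ` (`Matrix.adjugate_mul_distrib`;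
`adj O = (det O) Oᵀ`, `(det O)² = 1`), so `tr (adj P') = tr (adj P)` and
`(adj P') 2 2 = e₃ᵀ O (adj P) Oᵀ e₃ = nᵀ (adj P) n` (`Oᵀ e₃ = n`). Apply `j05_a` to `P'`. -/
theorem j05_b {P : Matrix (Fin 3) (Fin 3) ℝ} (hP : P.PosDef) {n : Fin 3 → ℝ} (hn : n ⬝ᵥ n = 1) :
    0 < n ⬝ᵥ (P.adjugate *ᵥ n) ∧
    P.det / (n ⬝ᵥ (P.adjugate *ᵥ n)) + 2 * √(n ⬝ᵥ (P.adjugate *ᵥ n)) ≤ P.trace ∧
    n ⬝ᵥ (P.adjugate *ᵥ n) + 2 * (P.det / (n ⬝ᵥ (P.adjugate *ᵥ n))) * √(n ⬝ᵥ (P.adjugate *ᵥ n)) ≤
      P.adjugate.trace := by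
  obtain ⟨O, hO1, hO2, hO3⟩ := j04 hn
  have hdO : O.det * O.det = 1 := by
    have h := congrArg Matrix.det hO1
    rwa [Matrix.det_mul, Matrix.det_transpose, Matrix.det_one] at h
  have hadjO : O.adjugate = O.det • O.transpose := by
    calc O.adjugate = O.adjugate * (O * O.transpose) := by rw [hO1, Matrix.mul_one]
      _ = O.adjugate * O * O.transpose := by rw [Matrix.mul_assoc]
      _ = O.det • O.transpose := by rw [Matrix.adjugate_mul, Matrix.smul_mul, Matrix.one_mul]
  have hadjT : O.transpose.adjugate = O.det • O := by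
    rw [← Matrix.adjugate_transpose, hadjO, Matrix.transpose_smul, Matrix.transpose_transpose]
  have hP' : (O * P * O.transpose).PosDef := by
    have hinj : Function.Injective O.vecMul := by
      intro u w h
      have h1 := congrArg (fun z => z ᵥ* O.transpose) h
      simpa [Matrix.vecMul_vecMul, hO1] using h1
    have h := hP.mul_mul_conjTranspose_same hinj
    rwa [Matrix.conjTranspose_eq_transpose_of_trivial] at h
  have hdet : (O * P * O.transpose).det = P.det := by
    rw [Matrix.det_mul, Matrix.det_mul, Matrix.det_transpose]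
    linear_combination P.det * hdO
  have htr : (O * P * O.transpose).trace = P.trace := by
    rw [Matrix.trace_mul_comm, ← Matrix.mul_assoc, hO2, Matrix.one_mul]
  have hadj : (O * P * O.transpose).adjugate = O * P.adjugate * O.transpose := by
    rw [Matrix.adjugate_mul_distrib, Matrix.adjugate_mul_distrib, hadjO, hadjT,
      Matrix.smul_mul, Matrix.mul_smul, Matrix.mul_smul, smul_smul, hdO, one_smul,
      Matrix.mul_assoc]
  have hatr : (O * P * O.transpose).adjugate.trace = P.adjugate.trace := by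
    rw [hadj, Matrix.trace_mul_comm, ← Matrix.mul_assoc, hO2, Matrix.one_mul]
  have hrow : ∀ j, O 2 j = n j := by
    intro j
    have h1 : O.transpose *ᵥ (Pi.single 2 1) = n := by
      rw [← hO3, Matrix.mulVec_mulVec, hO2, Matrix.one_mulVec]
    have h2 := congrFun h1 j
    rw [← h2]
    simp
  have h22 : (O * P * O.transpose).adjugate 2 2 = n ⬝ᵥ (P.adjugate *ᵥ n) := by
    rw [hadj]
    simp only [Matrix.mul_apply, Fin.sum_univ_three, Matrix.transpose_apply, hrow,
      Matrix.mulVec, dotProduct]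
    ring
  have h := j05_a hP'
  rwa [hdet, htr, hatr, h22] at h

end Pool.Agent.Lib.H68L
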