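import Pool.Agent.Lib.H68L.Defs

open MeasureTheory Set Matrix Filter Topology

namespace Pool.Agent.Lib.H68L

theorem j06_cube (x : ℝ) (hx : 0 ≤ x) : (x ^ (1 / 3 : ℝ)) ^ 3 = x := by
  rw [← Real.rpow_natCast, ← Real.rpow_mul hx]
  norm_num

/-- Proof. `Real.mul_rpow`, `Real.sqrt_mul`; `(t ^ (1/3)) ^ 3 = t`, `(√t) ^ 2 = t`. -/
theorem j06_hom {c a b t : ℝ} (ha : 0 ≤ a) (hb : 0 ≤ b) (ht : 0 ≤ t) :
    Phi c (t * a) (t * b) = t * Phi c a b := by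
  unfold Phi
  rw [Real.mul_rpow ht ha, Real.mul_rpow ht hb, Real.sqrt_mul ht, Real.sqrt_mul ht]
  have h1 := j06_cube t ht
  have h2 := Real.sq_sqrt ht
  set u := t ^ (1 / 3 : ℝ)
  set w := √t
  set A := a ^ (1 / 3 : ℝ)
  set B := b ^ (1 / 3 : ℝ)
  linear_combination c * (A + B) ^ 3 * h1 + (1 - c) * (√a + √b) ^ 2 * h2

/-- Proof. With `a = α⁶`, `b = β⁶` (`α = a ^ (1/6)`) the claim is `(α³ + β³)² ≤ (α² + β²)³`:
the difference is `3 α⁴ β² + 3 α² β⁴ - 2 α³ β³ ≥ 0`. -/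
theorem j06_23 {a b : ℝ} (ha : 0 ≤ a) (hb : 0 ≤ b) :
    (√a + √b) ^ 2 ≤ (a ^ (1 / 3 : ℝ) + b ^ (1 / 3 : ℝ)) ^ 3 := by
  have key : ∀ x : ℝ, 0 ≤ x → √x = (x ^ (1 / 6 : ℝ)) ^ 3 ∧
      x ^ (1 / 3 : ℝ) = (x ^ (1 / 6 : ℝ)) ^ 2 := by
    intro x hx
    constructor
    · rw [Real.sqrt_eq_rpow, ← Real.rpow_natCast, ← Real.rpow_mul hx]
      norm_num
    · rw [← Real.rpow_natCast, ← Real.rpow_mul hx]
      norm_num
  rw [(key a ha).1, (key b hb).1, (key a ha).2, (key b hb).2]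
  have h1 : 0 ≤ a ^ (1 / 6 : ℝ) := Real.rpow_nonneg ha _
  have h2 : 0 ≤ b ^ (1 / 6 : ℝ) := Real.rpow_nonneg hb _
  generalize a ^ (1 / 6 : ℝ) = u at *
  generalize b ^ (1 / 6 : ℝ) = w at *
  have h3 : 0 ≤ (u * w) ^ 2 * ((u - w) ^ 2 + 2 * u ^ 2 + 2 * w ^ 2) := by positivity
  nlinarith [h3]

/-- Proof. `Phi c' - Phi c = (c' - c) ((a^(1/3) + b^(1/3))^3 - (√a + √b)^2)`, `j06_23`. -/
theorem j06_mono {c c' a b : ℝ} (h : c ≤ c') (ha : 0 ≤ a) (hb : 0 ≤ b) :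
    Phi c a b ≤ Phi c' a b := by
  unfold Phi
  have h1 := j06_23 ha hb
  nlinarith [mul_nonneg (sub_nonneg.2 h) (sub_nonneg.2 h1)]

/-- Proof. `x ↦ x ^ (1/3)` is continuous (`Real.continuousAt_rpow_const`, exponent positive), `√` is
continuous. -/
theorem j06_cont (c : ℝ) : Continuous fun p : ℝ × ℝ => Phi c p.1 p.2 := by
  have h : Continuous fun x : ℝ => x ^ (1 / 3 : ℝ) :=
    Real.continuous_rpow_const (by norm_num)
  unfold Phi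
  have h1 : Continuous fun p : ℝ × ℝ => p.1 ^ (1 / 3 : ℝ) := h.comp continuous_fst
  have h2 : Continuous fun p : ℝ × ℝ => p.2 ^ (1 / 3 : ℝ) := h.comp continuous_snd
  have h3 : Continuous fun p : ℝ × ℝ => √p.1 := Real.continuous_sqrt.comp continuous_fst
  have h4 : Continuous fun p : ℝ × ℝ => √p.2 := Real.continuous_sqrt.comp continuous_snd
  exact (continuous_const.mul ((h1.add h2).pow 3)).add (continuous_const.mul ((h3.add h4).pow 2))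

/-- Proof. All terms are nonnegative. -/
theorem j06_nonneg {c a b : ℝ} (hc : 0 ≤ c) (hc1 : c ≤ 1) (ha : 0 ≤ a) (hb : 0 ≤ b) :
    0 ≤ Phi c a b := by
  unfold Phi
  have h1 : 0 ≤ a ^ (1 / 3 : ℝ) := Real.rpow_nonneg ha _
  have h2 : 0 ≤ b ^ (1 / 3 : ℝ) := Real.rpow_nonneg hb _
  have h3 : 0 ≤ 1 - c := sub_nonneg.2 hc1
  positivity

/-- Proof. Let `J = p t²`. `(1+p)(1+t²+2ct) = c (1+p)(1+t)² + (1-c) (1+p)(1+t²)`. First term: with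
`p = α³`, `t = β³` (`α = p^(1/3)`, `β = t^(1/3)`), `J^(1/3) = α β²` and
`(1+α³)(1+β³)² ≥ (1+α β²)³` (Hoelder; the difference is
`(α³ + 2β³ - 3αβ²) + (β⁶ + 2 α³β³ - 3 α²β⁴)`, both brackets nonnegative by AM-GM: the first is
`(α-β)²(α+2β)`, the second is `β³` times ... `= β³ (β³ + 2 α³ - 3 α² β) = β³ (α-β)² (2α+β)`).
Second term: `√J = √p t` and `(1+p)(1+t²) ≥ (1+√p t)²` because the difference is `(√p - t)²`. -/
theorem j06_key {c p t : ℝ} (hc : 0 ≤ c) (hc1 : c ≤ 1) (hp : 0 ≤ p) (ht : 0 ≤ t) :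
    Phi c 1 (p * t ^ 2) ≤ (1 + p) * (1 + t ^ 2 + 2 * c * t) := by
  unfold Phi
  have ht2 : 0 ≤ t ^ 2 := by positivity
  have e1 : (p * t ^ 2) ^ (1 / 3 : ℝ) = p ^ (1 / 3 : ℝ) * (t ^ (1 / 3 : ℝ)) ^ 2 := by
    rw [Real.mul_rpow hp ht2]
    congr 1
    rw [← Real.rpow_natCast, ← Real.rpow_natCast, ← Real.rpow_mul ht, ← Real.rpow_mul ht]
    norm_num
  have e2 : √(p * t ^ 2) = √p * t := by
    rw [Real.sqrt_mul hp, Real.sqrt_sq ht]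
  rw [e1, e2, Real.one_rpow, Real.sqrt_one]
  have hp3 := j06_cube p hp
  have ht3 := j06_cube t ht
  have hsp := Real.sq_sqrt hp
  have ha0 : 0 ≤ p ^ (1 / 3 : ℝ) := Real.rpow_nonneg hp _
  have hb0 : 0 ≤ t ^ (1 / 3 : ℝ) := Real.rpow_nonneg ht _
  generalize p ^ (1 / 3 : ℝ) = α at *
  generalize t ^ (1 / 3 : ℝ) = β at *
  have h1 : (1 + α * β ^ 2) ^ 3 ≤ (1 + p) * (1 + t) ^ 2 := by
    rw [← hp3, ← ht3]
    have f1 : 0 ≤ (α - β) ^ 2 * (α + 2 * β) := by positivity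
    have f2 : 0 ≤ β ^ 3 * ((α - β) ^ 2 * (2 * α + β)) := by positivity
    nlinarith [f1, f2]
  have h2 : (1 + √p * t) ^ 2 ≤ (1 + p) * (1 + t ^ 2) := by
    nlinarith [sq_nonneg (√p - t), hsp]
  have h3 : 0 ≤ 1 - c := sub_nonneg.2 hc1
  nlinarith [mul_le_mul_of_nonneg_left h1 hc, mul_le_mul_of_nonneg_left h2 h3]

end Pool.Agent.Lib.H68L
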