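import Pool.Agent.Lib.H68L.J03
import Pool.Agent.Lib.H68L.J05
import Pool.Agent.Lib.H68L.J06

open MeasureTheory Set Matrix Filter Topology

namespace Pool.Agent.Lib.H68L


/-- The determinant inequality.

Proof. Let `c = (√(nn v))⁻¹ ∈ (0, 1]`, `c² nn v = 1`. Choose `n : Fin 3 → ℝ` with `n · n = 1` and
`v = r n`, `r² = nn v - 1 = ‖v‖²` (if `v = 0` take `n = Pi.single 0 1`, `r = 0`; otherwise
`r = ‖v‖`). Let `e = nᵀ adj(P) n > 0`, `s = det P / e` (`j05_b`), `p = c² s`, `t = c √e`. By `j03`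
(with `c2 = c²`) and `vᵀ adj(P) v = r² e`, `c⁴ r² = c² - c⁴`, the determinant is
`1 + c² tr P + c⁴ tr adj P + (c² - c⁴) e + c⁴ det P`
`≥ 1 + c² (s + 2 √e) + c⁴ (e + 2 s √e) + (c² - c⁴) e + c⁴ s e = (1 + p)(1 + t² + 2 c t)`
(`det P = s e`), and `p t² = c⁴ s e = c⁴ det P`. Now `j06_key`. -/
theorem j07 {P : Matrix (Fin 3) (Fin 3) ℝ} (hP : P.PosDef) (v : E3) {c : ℝ} (hc : 0 < c)
    (hcv : c ^ 2 * nn v = 1) :
    Phi c 1 (c ^ 4 * P.det) ≤ (1 + c ^ 2 • ((1 + crM v) * P)).det := by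
  have hsym : P.transpose = P := by
    have h := hP.isHermitian
    ext i j
    have := congrFun (congrFun h i) j
    simpa [Matrix.conjTranspose_apply] using this
  have hnn : 1 ≤ nn v := by unfold nn; nlinarith [sq_nonneg ‖v‖]
  have hc1 : c ≤ 1 := by
    by_contra hlt
    push Not at hlt
    nlinarith
  obtain ⟨n, r, hn, hv, hr⟩ : ∃ (n : Fin 3 → ℝ) (r : ℝ), n ⬝ᵥ n = 1 ∧ WithLp.ofLp v = r • n ∧
      r ^ 2 = nn v - 1 := by
    by_cases h0 : v = 0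
    · refine ⟨Pi.single 0 1, 0, ?_, ?_, ?_⟩
      · simp
      · simp [h0]
      · simp [h0, nn]
    · have hpos : 0 < ‖v‖ := norm_pos_iff.mpr h0
      refine ⟨‖v‖⁻¹ • WithLp.ofLp v, ‖v‖, ?_, ?_, ?_⟩
      · have h1 : (WithLp.ofLp v) ⬝ᵥ (WithLp.ofLp v) = ‖v‖ ^ 2 := by
          rw [norm_sq_eq]
          simp [dotProduct, Fin.sum_univ_three]
          ring
        rw [smul_dotProduct, dotProduct_smul, h1, smul_eq_mul, smul_eq_mul]
        field_simp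
      · rw [smul_smul, mul_inv_cancel₀ hpos.ne', one_smul]
      · unfold nn; ring
  obtain ⟨he, h1, h2⟩ := j05_b hP hn
  have hvv : (WithLp.ofLp v) ⬝ᵥ (P.adjugate *ᵥ (WithLp.ofLp v)) =
      r ^ 2 * (n ⬝ᵥ (P.adjugate *ᵥ n)) := by
    rw [hv, Matrix.mulVec_smul, smul_dotProduct, dotProduct_smul, smul_eq_mul, smul_eq_mul]
    ring
  rw [j03 hsym hcv, hvv, hr]
  set e := n ⬝ᵥ (P.adjugate *ᵥ n) with hedef
  obtain ⟨s, hs⟩ : ∃ s, s = P.det / e := ⟨_, rfl⟩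
  obtain ⟨q, hq⟩ : ∃ q, q = √e := ⟨_, rfl⟩
  rw [← hs, ← hq] at h1 h2
  have hq2 : q ^ 2 = e := by rw [hq]; exact Real.sq_sqrt he.le
  have hq0 : 0 ≤ q := by rw [hq]; exact Real.sqrt_nonneg _
  have hdet : P.det = s * e := by rw [hs]; field_simp
  have hs0 : 0 ≤ s := by rw [hs]; exact div_nonneg hP.det_pos.le he.le
  have hkey := j06_key (c := c) (p := c ^ 2 * s) (t := c * q) hc.le hc1 (by positivity)
    (by positivity)
  have e1 : c ^ 2 * s * (c * q) ^ 2 = c ^ 4 * P.det := by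
    rw [hdet, ← hq2]; ring
  rw [e1] at hkey
  refine hkey.trans ?_
  have hc4 : c ^ 4 * nn v = c ^ 2 := by
    calc c ^ 4 * nn v = c ^ 2 * (c ^ 2 * nn v) := by ring
      _ = c ^ 2 := by rw [hcv, mul_one]
  have e2 : (1 + c ^ 2 * s) * (1 + (c * q) ^ 2 + 2 * c * (c * q)) =
      1 + c ^ 2 * (s + 2 * q) + (c ^ 2) ^ 2 * ((e + 2 * s * q) + (nn v - 1) * e) +
        (c ^ 2) ^ 2 * P.det := by
    rw [hdet, ← hq2]
    linear_combination (- q ^ 2) * hc4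
  rw [e2]
  have hc2 : 0 ≤ c ^ 2 := by positivity
  have hc22 : 0 ≤ (c ^ 2) ^ 2 := by positivity
  have m1 := mul_le_mul_of_nonneg_left h1 hc2
  have m2 := mul_le_mul_of_nonneg_left h2 hc22
  linarith

end Pool.Agent.Lib.H68L
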