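import Pool.Agent.Lib.H68L.J02
import Pool.Agent.Lib.H68L.J03
import Pool.Agent.Lib.H68L.J07

open MeasureTheory Set Matrix Filter Topology

namespace Pool.Agent.Lib.H68L


/-- Proof. `S` and `1 - S` are positive definite. `S` is invertible, `S⁻¹` is symmetric and commutes
with `S`; `S⁻¹ - 1 = S⁻¹ (1 - S)`. For `x ≠ 0` let `y = S⁻¹ x`:
`xᵀ (S⁻¹ - 1) x = yᵀ (S - S²) y`, and `S - S² = S (1 - S) S + (1 - S) S (1 - S)`, a sum of two
positive definite matrices (`S` and `1 - S` are symmetric, commute, and are invertible):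
indeed `S (1-S) S + (1-S) S (1-S) = S (1-S) (S + (1-S)) = S (1-S)`. -/
theorem j08_inv {S : Matrix (Fin 3) (Fin 3) ℝ} (hS : S.PosDef) (hT : (1 - S).PosDef) :
    (S⁻¹ - 1).PosDef := by
  have hSu : IsUnit S := hS.isUnit
  have hTu : IsUnit (1 - S) := hT.isUnit
  have hSd : IsUnit S.det := (Matrix.isUnit_iff_isUnit_det S).mp hSu
  have hSinj : Function.Injective S.mulVec := Matrix.mulVec_injective_iff_isUnit.mpr hSu
  have hTinj : Function.Injective (1 - S).mulVec := Matrix.mulVec_injective_iff_isUnit.mpr hTu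
  have hSiu : IsUnit S⁻¹ := (Matrix.isUnit_nonsing_inv_iff).mpr hSu
  have hSiinj : Function.Injective (S⁻¹).mulVec := Matrix.mulVec_injective_iff_isUnit.mpr hSiu
  have h1 := hT.conjTranspose_mul_mul_same hSinj
  have h2 := hS.conjTranspose_mul_mul_same hTinj
  have h3 := (h1.add h2).conjTranspose_mul_mul_same hSiinj
  have eS : Sᴴ = S := hS.1
  have eT : (1 - S)ᴴ = 1 - S := hT.1
  have eI : (S⁻¹)ᴴ = S⁻¹ := by rw [Matrix.conjTranspose_nonsing_inv, eS]
  rw [eS, eT, eI] at h3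
  have h4 : S * (1 - S) * S + (1 - S) * S * (1 - S) = S * (1 - S) := by noncomm_ring
  rw [h4] at h3
  have h5 : S⁻¹ * (S * (1 - S)) * S⁻¹ = S⁻¹ - 1 := by
    rw [← Matrix.mul_assoc, Matrix.nonsing_inv_mul S hSd, Matrix.one_mul, Matrix.sub_mul,
      Matrix.one_mul, Matrix.mul_nonsing_inv S hSd]
  rwa [h5] at h3

/-- The pointwise inequality in the definite case.

Proof. Let `c = qq x y / √(nn x * nn y)` (so `c² = qq² / (nn x nn y)`), `v = vop x y`, `Λ = laM x`,
`a' = lamM x * S`, `b' = rhoM y * hM D x y S`, `P = (qq x y * D)⁻¹ • (Λᵀ * (S⁻¹ - 1) * Λ)`: positive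
definite (`j08_inv`; `Λ` is invertible since `det Λ = nn x ^ 2`). `c² nn v = 1` (`j01_g'`).
`P * a' = (qq D)⁻¹ • (Λᵀ * (1 - S))` because `Λ * lamM x = 1` (`j01_b`), `(S⁻¹ - 1) S = 1 - S`; and by
`j02_d`, `b' = (nn y)⁻¹ D⁻¹ (qq / nn x) • ((1 + crM v) * Λᵀ * (1 - S))`. So
`b' = (c² • ((1 + crM v) * P)) * a'`. Hence `det (a' + b') = det a' * det (1 + c² (1 + crM v) P)`,
`det b' = det a' * c⁶ nn v det P = det a' * (c⁴ det P)` (`j03_b`), `det a' > 0` (`j01_d`). Now `j07`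
and `j06_hom`. -/
theorem j08 {x y : E3} (hq : 0 < qq x y) {D : ℝ} (hD : 0 < D)
    {S : Matrix (Fin 3) (Fin 3) ℝ} (hS : S.PosDef) (hT : (1 - S).PosDef) :
    Phi (qq x y / √(nn x * nn y)) (lamM x * S).det (rhoM y * hM D x y S).det ≤
      (lamM x * S + rhoM y * hM D x y S).det := by
  have hn1 := nn_pos x
  have hn2 := nn_pos y
  set c := qq x y / √(nn x * nn y) with hc
  set v := vop x y with hv
  set q := qq x y with hqdef
  have hc0 : 0 < c := div_pos hq (Real.sqrt_pos.mpr (mul_pos hn1 hn2))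
  have hc2 : c ^ 2 = q ^ 2 / (nn x * nn y) := by
    rw [hc, div_pow, Real.sq_sqrt (mul_pos hn1 hn2).le]
  have hg : nn v * q ^ 2 = nn x * nn y := j01_g' hq.ne'
  have hcv : c ^ 2 * nn v = 1 := by
    rw [hc2, div_mul_eq_mul_div, mul_comm, hg]
    exact div_self (mul_pos hn1 hn2).ne'
  have hSu : IsUnit S := hS.isUnit
  have hSd : IsUnit S.det := (Matrix.isUnit_iff_isUnit_det S).mp hSu
  have hLdet : (laM x).det = nn x ^ 2 := j01_e x
  have hLu : IsUnit (laM x) := by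
    rw [Matrix.isUnit_iff_isUnit_det, hLdet]
    exact isUnit_iff_ne_zero.mpr (pow_pos hn1 2).ne'
  have hLinj : Function.Injective (laM x).mulVec := Matrix.mulVec_injective_iff_isUnit.mpr hLu
  have hQ := (j08_inv hS hT).conjTranspose_mul_mul_same hLinj
  rw [Matrix.conjTranspose_eq_transpose_of_trivial] at hQ
  have hqD : 0 < (q * D)⁻¹ := inv_pos.mpr (mul_pos hq hD)
  have hP : ((q * D)⁻¹ • ((laM x).transpose * (S⁻¹ - 1) * laM x)).PosDef := hQ.smul hqD
  set P : Matrix (Fin 3) (Fin 3) ℝ := (q * D)⁻¹ • ((laM x).transpose * (S⁻¹ - 1) * laM x) with hPdef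
  have hPa : P * (lamM x * S) = (q * D)⁻¹ • ((laM x).transpose * (1 - S)) := by
    rw [hPdef, Matrix.smul_mul]
    congr 1
    rw [Matrix.mul_assoc _ (laM x), ← Matrix.mul_assoc (laM x), j01_b, Matrix.one_mul,
      Matrix.mul_assoc, Matrix.sub_mul, Matrix.nonsing_inv_mul S hSd, Matrix.one_mul]
  have hb : rhoM y * hM D x y S = (c ^ 2 • ((1 + crM v) * P)) * (lamM x * S) := by
    rw [Matrix.smul_mul, Matrix.mul_assoc, hPa, hM, rhoM, Matrix.smul_mul, Matrix.mul_smul,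
      Matrix.mul_smul, ← Matrix.mul_assoc, j02_d hq.ne', Matrix.smul_mul, Matrix.mul_assoc,
      smul_smul, smul_smul, smul_smul, hc2]
    congr 1
    rw [← hqdef]
    field_simp
  have hab : lamM x * S + rhoM y * hM D x y S =
      (1 + c ^ 2 • ((1 + crM v) * P)) * (lamM x * S) := by
    rw [hb, Matrix.add_mul 1 (c ^ 2 • ((1 + crM v) * P)) (lamM x * S), Matrix.one_mul]
  have hda : 0 < (lamM x * S).det := by
    rw [Matrix.det_mul, j01_d]
    exact mul_pos (dens_pos x) hS.det_pos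
  have hdb : (rhoM y * hM D x y S).det = (lamM x * S).det * (c ^ 4 * P.det) := by
    rw [hb, Matrix.det_mul, j03_b]
    have : (c ^ 2) ^ 3 * nn v = c ^ 4 := by
      calc (c ^ 2) ^ 3 * nn v = c ^ 4 * (c ^ 2 * nn v) := by ring
        _ = c ^ 4 := by rw [hcv, mul_one]
    rw [this]
    ring
  have hdab : (lamM x * S + rhoM y * hM D x y S).det =
      (lamM x * S).det * (1 + c ^ 2 • ((1 + crM v) * P)).det := by
    rw [hab, Matrix.det_mul (1 + c ^ 2 • ((1 + crM v) * P)), mul_comm]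
  have h7 := j07 hP v hc0 hcv
  have h6 : Phi c ((lamM x * S).det * 1) ((lamM x * S).det * (c ^ 4 * P.det)) =
      (lamM x * S).det * Phi c 1 (c ^ 4 * P.det) :=
    j06_hom zero_le_one (mul_nonneg (by positivity) hP.det_pos.le) hda.le
  rw [mul_one] at h6
  rw [hdb, hdab, h6]
  exact mul_le_mul_of_nonneg_left h7 hda.le

end Pool.Agent.Lib.H68L
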