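import Pool.Agent.Lib.H68L.M02

open MeasureTheory Set Matrix Filter Topology

namespace Pool.Agent.Lib.H68L

theorem m03_up {U : E3 → ℝ} {R : E3 → E3}
    (hR : ∀ w ξ, U ξ ≤ U (R w) + inner ℝ (R w - w) (ξ - R w)) (w h : E3) :
    ‖R (w + h) - (w + h)‖ ^ 2 / 2 - U (R (w + h)) - (‖R w - w‖ ^ 2 / 2 - U (R w)) ≤
      inner ℝ (w - R w) h + ‖h‖ ^ 2 / 2 := by
  have h1 := hR (w + h) (R w)
  set r := R w with hr
  set r' := R (w + h) with hr'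
  have h2 : ‖r - (w + h)‖ ^ 2 = ‖r' - (w + h)‖ ^ 2 + 2 * inner ℝ (r' - (w + h)) (r - r') + ‖r - r'‖ ^ 2 := by
    rw [← norm_add_sq_real]
    congr 2
    abel
  have h3 : ‖r - (w + h)‖ ^ 2 = ‖r - w‖ ^ 2 + 2 * inner ℝ (w - r) h + ‖h‖ ^ 2 := by
    have h4 : r - (w + h) = -((w - r) + h) := by abel
    have h5 : ‖r - w‖ = ‖w - r‖ := norm_sub_rev _ _
    rw [h4, norm_neg, norm_add_sq_real, h5]
  have h6 := sq_nonneg ‖r - r'‖
  linarith

/-- The envelope is differentiable.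

Proof. Let `e w = ‖R w - w‖ ^ 2 / 2 - U (R w)`. By `hR`, `e w' ≤ ‖R w - w'‖² / 2 - U (R w)`:
indeed `U (R w) ≤ U (R w') + ⟪R w' - w', R w - R w'⟫` and
`‖R w' - w'‖²/2 + ⟪R w' - w', R w - R w'⟫ ≤ ‖R w - w'‖²/2`. Hence, with `h = w' - w`,
`e w' - e w ≤ ⟪w - R w, h⟫ + ‖h‖²/2`, and with the roles exchanged
`e w' - e w ≥ ⟪w' - R w', h⟫ - ‖h‖²/2 ≥ ⟪w - R w, h⟫ - 5/2 ‖h‖²` (because `R` is 1-Lipschitz,
`‖(w' - R w') - (w - R w)‖ ≤ 2 ‖h‖`). So `|e (w + h) - e w - ⟪w - R w, h⟫| ≤ 3 ‖h‖²`, which is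
`o(‖h‖)` (`hasFDerivAt_iff_isLittleO_nhds_zero`, `Asymptotics.IsBigO.trans_isLittleO`). -/
theorem m03 {U : E3 → ℝ} {R : E3 → E3}
    (hR : ∀ w ξ, U ξ ≤ U (R w) + inner ℝ (R w - w) (ξ - R w)) (w : E3) :
    HasGradientAt (fun w => ‖R w - w‖ ^ 2 / 2 - U (R w)) (w - R w) w := by
  show HasFDerivAt _ _ _
  rw [hasFDerivAt_iff_isLittleO_nhds_zero]
  have hb : ∀ h : E3, ‖(‖R (w + h) - (w + h)‖ ^ 2 / 2 - U (R (w + h))) - (‖R w - w‖ ^ 2 / 2 - U (R w)) -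
      (InnerProductSpace.toDual ℝ E3 (w - R w)) h‖ ≤ 1 * ‖‖h‖ ^ 2‖ := by
    intro h
    rw [InnerProductSpace.toDual_apply_apply, Real.norm_eq_abs, abs_le, one_mul, Real.norm_eq_abs, abs_of_nonneg (sq_nonneg _)]
    have h1 := m03_up hR w h
    have h2 := m03_up hR (w + h) (-h)
    rw [add_neg_cancel_right, norm_neg, inner_neg_right] at h2
    have h3 : inner ℝ (w + h - R (w + h)) h = inner ℝ (w - R w) h + ‖h‖ ^ 2 - inner ℝ (R (w + h) - R w) h := by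
      rw [← real_inner_self_eq_norm_sq, ← inner_add_left, ← inner_sub_left]
      congr 1
      abel
    have h4 : inner ℝ (R (w + h) - R w) h ≤ ‖h‖ ^ 2 := by
      have h5 := (m02_lip hR).dist_le_mul (w + h) w
      rw [dist_eq_norm, dist_eq_norm, NNReal.coe_one, one_mul, add_sub_cancel_left] at h5
      have h6 := real_inner_le_norm (R (w + h) - R w) h
      nlinarith [norm_nonneg h]
    have h7 := sq_nonneg ‖h‖
    constructor
    · linarith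
    · linarith
  have h1 : (fun h : E3 => (‖R (w + h) - (w + h)‖ ^ 2 / 2 - U (R (w + h))) - (‖R w - w‖ ^ 2 / 2 - U (R w)) -
      (InnerProductSpace.toDual ℝ E3 (w - R w)) h) =O[𝓝 0] fun h : E3 => ‖h‖ ^ 2 :=
    Asymptotics.IsBigO.of_bound 1 (Filter.Eventually.of_forall hb)
  refine h1.trans_isLittleO ?_
  exact Asymptotics.isLittleO_norm_pow_id one_lt_two

end Pool.Agent.Lib.H68L
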