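import Pool.Agent.Lib.H68L.M04

open MeasureTheory Set Matrix Filter Topology

namespace Pool.Agent.Lib.H68L


/-- Proof. `U (R w) = ‖R w - w‖ ^ 2 / 2 - e w`, where `e` is the function of `m03`. The derivative
of `‖R w - w‖ ^ 2 / 2` is `h ↦ ⟪R w - w, S h - h⟫`, the one of `e` is `h ↦ ⟪w - R w, h⟫`; the
difference is `h ↦ ⟪R w - w, S h⟫ = ⟪S (R w - w), h⟫` (`m04_symm`). -/
theorem m05 {U : E3 → ℝ} {R : E3 → E3}
    (hR : ∀ w ξ, U ξ ≤ U (R w) + inner ℝ (R w - w) (ξ - R w)) {w : E3} {S : E3 →L[ℝ] E3}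
    (hS : HasFDerivAt R S w) : HasGradientAt (fun w => U (R w)) (S (R w - w)) w := by
  have h1 : HasFDerivAt (fun w => R w - w) (S - ContinuousLinearMap.id ℝ E3) w := hS.sub (hasFDerivAt_id w)
  have h2 := (h1.norm_sq).const_mul (1 / 2 : ℝ)
  have h3 := (m03 hR w).hasFDerivAt
  have h4 := h2.sub h3
  rw [hasGradientAt_iff_hasFDerivAt]
  have h5 : (fun w => U (R w)) = fun w => (1 / 2 : ℝ) * ‖R w - w‖ ^ 2 - (‖R w - w‖ ^ 2 / 2 - U (R w)) := by
    funext v
    ring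
  rw [h5]
  refine h4.congr_fderiv ?_
  ext v
  have h6 := m04_symm hR hS (R w - w) v
  have h7 : ((1 / 2 : ℝ) • (2 • (innerSL ℝ (R w - w)).comp (S - ContinuousLinearMap.id ℝ E3)) -
      (InnerProductSpace.toDual ℝ E3) (w - R w)) v =
      (1 / 2 : ℝ) * (2 * inner ℝ (R w - w) (S v - v)) - inner ℝ (w - R w) v := by
    simp [two_smul, two_mul, inner_sub_left, inner_sub_right]
    ring
  rw [h7, InnerProductSpace.toDual_apply_apply, h6, inner_sub_right, inner_sub_left (w) (R w) v,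
    inner_sub_left (R w) w v, inner_sub_left (R w) w (S v)]
  ring

end Pool.Agent.Lib.H68L
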