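import Pool.Agent.Lib.H68L.Z02

open MeasureTheory Set Matrix Filter Topology
open Pool.Agent.Lib.H68S (SO3)
open scoped Pointwise

namespace Pool.Agent.Lib.H68L


/-- The ball of radius `r` (rotation angle) about `g`. -/
def bal (g : SO3) (r : ℝ) : Set SO3 := {x | 1 + 2 * Real.cos r < (g⁻¹ * x).1.trace}

theorem n01_cont (g : SO3) : Continuous fun x : SO3 => (g⁻¹ * x).1.trace := by
  have h1 : Continuous fun x : SO3 => (g⁻¹ * x).1 :=
    continuous_subtype_val.comp (continuous_const.mul continuous_id)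
  exact h1.matrix_trace

/-- Proof. The trace is continuous. -/
theorem n01_open (g : SO3) (r : ℝ) : IsOpen (bal g r) :=
  isOpen_lt continuous_const (n01_cont g)

/-- Proof. Unfold; `1⁻¹ * z = z`. -/
theorem n01_mem {g x : SO3} {r : ℝ} : x ∈ bal g r ↔ g⁻¹ * x ∈ bal 1 r := by
  simp only [bal, mem_setOf_eq, inv_one, one_mul]

/-- Proof. The trace of `h * x * h⁻¹` is the trace of `x` (`Matrix.trace_mul_comm`). -/
theorem n01_conj {x : SO3} {r : ℝ} (hx : x ∈ bal 1 r) (h : SO3) : h * x * h⁻¹ ∈ bal 1 r := by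
  simp only [bal, mem_setOf_eq, inv_one, one_mul] at hx ⊢
  have e : (h * x * h⁻¹).1.trace = x.1.trace := by
    have e1 : (h * x * h⁻¹).1 = (h.1 * x.1) * h⁻¹.1 := rfl
    have e2 : h⁻¹.1 * h.1 = 1 := congrArg Subtype.val (inv_mul_cancel h)
    rw [e1, Matrix.trace_mul_comm, ← Matrix.mul_assoc, e2, one_mul]
  rw [e]
  exact hx

/-- Proof. `x⁻¹` is the transpose of `x`, with the same trace; `(g⁻¹ * x)⁻¹ = x⁻¹ * g`. -/
theorem n01_symm {g x : SO3} {r : ℝ} : x ∈ bal g r ↔ g ∈ bal x r := by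
  have e : (g⁻¹ * x).1.trace = (x⁻¹ * g).1.trace := by
    have e1 : x⁻¹ * g = (g⁻¹ * x)⁻¹ := by group
    rw [e1, Pool.Agent.Lib.H68S.b01_inv, Matrix.trace_transpose]
  simp only [bal, mem_setOf_eq, e]

theorem n01_tr1 : ((1 : SO3).1).trace = 3 := by
  have : ((1 : SO3).1) = (1 : Matrix (Fin 3) (Fin 3) ℝ) := rfl
  rw [this, Matrix.trace_one]
  simp

/-- Proof. `r ≥ 0` and `cos 0 = 1`: the trace of `1` is `3 > 1 + 2 cos r` if `0 < r ≤ π`
(`Real.cos_lt_one`-type lemma, `Real.cos_lt_cos_of_nonneg_of_le_pi`). -/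
theorem n01_self {g : SO3} {r : ℝ} (h0 : 0 < r) (h1 : r ≤ Real.pi) : g ∈ bal g r := by
  have h2 : Real.cos r < Real.cos 0 := Real.cos_lt_cos_of_nonneg_of_le_pi le_rfl h1 h0
  rw [Real.cos_zero] at h2
  simp only [bal, mem_setOf_eq, inv_mul_cancel, n01_tr1]
  linarith

/-- Proof. `cos` is decreasing on `[0, π]`. -/
theorem n01_mono {g : SO3} {r s : ℝ} (h0 : 0 ≤ r) (h : r ≤ s) (h1 : s ≤ Real.pi) :
    bal g r ⊆ bal g s := by
  intro x hx
  simp only [bal, mem_setOf_eq] at hx ⊢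
  have := Real.cos_le_cos_of_nonneg_of_le_pi h0 h1 h
  linarith

theorem n01_surj {x : SO3} {r : ℝ} (h0 : 0 < r) (h1 : r < Real.pi) (hx : x ∈ bal 1 r) :
    ∃ ξ : E3, rot ξ = x ∧ ‖ξ‖ < Real.tan (r / 2) := by
  simp only [bal, mem_setOf_eq, inv_one, one_mul] at hx
  have h2 : Real.cos Real.pi < Real.cos r := Real.cos_lt_cos_of_nonneg_of_le_pi h0.le le_rfl h1
  rw [Real.cos_pi] at h2
  obtain ⟨ξ, hξ⟩ := rot_surj x (by linarith)
  refine ⟨ξ, hξ, q07_tan h0 h1 ?_⟩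
  rw [hξ]
  exact hx

/-- The triangle inequality.

Proof. `x = rot ξ`, `y = rot η` (`rot_surj`: the traces are `> -1` since `r, s < π`). By `q07_tan`,
`‖ξ‖ < tan (r/2)`, `‖η‖ < tan (s/2)`. Choose `r' < r`, `r' > 0`, with `‖ξ‖ < tan (r'/2)`
(continuity, or `r' ∈ (2 arctan ‖ξ‖, r)`). By `q07_cos` for `r'`, `s`:
`qq ξ η ≥ cos ((r'+s)/2) √(nn ξ * nn η)`, and `cos ((r'+s)/2) > cos ((r+s)/2) ≥ 0`. So
`qq² / (nn ξ * nn η) > cos² ((r+s)/2)`. By `rot_op`, `rot_trace` and `j01_g` the trace of `x * y` is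
`4 / nn (op ξ η) - 1 = 4 qq² / (nn ξ * nn η) - 1 > 4 cos² ((r+s)/2) - 1 = 1 + 2 cos (r + s)`. -/
theorem n01_mul {x y : SO3} {r s : ℝ} (hr : 0 < r) (hs : 0 < s) (hrs : r + s ≤ Real.pi)
    (hx : x ∈ bal 1 r) (hy : y ∈ bal 1 s) : x * y ∈ bal 1 (r + s) := by
  obtain ⟨ξ, rfl, hξ⟩ := n01_surj hr (by linarith) hx
  obtain ⟨η, rfl, hη⟩ := n01_surj hs (by linarith) hy
  have hr2 : Real.arctan (Real.tan (r / 2)) = r / 2 :=
    Real.arctan_tan (by linarith [Real.pi_pos]) (by linarith)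
  have hα : Real.arctan ‖ξ‖ < r / 2 := by
    rw [← hr2]
    exact Real.arctan_strictMono hξ
  have hα0 : 0 ≤ Real.arctan ‖ξ‖ := Real.arctan_nonneg.2 (norm_nonneg _)
  obtain ⟨r', hr'⟩ : ∃ r', r' = (2 * Real.arctan ‖ξ‖ + r) / 2 := ⟨_, rfl⟩
  have hr'0 : 0 < r' := by rw [hr']; linarith
  have hr'r : r' < r := by rw [hr']; linarith
  have hξ' : ‖ξ‖ < Real.tan (r' / 2) := by
    rw [← Real.arctan_strictMono.lt_iff_lt,
      Real.arctan_tan (by linarith [Real.pi_pos]) (by linarith)]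
    rw [hr']
    linarith
  obtain ⟨hq, hc⟩ := q07_cos hr'0 hs (by linarith) hξ' hη
  have hc1 : Real.cos ((r + s) / 2) < Real.cos ((r' + s) / 2) :=
    Real.cos_lt_cos_of_nonneg_of_le_pi (by linarith) (by linarith [Real.pi_pos]) (by linarith)
  have hc0 : 0 ≤ Real.cos ((r + s) / 2) :=
    Real.cos_nonneg_of_mem_Icc ⟨by linarith [Real.pi_pos], by linarith⟩
  have hP : 0 < nn ξ * nn η := mul_pos (nn_pos ξ) (nn_pos η)
  have hsq : √(nn ξ * nn η) ^ 2 = nn ξ * nn η := Real.sq_sqrt hP.le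
  have hS : 0 < √(nn ξ * nn η) := Real.sqrt_pos.2 hP
  have hlt : Real.cos ((r + s) / 2) ^ 2 * (nn ξ * nn η) < qq ξ η ^ 2 := by
    rw [← hsq, ← mul_pow]
    refine pow_lt_pow_left₀ ?_ (by positivity) two_ne_zero
    exact lt_of_lt_of_le (mul_lt_mul_of_pos_right hc1 hS) hc
  have hg := j01_g hq.ne'
  have hno := nn_pos (op ξ η)
  simp only [bal, mem_setOf_eq, inv_one, one_mul]
  rw [← rot_op hq.ne', rot_trace, lt_div_iff₀ hno]
  have e1 : Real.cos (r + s) = 2 * Real.cos ((r + s) / 2) ^ 2 - 1 := by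
    rw [← Real.cos_two_mul]
    congr 1
    ring
  rw [e1]
  have hq2 : 0 < qq ξ η ^ 2 := by positivity
  have h3 : Real.cos ((r + s) / 2) ^ 2 * nn (op ξ η) < 1 := by
    rw [← hg] at hlt
    have : Real.cos ((r + s) / 2) ^ 2 * nn (op ξ η) * qq ξ η ^ 2 < 1 * qq ξ η ^ 2 := by
      linarith
    exact lt_of_mul_lt_mul_right this hq2.le
  linarith

/-- Proof. `(g * h)⁻¹ * (x * y) = (h⁻¹ * (g⁻¹ * x) * h) * (h⁻¹ * y)`; `n01_conj`, `n01_mul`. -/
theorem n01_mul' {g h x y : SO3} {r s : ℝ} (hr : 0 < r) (hs : 0 < s) (hrs : r + s ≤ Real.pi)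
    (hx : x ∈ bal g r) (hy : y ∈ bal h s) : x * y ∈ bal (g * h) (r + s) := by
  rw [n01_mem] at hx hy ⊢
  have h1 := n01_conj hx h⁻¹
  rw [inv_inv] at h1
  have h2 := n01_mul hr hs hrs h1 hy
  have e : (g * h)⁻¹ * (x * y) = (h⁻¹ * (g⁻¹ * x) * h) * (h⁻¹ * y) := by group
  rw [e]
  exact h2

end Pool.Agent.Lib.H68L
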