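import Pool.Agent.Lib.H68L.N01

open MeasureTheory Set Matrix Filter Topology
open Pool.Agent.Lib.H68S (SO3)
open scoped Pointwise

namespace Pool.Agent.Lib.H68L

variable [MeasurableSpace SO3] [BorelSpace SO3]

theorem n02_ballm (μ : Measure SO3) (hμ : μ.IsHaarMeasure) (g : SO3) (s : ℝ) :
    μ (bal g s) = μ (bal 1 s) := by
  have := hμ
  have h1 : bal g s = (fun x => g⁻¹ * x) ⁻¹' (bal 1 s) := by
    ext x
    exact n01_mem
  rw [h1, measure_preimage_mul]

/-- Proof. Left invariance. -/
theorem n02_ball (μ : Measure SO3) (hμ : μ.IsHaarMeasure) (hp : IsProbabilityMeasure μ) (g : SO3)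
    (s : ℝ) : μ.real (bal g s) = μ.real (bal 1 s) := by
  rw [Measure.real, Measure.real, n02_ballm μ hμ]

/-- Proof. `μ (B ∩ bal h s) = ∫ 1_B(y) 1[y ∈ bal h s] dμ(y)`; exchange the integrals (everything is
measurable: `{(h, y) | y ∈ bal h s}` is open) and use `μ {h | y ∈ bal h s} = μ (bal y s) = μ (bal 1 s)`
(`n01_symm`, `n01_mem`, left invariance `measure_preimage_mul`). -/
theorem n02 (μ : Measure SO3) (hμ : μ.IsHaarMeasure) (hp : IsProbabilityMeasure μ) {B : Set SO3}
    (hB : IsOpen B) (s : ℝ) :
    ∫ h, μ.real (B ∩ bal h s) ∂μ = μ.real B * μ.real (bal 1 s) := by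
  have := hμ
  have := hp
  have hsc : SecondCountableTopology SO3 := by
    have : SecondCountableTopology (Matrix (Fin 3) (Fin 3) ℝ) :=
      inferInstanceAs (SecondCountableTopology (Fin 3 → Fin 3 → ℝ))
    infer_instance
  set S : Set (SO3 × SO3) := {p | p.2 ∈ B ∧ p.2 ∈ bal p.1 s} with hS
  have hc : Continuous fun p : SO3 × SO3 => (p.1⁻¹ * p.2).1.trace := by
    have h1 : Continuous fun p : SO3 × SO3 => (p.1⁻¹ * p.2).1 :=
      continuous_subtype_val.comp (continuous_fst.inv.mul continuous_snd)
    exact h1.matrix_trace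
  have hSo : IsOpen S :=
    (hB.preimage continuous_snd).inter (isOpen_lt continuous_const hc)
  have hSm : MeasurableSet S := hSo.measurableSet
  have e1 := Measure.prod_apply (μ := μ) (ν := μ) hSm
  have e2 := Measure.prod_apply_symm (μ := μ) (ν := μ) hSm
  have f1 : ∀ h : SO3, Prod.mk h ⁻¹' S = B ∩ bal h s := fun h => rfl
  have f2 : ∀ y : SO3, μ ((fun h => (h, y)) ⁻¹' S) = B.indicator (fun _ => μ (bal 1 s)) y := by
    intro y
    by_cases hy : y ∈ B
    · rw [indicator_of_mem hy, ← n02_ballm μ hμ y s]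
      congr 1
      ext h
      simp only [hS, mem_preimage, mem_setOf_eq, hy, true_and]
      exact n01_symm
    · rw [indicator_of_notMem hy]
      have : (fun h => (h, y)) ⁻¹' S = ∅ := by
        ext h
        simp only [hS, mem_preimage, mem_setOf_eq, hy, false_and, mem_empty_iff_false]
      rw [this, measure_empty]
  simp only [f1] at e1
  simp only [f2] at e2
  rw [lintegral_indicator hB.measurableSet, lintegral_const, Measure.restrict_apply_univ] at e2
  have hmeas : Measurable fun h => μ (B ∩ bal h s) := by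
    have := measurable_measure_prodMk_left (ν := μ) hSm
    simpa only [f1] using this
  have h3 : ∫ h, μ.real (B ∩ bal h s) ∂μ = (∫⁻ h, μ (B ∩ bal h s) ∂μ).toReal := by
    unfold Measure.real
    exact integral_toReal hmeas.aemeasurable (ae_of_all _ fun h => measure_lt_top μ _)
  rw [h3, ← e1, e2, ENNReal.toReal_mul, mul_comm]
  rfl

end Pool.Agent.Lib.H68L
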