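import Pool.Agent.Lib.H68L.N02

open MeasureTheory Set Matrix Filter Topology
open Pool.Agent.Lib.H68S (SO3)
open scoped Pointwise

namespace Pool.Agent.Lib.H68L

variable [MeasurableSpace SO3] [BorelSpace SO3]

/-- The set of the proof. -/
def n03E (A B : Set SO3) (s : ℝ) : Set (SO3 × SO3) := {p | p.2 ∈ A * (B ∩ bal p.1 s)}

omit [MeasurableSpace SO3] [BorelSpace SO3] in
theorem n03E_open {A B : Set SO3} (hB : IsOpen B) (s : ℝ) : IsOpen (n03E A B s) := by
  have h : n03E A B s = ⋃ x ∈ A, ({p : SO3 × SO3 | x⁻¹ * p.2 ∈ B} ∩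
      {p : SO3 × SO3 | 1 + 2 * Real.cos s < (p.1⁻¹ * (x⁻¹ * p.2)).1.trace}) := by
    ext p
    simp only [n03E, mem_setOf_eq, Set.mem_mul, mem_iUnion, mem_inter_iff, exists_prop]
    constructor
    · rintro ⟨x, hx, y, ⟨hy, hy'⟩, h⟩
      refine ⟨x, hx, ?_⟩
      rw [← h, inv_mul_cancel_left]
      exact ⟨hy, hy'⟩
    · rintro ⟨x, hx, h1, h2⟩
      exact ⟨x, hx, x⁻¹ * p.2, ⟨h1, h2⟩, mul_inv_cancel_left _ _⟩
  rw [h]
  refine isOpen_biUnion fun x _ => (hB.preimage (by fun_prop)).inter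
    (isOpen_lt continuous_const ?_)
  have h1 : Continuous fun p : SO3 × SO3 => p.1⁻¹ * (x⁻¹ * p.2) := by fun_prop
  exact (continuous_subtype_val.comp h1).matrix_trace

/-- Proof. The set `E = {(h, z) | ∃ x ∈ A, ∃ y ∈ B, h⁻¹ * y ∈ bal 1 s ∧ z = x * y}` is open in
`SO3 × SO3` (for `x ∈ A` the section-wise condition `x⁻¹ * z ∈ B`, `h⁻¹ * x⁻¹ * z ∈ bal 1 s` is open;
union over `x`), and `μ.real (A * (B ∩ bal h s))` is the measure of its section over `h`. By Fubini
the left side is `∫ μ {h | (h, z) ∈ E} dμ(z)`. The inner measure is zero for `z ∉ A * B`, and always at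
most `μ (bal 1 (r + s))`: if `(h, z) ∈ E`, then `z ∈ bal (g * h) (r + s)` (`n01_mul'`), i.e.
`h⁻¹ * (g⁻¹ * z) ∈ bal 1 (r+s)`, i.e. `h ∈ bal (g⁻¹ * z) (r + s)` (`n01_symm`), and `n02_ball`. -/
theorem n03 (μ : Measure SO3) (hμ : μ.IsHaarMeasure) (hp : IsProbabilityMeasure μ) {A B : Set SO3}
    (hA : IsOpen A) (hB : IsOpen B) (g : SO3) {r s : ℝ} (hr : 0 < r) (hs : 0 < s)
    (hrs : r + s ≤ Real.pi) (hAr : A ⊆ bal g r) :
    ∫ h, μ.real (A * (B ∩ bal h s)) ∂μ ≤ μ.real (A * B) * μ.real (bal 1 (r + s)) := by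
  haveI := hμ
  haveI := hp
  have hE : MeasurableSet (n03E A B s) := (n03E_open hB s).measurableSet
  have h1 : ∫ h, μ.real (A * (B ∩ bal h s)) ∂μ = ((μ.prod μ) (n03E A B s)).toReal := by
    rw [Measure.prod_apply hE]
    exact integral_toReal (measurable_measure_prodMk_left hE).aemeasurable
      (Eventually.of_forall fun h => measure_lt_top _ _)
  have hball : ∀ x : SO3, μ (bal x (r + s)) = μ (bal 1 (r + s)) := fun x =>
    (ENNReal.toReal_eq_toReal_iff' (measure_ne_top _ _) (measure_ne_top _ _)).1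
      (n02_ball μ hμ hp x (r + s))
  have hABm : MeasurableSet (A * B) := (hA.mul_right (t := B)).measurableSet
  have h2 : (μ.prod μ) (n03E A B s) ≤ μ (A * B) * μ (bal 1 (r + s)) := by
    rw [Measure.prod_apply_symm hE]
    have h3 : ∀ z, μ ((fun h => (h, z)) ⁻¹' n03E A B s)
        ≤ (A * B).indicator (fun _ => μ (bal 1 (r + s))) z := by
      intro z
      by_cases hz : z ∈ A * B
      · rw [indicator_of_mem hz, ← hball (g⁻¹ * z)]
        refine measure_mono ?_
        rintro h ⟨x, hx, y, hy, hxy⟩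
        have h4 := n01_mul' hr hs hrs (hAr hx) hy.2
        have h5 : x * y = z := hxy
        rw [h5, n01_mem] at h4
        rw [← n01_symm, n01_mem]
        rwa [_root_.mul_inv_rev, mul_assoc] at h4
      · rw [indicator_of_notMem hz]
        have h4 : (fun h => (h, z)) ⁻¹' n03E A B s = ∅ := by
          ext h
          simp only [mem_preimage, mem_empty_iff_false, iff_false]
          rintro ⟨x, hx, y, hy, hxy⟩
          exact hz ⟨x, hx, y, hy.1, hxy⟩
        rw [h4, measure_empty]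
    refine (lintegral_mono h3).trans ?_
    rw [lintegral_indicator hABm, setLIntegral_const, mul_comm]
  rw [h1]
  have h6 := ENNReal.toReal_mono (ENNReal.mul_ne_top (measure_ne_top _ _) (measure_ne_top _ _)) h2
  rwa [ENNReal.toReal_mul] at h6

/-- Proof. The function `h ↦ μ.real (A * (B ∩ bal h s))` is measurable (see `n03`: the measure of the
sections of an open set, `measurable_measure_prodMk_left`) and bounded. -/
theorem n03_int (μ : Measure SO3) (hμ : μ.IsHaarMeasure) (hp : IsProbabilityMeasure μ)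
    {A B : Set SO3} (hA : IsOpen A) (hB : IsOpen B) (s : ℝ) :
    Integrable (fun h => μ.real (A * (B ∩ bal h s))) μ := by
  haveI := hμ
  haveI := hp
  have hE : MeasurableSet (n03E A B s) := (n03E_open hB s).measurableSet
  have h1 : Measurable fun h => μ.real (A * (B ∩ bal h s)) :=
    (measurable_measure_prodMk_left hE).ennreal_toReal
  refine Integrable.of_bound h1.aestronglyMeasurable 1 (Eventually.of_forall fun h => ?_)
  rw [Real.norm_of_nonneg measureReal_nonneg]
  exact measureReal_le_one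

end Pool.Agent.Lib.H68L
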