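import Pool.Agent.Lib.H68L.N03

open MeasureTheory Set Matrix Filter Topology
open Pool.Agent.Lib.H68S (SO3)
open scoped Pointwise

namespace Pool.Agent.Lib.H68L

variable [MeasurableSpace SO3] [BorelSpace SO3]

/-- `Phi c` is nondecreasing in the first argument. -/
theorem n04_mono {c a a' b : ℝ} (hc : 0 ≤ c) (hc1 : c ≤ 1) (ha : 0 ≤ a) (h : a ≤ a') :
    Phi c a b ≤ Phi c a' b := by
  unfold Phi
  have h1 : a ^ (1 / 3 : ℝ) ≤ a' ^ (1 / 3 : ℝ) := Real.rpow_le_rpow ha h (by norm_num)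
  have h2 : √a ≤ √a' := Real.sqrt_le_sqrt h
  have h3 : (0 : ℝ) ≤ √a + √b := add_nonneg (Real.sqrt_nonneg _) (Real.sqrt_nonneg _)
  have h4 : (a ^ (1 / 3 : ℝ) + b ^ (1 / 3 : ℝ)) ^ 3 ≤ (a' ^ (1 / 3 : ℝ) + b ^ (1 / 3 : ℝ)) ^ 3 :=
    (Odd.strictMono_pow (by decide)).monotone (by linarith)
  have h5 : (√a + √b) ^ 2 ≤ (√a' + √b) ^ 2 := pow_le_pow_left₀ h3 (by linarith) 2
  exact add_le_add (mul_le_mul_of_nonneg_left h4 hc)
    (mul_le_mul_of_nonneg_left h5 (sub_nonneg.2 hc1))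

/-- Proof. `Phi c` is nondecreasing in both arguments (`0 ≤ c ≤ 1`), and homogeneous (`j06_hom`):
`Phi c a b = b * Phi c (a / b) 1 ≥ b * Phi c (a / M) 1` for `0 < b ≤ M`; for `b = 0` both sides are
`≥ 0` and the right side is `0`. -/
theorem n04_phi {c a b M : ℝ} (hc : 0 ≤ c) (hc1 : c ≤ 1) (ha : 0 ≤ a) (hb : 0 ≤ b) (hM : 0 < M)
    (hbM : b ≤ M) : b * Phi c (a / M) 1 ≤ Phi c a b := by
  have h1 := j06_hom (c := c) (div_nonneg ha hM.le) zero_le_one hb
  rw [← h1, mul_one]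
  refine n04_mono hc hc1 (mul_nonneg hb (div_nonneg ha hM.le)) ?_
  rw [mul_div_assoc', div_le_iff₀ hM, mul_comm a M]
  exact mul_le_mul_of_nonneg_right hbM ha

/-- The growth inequality with two scales.

Proof. Let `A₁ = A ∩ bal g r` (open, nonempty), `c = cos ((r+s)/2) ∈ [0, 1]`. For every `h`:
`μ (B ∩ bal h s) * Phi c (μ A₁ / M) 1 ≤ μ (A₁ * (B ∩ bal h s))`: if `B ∩ bal h s` is empty the left
side is `0`; otherwise `z02` and `n04_phi`. Integrate over `h` (`n02`, `n03`, `n03_int`, and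
`μ (A₁ * B) ≤ μ (A * B)`). -/
theorem n04 (μ : Measure SO3) (hμ : μ.IsHaarMeasure) (hp : IsProbabilityMeasure μ) {A B : Set SO3}
    (hA : IsOpen A) (hB : IsOpen B) (g : SO3) {r s : ℝ} (hr : 0 < r) (hs : 0 < s)
    (hrs : r + s ≤ Real.pi) (hne : (A ∩ bal g r).Nonempty) {M : ℝ} (hM : 0 < M)
    (hBM : ∀ h, μ.real (B ∩ bal h s) ≤ M) :
    μ.real (bal 1 s) * μ.real B * Phi (Real.cos ((r + s) / 2)) (μ.real (A ∩ bal g r) / M) 1 ≤
      μ.real (bal 1 (r + s)) * μ.real (A * B) := by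
  have := hμ
  have := hp
  have hc : 0 ≤ Real.cos ((r + s) / 2) :=
    Real.cos_nonneg_of_neg_pi_div_two_le_of_le (by linarith) (by linarith)
  have hc1 : Real.cos ((r + s) / 2) ≤ 1 := Real.cos_le_one _
  have hA1 : IsOpen (A ∩ bal g r) := hA.inter (n01_open g r)
  have key : ∀ h : SO3, μ.real (B ∩ bal h s) *
      Phi (Real.cos ((r + s) / 2)) (μ.real (A ∩ bal g r) / M) 1 ≤
        μ.real ((A ∩ bal g r) * (B ∩ bal h s)) := by
    intro h
    rcases (B ∩ bal h s).eq_empty_or_nonempty with he | hn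
    · rw [he]
      simp
    · have h1 := n04_phi hc hc1 (a := μ.real (A ∩ bal g r)) measureReal_nonneg
        (b := μ.real (B ∩ bal h s)) measureReal_nonneg hM (hBM h)
      have h2 := z02 μ hμ hp hA1 (hB.inter (n01_open h s)) hne hn g h hr hs hrs
        (fun x hx => hx.2) (fun y hy => hy.2)
      exact h1.trans h2
  have h3 : ∫ h, μ.real (B ∩ bal h s) *
      Phi (Real.cos ((r + s) / 2)) (μ.real (A ∩ bal g r) / M) 1 ∂μ ≤
        ∫ h, μ.real ((A ∩ bal g r) * (B ∩ bal h s)) ∂μ := by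
    refine integral_mono_of_nonneg (Filter.Eventually.of_forall fun h => ?_)
      (n03_int μ hμ hp hA1 hB s) (Filter.Eventually.of_forall key)
    exact mul_nonneg measureReal_nonneg
      (j06_nonneg hc hc1 (div_nonneg measureReal_nonneg hM.le) zero_le_one)
  rw [integral_mul_const, n02 μ hμ hp hB s] at h3
  have h4 := n03 μ hμ hp hA1 hB g hr hs hrs inter_subset_right
  have h5 : μ.real ((A ∩ bal g r) * B) ≤ μ.real (A * B) :=
    measureReal_mono (Set.mul_subset_mul_right inter_subset_left)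
  have h6 := mul_le_mul_of_nonneg_right h5 (measureReal_nonneg (μ := μ) (s := bal 1 (r + s)))
  nlinarith [h3, h4, h6]

end Pool.Agent.Lib.H68L
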