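import Pool.Agent.Lib.H68L.Q05
import Pool.Agent.Lib.H68S.B05

open MeasureTheory Set Matrix Filter Topology
open Pool.Agent.Lib.H68S (SO3)
open scoped Pointwise

namespace Pool.Agent.Lib.H68L

variable [MeasurableSpace SO3] [BorelSpace SO3]

/-- The group of the rotations which leave the measure invariant. -/
noncomputable def q06_sub : Subgroup SO3 where
  carrier := {g | ∀ X : Set SO3, MeasurableSet X →
    Measure.map rot nu ((fun y => g * y) ⁻¹' X) = Measure.map rot nu X}
  mul_mem' := by
    intro g h hg hh X hX
    have hm : Measurable fun y : SO3 => g * y := (continuous_const.mul continuous_id).measurable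
    have h1 : (fun y => g * h * y) ⁻¹' X = (fun y => h * y) ⁻¹' ((fun y => g * y) ⁻¹' X) := by
      ext y
      simp only [mem_preimage, mul_assoc]
    rw [h1, hh _ (hm hX), hg X hX]
  one_mem' := by
    intro X hX
    have h1 : (fun y => (1 : SO3) * y) ⁻¹' X = X := by
      ext y
      simp only [mem_preimage, one_mul]
    rw [h1]
  inv_mem' := by
    intro g hg X hX
    have hm : Measurable fun y : SO3 => g⁻¹ * y := (continuous_const.mul continuous_id).measurable
    have h1 := hg _ (hm hX)
    have h2 : (fun y => g * y) ⁻¹' ((fun y => g⁻¹ * y) ⁻¹' X) = X := by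
      ext y
      simp only [mem_preimage, inv_mul_cancel_left]
    rw [h2] at h1
    exact h1.symm

/-- Proof. The set of all `g` with the stated property for every measurable `X` is a subgroup of
`SO3` (product: `(g h) y = g (h y)`; inverse: apply the property to `g⁻¹`-translates). It contains
the open set `range rot` (`q05_rot`, `rot_range_open`), which contains `rot 0 = 1` (or is nonempty),
so it is open (`Subgroup.isOpen_of_mem_nhds`), hence closed, and `SO3` is connected
(`H68S.instConnSO3`): it is everything (`IsClopen.eq_univ`; nonempty). -/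
theorem q06_inv (g : SO3) {X : Set SO3} (hX : MeasurableSet X) :
    Measure.map rot nu ((fun y => g * y) ⁻¹' X) = Measure.map rot nu X := by
  have h1 : (q06_sub : Set SO3) ∈ 𝓝 (rot 0) :=
    Filter.mem_of_superset (rot_range_open.mem_nhds ⟨0, rfl⟩) (by
      rintro _ ⟨z, rfl⟩
      exact fun X hX => q05_rot z hX)
  have h2 : IsOpen (q06_sub : Set SO3) := Subgroup.isOpen_of_mem_nhds _ h1
  have h3 : IsClosed (q06_sub : Set SO3) := Subgroup.isClosed_of_isOpen _ h2
  have h4 : (q06_sub : Set SO3) = univ := IsClopen.eq_univ ⟨h3, h2⟩ ⟨1, q06_sub.one_mem⟩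
  have h5 : g ∈ (q06_sub : Set SO3) := by
    rw [h4]
    exact mem_univ g
  exact h5 X hX

/-- Proof. `Measure.map rot nu` is a finite left invariant measure (`q06_inv`), so it is a multiple of
`μ` (`Measure.isMulInvariant_eq_smul_of_compactSpace`, a theorem on Haar measures of compact
groups), with a finite constant, which is positive because `nu` is not zero
(`q03_pos` for `univ`). Then `nu.real (rot ⁻¹' X) = κ * μ.real X`. -/
theorem q06 (μ : Measure SO3) (hμ : μ.IsHaarMeasure) (hp : IsProbabilityMeasure μ) :
    ∃ κ : ℝ, 0 < κ ∧ ∀ X : Set SO3, MeasurableSet X → nu.real (rot ⁻¹' X) = κ * μ.real X := by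
  have hfin := q03_fin
  have hinv : (Measure.map rot nu).IsMulLeftInvariant := by
    refine ⟨fun g => ?_⟩
    have hm : Measurable fun y : SO3 => g * y := (continuous_const.mul continuous_id).measurable
    ext X hX
    rw [Measure.map_apply hm hX]
    exact q06_inv g hX
  have h1 := Measure.isMulInvariant_eq_smul_of_compactSpace (Measure.map rot nu) μ
  set κ := Measure.haarScalarFactor (Measure.map rot nu) μ with hκ
  have h2 : ∀ X : Set SO3, MeasurableSet X → nu.real (rot ⁻¹' X) = κ * μ.real X := by
    intro X hX
    have h3 : nu.real (rot ⁻¹' X) = (Measure.map rot nu).real X := by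
      rw [Measure.real, Measure.real, Measure.map_apply rot_cont.measurable hX]
    rw [h3, h1, measureReal_nnreal_smul_apply]
  refine ⟨κ, ?_, h2⟩
  have h4 := h2 univ MeasurableSet.univ
  rw [preimage_univ, probReal_univ (μ := μ), mul_one] at h4
  rw [← h4]
  exact ENNReal.toReal_pos (q03_pos isOpen_univ univ_nonempty) (measure_ne_top nu _)

end Pool.Agent.Lib.H68L
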