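import Pool.Agent.Lib.H68L.N01
import Pool.Agent.Lib.H68L.Q06

open MeasureTheory Set Matrix Filter Topology
open Pool.Agent.Lib.H68S (SO3)
open scoped Pointwise

namespace Pool.Agent.Lib.H68L

variable [MeasurableSpace SO3] [BorelSpace SO3]

/-- Proof. `⊆` is `q07_tan`; the converse is the same computation: `rot_trace`,
`‖x‖² (1 + cos r) < 1 - cos r`. -/
theorem n05_pre {r : ℝ} (h0 : 0 < r) (h1 : r < Real.pi) :
    rot ⁻¹' (bal 1 r) = {x : E3 | ‖x‖ < Real.tan (r / 2)} := by
  ext x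
  simp only [bal, mem_preimage, mem_setOf_eq, inv_one, one_mul]
  refine ⟨q07_tan h0 h1, fun h => ?_⟩
  have hn := nn_pos x
  have hn' : nn x = 1 + ‖x‖ ^ 2 := rfl
  have hc : 0 < Real.cos (r / 2) :=
    Real.cos_pos_of_mem_Ioo ⟨by linarith [Real.pi_pos], by linarith⟩
  have e1 : Real.cos r = 2 * Real.cos (r / 2) ^ 2 - 1 := by
    rw [← Real.cos_two_mul]
    congr 1
    ring
  have e2 := Real.sin_sq_add_cos_sq (r / 2)
  rw [Real.tan_eq_sin_div_cos, lt_div_iff₀ hc] at h
  have h2 : (‖x‖ * Real.cos (r / 2)) ^ 2 < Real.sin (r / 2) ^ 2 :=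
    pow_lt_pow_left₀ h (mul_nonneg (norm_nonneg _) hc.le) two_ne_zero
  rw [rot_trace, lt_div_iff₀ hn, hn', e1]
  nlinarith

theorem n05_real (S : Set E3) (hS : MeasurableSet S) : nu.real S = ∫ x in S, dens x := by
  rw [Measure.real, nu, withDensity_apply _ hS, integral_eq_lintegral_of_nonneg_ae]
  · exact ae_of_all _ fun x => (dens_pos x).le
  · exact continuous_dens.aestronglyMeasurable

theorem n05_dens_le (x : E3) : dens x ≤ 1 := by
  unfold dens
  refine inv_le_one_of_one_le₀ ?_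
  refine one_le_pow₀ ?_
  unfold nn
  nlinarith [norm_nonneg x]

theorem n05_anti {k : ℝ} (hk : 1 ≤ k) (x : E3) : dens (k • x) ≤ dens x := by
  unfold dens
  refine inv_anti₀ (pow_pos (nn_pos x) 2) ?_
  refine pow_le_pow_left₀ (nn_pos x).le ?_ 2
  unfold nn
  rw [norm_smul, Real.norm_of_nonneg (by linarith)]
  have h1 : ‖x‖ ≤ k * ‖x‖ := by nlinarith [norm_nonneg x]
  have h2 := pow_le_pow_left₀ (norm_nonneg x) h1 2
  linarith

/-- Proof. `nu {‖x‖ < k t} = ∫⁻ 1[‖x‖ < k t] dens x dx`; substitute `x = k x'`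
(`Measure.setLIntegral_comp_smul`-type lemma or `c03_cov` for the map `x ↦ k • x` with the constant
derivative `k • id` of determinant `k ^ 3`), and `dens (k x') ≤ dens x'` for `k ≥ 1`. -/
theorem n05_scale (hfin : IsFiniteMeasure nu) {k t : ℝ} (hk : 1 ≤ k) :
    nu.real {x : E3 | ‖x‖ < k * t} ≤ k ^ 3 * nu.real {x : E3 | ‖x‖ < t} := by
  rcases le_or_gt t 0 with ht | ht
  · have e : {x : E3 | ‖x‖ < k * t} = ∅ := by
      ext x
      simp only [mem_setOf_eq, mem_empty_iff_false, iff_false, not_lt]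
      have : k * t ≤ 0 := by nlinarith
      exact this.trans (norm_nonneg x)
    rw [e, measureReal_empty]
    positivity
  · have hk0 : 0 < k := by linarith
    have e1 : ∀ u : ℝ, {x : E3 | ‖x‖ < u} = Metric.ball 0 u := by
      intro u
      ext x
      simp
    have e2 : Metric.ball (0 : E3) (k * t) = k • Metric.ball (0 : E3) t := by
      rw [smul_ball hk0.ne', smul_zero, Real.norm_of_nonneg hk0.le]
    rw [e1, e1, n05_real _ measurableSet_ball, n05_real _ measurableSet_ball, e2]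
    have h1 := Measure.setIntegral_comp_smul_of_pos (μ := (volume : Measure E3)) dens
      (Metric.ball (0 : E3) t) hk0
    have h2 : ∫ x in k • Metric.ball (0 : E3) t, dens x =
        k ^ 3 * ∫ x in Metric.ball (0 : E3) t, dens (k • x) := by
      rw [h1]
      have : Module.finrank ℝ E3 = 3 := by simp
      rw [this, smul_eq_mul, ← mul_assoc, mul_inv_cancel₀ (by positivity), one_mul]
    rw [h2]
    refine mul_le_mul_of_nonneg_left ?_ (by positivity)
    have hb : volume (Metric.ball (0 : E3) t) < ⊤ := measure_ball_lt_top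
    refine setIntegral_mono_on ?_ ?_ measurableSet_ball fun x _ => n05_anti hk x
    · refine Measure.integrableOn_of_bounded (M := 1) hb.ne ?_ ?_
      · exact (continuous_dens.comp (continuous_const_smul k)).aestronglyMeasurable
      · refine ae_of_all _ fun x => ?_
        rw [Real.norm_of_nonneg (dens_pos _).le]
        exact n05_dens_le _
    · refine Measure.integrableOn_of_bounded (M := 1) hb.ne ?_ ?_
      · exact continuous_dens.aestronglyMeasurable
      · refine ae_of_all _ fun x => ?_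
        rw [Real.norm_of_nonneg (dens_pos _).le]
        exact n05_dens_le _

theorem n05_tan {u : ℝ} (h0 : 0 < u) (h1 : u ≤ 3 / 10) :
    Real.tan (11 / 10 * u) ≤ 1111 / 1000 * Real.tan u := by
  have hpi := Real.pi_gt_three
  have hcu : 0 < Real.cos u := Real.cos_pos_of_mem_Ioo ⟨by linarith, by linarith⟩
  have hc1 : 0 < Real.cos (11 / 10 * u) := Real.cos_pos_of_mem_Ioo ⟨by linarith, by linarith⟩
  have hsu : 0 < Real.sin u := Real.sin_pos_of_pos_of_lt_pi h0 (by linarith)
  have e : 11 / 10 * u = u + u / 10 := by ring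
  rw [Real.tan_eq_sin_div_cos, Real.tan_eq_sin_div_cos, mul_div_assoc', div_le_div_iff₀ hc1 hcu]
  rw [e, Real.sin_add, Real.cos_add]
  have hsv0 : 0 ≤ Real.sin (u / 10) :=
    Real.sin_nonneg_of_nonneg_of_le_pi (by linarith) (by linarith)
  have hsv : Real.sin (u / 10) ≤ u / 10 := Real.sin_le (by linarith)
  have hsu1 : u - u ^ 3 / 6 < Real.sin u := Real.sin_gt_sub_cube h0
  have hsu2 : Real.sin u ≤ u := Real.sin_le h0.le
  have hcu1 : 1 - u ^ 2 / 2 ≤ Real.cos u := Real.one_sub_sq_div_two_le_cos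
  have hcv1 : 1 - (u / 10) ^ 2 / 2 ≤ Real.cos (u / 10) := Real.one_sub_sq_div_two_le_cos
  have hsq := Real.sin_sq_add_cos_sq u
  have hu2 : u ^ 2 ≤ 9 / 100 := by nlinarith
  have a1 : 191 / 200 ≤ Real.cos u := by linarith
  have a2 : 999 / 1000 ≤ Real.cos (u / 10) := by nlinarith
  have a3 : 391 / 400 * u ≤ Real.sin u := by nlinarith
  have a4 : Real.sin u ^ 2 ≤ 9 / 100 := by nlinarith
  have b1 : Real.sin (u / 10) * (1 + 111 / 1000 * Real.sin u ^ 2) ≤ u / 10 * (101 / 100) := by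
    refine mul_le_mul hsv (by linarith) (by positivity) (by linarith)
  have b2 : 391 / 400 * u * (191 / 200) ≤ Real.sin u * Real.cos u :=
    mul_le_mul a3 a1 (by norm_num) hsu.le
  have b3 : 391 / 400 * u * (191 / 200) * (999 / 1000) ≤
      Real.sin u * Real.cos u * Real.cos (u / 10) :=
    mul_le_mul b2 a2 (by norm_num) (by positivity)
  have hc2 : Real.cos u ^ 2 = 1 - Real.sin u ^ 2 := by linarith
  nlinarith [b1, b3, hc2]

/-- Proof. `q06` (constant `κ > 0`) and `n05_pre` reduce the claim to `nu`. With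
`k = tan (11 s / 20) / tan (s / 2) ≥ 1`, `n05_scale`. `k ≤ 1.117`: by the mean value theorem
`tan (11 s/20) - tan (s/2) ≤ (s/20) (1 + tan² (11 s/20)) ≤ (s/20) (1 + tan² 0.33)`,
`tan 0.33 ≤ 0.4`, and `tan (s/2) ≥ s/2` (`Real.le_tan`): `k ≤ 1 + 0.1 * 1.16`. Finally
`1.117 ^ 3 < 1.4`. -/
theorem n05 (μ : Measure SO3) (hμ : μ.IsHaarMeasure) (hp : IsProbabilityMeasure μ) {s : ℝ}
    (hs : 0 < s) (hs1 : s ≤ 3 / 5) :
    μ.real (bal 1 (11 / 10 * s)) ≤ 7 / 5 * μ.real (bal 1 s) := by
  have hpi := Real.pi_gt_three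
  have hfin : IsFiniteMeasure nu := q03_fin
  obtain ⟨κ, hκ, h⟩ := q06 μ hμ hp
  have h1 := h (bal 1 (11 / 10 * s)) (n01_open _ _).measurableSet
  have h2 := h (bal 1 s) (n01_open _ _).measurableSet
  rw [n05_pre (by linarith) (by linarith)] at h1 h2
  have e : 11 / 10 * s / 2 = 11 / 10 * (s / 2) := by ring
  rw [e] at h1
  have ht : 0 < Real.tan (s / 2) := Real.tan_pos_of_pos_of_lt_pi_div_two (by linarith) (by linarith)
  have hk1 := n05_tan (u := s / 2) (by linarith) (by linarith)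
  have hk2 : Real.tan (s / 2) < Real.tan (11 / 10 * (s / 2)) :=
    Real.tan_lt_tan_of_lt_of_lt_pi_div_two (by linarith) (by linarith) (by linarith)
  obtain ⟨k, hk⟩ : ∃ k, k = Real.tan (11 / 10 * (s / 2)) / Real.tan (s / 2) := ⟨_, rfl⟩
  have hk3 : Real.tan (11 / 10 * (s / 2)) = k * Real.tan (s / 2) := by
    rw [hk, div_mul_cancel₀ _ ht.ne']
  have hk4 : 1 ≤ k := by
    rw [hk, le_div_iff₀ ht]
    linarith
  have hk5 : k ≤ 1111 / 1000 := by
    rw [hk, div_le_iff₀ ht]
    exact hk1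
  have h3 := n05_scale hfin (t := Real.tan (s / 2)) hk4
  rw [← hk3, h1, h2] at h3
  have h4 : k ^ 3 ≤ 7 / 5 := by
    have : k ^ 3 ≤ (1111 / 1000) ^ 3 := pow_le_pow_left₀ (by linarith) hk5 3
    refine this.trans (by norm_num)
  have h5 : 0 ≤ κ * μ.real (bal 1 s) := by positivity
  have h6 : κ * μ.real (bal 1 (11 / 10 * s)) ≤ κ * (7 / 5 * μ.real (bal 1 s)) := by
    nlinarith [mul_le_mul_of_nonneg_right h4 h5]
  exact le_of_mul_le_mul_left h6 hκ

end Pool.Agent.Lib.H68L
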