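import Pool.Agent.Lib.H68L.N04
import Pool.Agent.Lib.H68L.N05

open MeasureTheory Set Matrix Filter Topology
open Pool.Agent.Lib.H68S (SO3)
open scoped Pointwise

namespace Pool.Agent.Lib.H68L

variable [MeasurableSpace SO3] [BorelSpace SO3]

/-- Proof. Let `t = (1/2) ^ (1/3)`, `t ≥ 0.79` since `0.79 ^ 3 < 0.5`; `√(1/2) ≥ 0.7`. So
`Phi c (1/2) 1 ≥ c 1.79 ^ 3 + (1 - c) 1.7 ^ 2 ≥ 5.735 c + 2.89 (1 - c)`, and `c ≥ 0.94`:
`≥ 5.56`; hence `> 5.6` needs the better constants: `0.7937 ^ 3 < 0.5`, `1.7937 ^ 3 > 5.77`,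
`√(1/2) > 0.707`, `1.707 ^ 2 > 2.91`: `5.77 * 0.945 + 2.91 * 0.055 > 5.61`. Here
`c = cos (11 s / 20) ≥ cos 0.33 ≥ 1 - 0.33 ^ 2 / 2 > 0.945` (`Real.one_sub_sq_div_two_le_cos`).
(`Phi` is nondecreasing in `c`: `j06_mono`.) -/
theorem n06_num {s : ℝ} (hs : 0 < s) (hs1 : s ≤ 3 / 5) :
    28 / 5 < Phi (Real.cos ((s / 10 + s) / 2)) (1 / 2) 1 := by
  have h1 : (189 / 200 : ℝ) ≤ Real.cos ((s / 10 + s) / 2) := by
    have h2 := Real.one_sub_sq_div_two_le_cos (x := (s / 10 + s) / 2)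
    nlinarith [h2, mul_nonneg hs.le (sub_nonneg.2 hs1)]
  refine lt_of_lt_of_le ?_ (j06_mono h1 (by norm_num) zero_le_one)
  unfold Phi
  have h3 := j06_cube (1 / 2) (by norm_num)
  have h4 := Real.sq_sqrt (show (0 : ℝ) ≤ 1 / 2 by norm_num)
  have h5 : 0 ≤ √(1 / 2 : ℝ) := Real.sqrt_nonneg _
  have h6 : 0 ≤ (1 / 2 : ℝ) ^ (1 / 3 : ℝ) := Real.rpow_nonneg (by norm_num) _
  rw [Real.one_rpow, Real.sqrt_one]
  generalize (1 / 2 : ℝ) ^ (1 / 3 : ℝ) = t at *
  generalize √(1 / 2 : ℝ) = u at *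
  have h7 : (7937 / 10000 : ℝ) ≤ t := by
    by_contra hlt
    push Not at hlt
    have := pow_lt_pow_left₀ hlt h6 (n := 3) (by norm_num)
    rw [h3] at this
    norm_num at this
  have h8 : (707 / 1000 : ℝ) ≤ u := by
    by_contra hlt
    push Not at hlt
    have := pow_lt_pow_left₀ hlt h5 (n := 2) (by norm_num)
    rw [h4] at this
    norm_num at this
  have h9 : (7937 / 10000 + 1 : ℝ) ^ 3 ≤ (t + 1) ^ 3 :=
    pow_le_pow_left₀ (by norm_num) (by linarith) 3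
  have h10 : (707 / 1000 + 1 : ℝ) ^ 2 ≤ (u + 1) ^ 2 :=
    pow_le_pow_left₀ (by norm_num) (by linarith) 2
  norm_num at h9 h10 ⊢
  linarith

/-- One step.

Proof. Suppose `μ (A ∩ bal g (s/10)) > M / 2`. Then `n04` with `B = A`, `r = s / 10`
(`r + s = 11/10 s ≤ π`): with `Phi c` nondecreasing in the first argument, `n06_num` and `n05`:
`μ (bal 1 s) μ(A) (28/5) < μ (bal 1 s) μ(A) Phi c (μ (A ∩ bal g r) / M) 1 ≤ μ (bal 1 (11/10 s)) μ(AA)
≤ (7/5) μ (bal 1 s) μ(AA)`, so `4 μ(A) < μ(AA)`: contradiction. (If `μ A = 0` the claim is trivial;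
`M ≥ 0`; if `M = 0` then `A ∩ bal g (s/10)`, a subset of `A ∩ bal g s`, has measure `0`;
`μ (bal 1 s) > 0` as the ball is open and nonempty, `n01_self`.) -/
theorem n06 (μ : Measure SO3) (hμ : μ.IsHaarMeasure) (hp : IsProbabilityMeasure μ) {A : Set SO3}
    (hA : IsOpen A) (hAA : μ.real (A * A) ≤ 4 * μ.real A) {s : ℝ} (hs : 0 < s) (hs1 : s ≤ 3 / 5)
    {M : ℝ} (hM : ∀ h, μ.real (A ∩ bal h s) ≤ M) (g : SO3) :
    μ.real (A ∩ bal g (s / 10)) ≤ M / 2 := by
  have := hμ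
  have := hp
  have hpi := Real.pi_gt_three
  by_contra hlt
  push Not at hlt
  have hM0 : 0 ≤ M := measureReal_nonneg.trans (hM g)
  have hsub : A ∩ bal g (s / 10) ⊆ A ∩ bal g s :=
    inter_subset_inter_right _ (n01_mono (by linarith) (by linarith) (by linarith))
  have hle : μ.real (A ∩ bal g (s / 10)) ≤ M := (measureReal_mono hsub).trans (hM g)
  have hMpos : 0 < M := by
    rcases hM0.lt_or_eq with h | h
    · exact h
    · rw [← h] at hlt hle
      linarith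
  have hne : (A ∩ bal g (s / 10)).Nonempty := by
    rw [Set.nonempty_iff_ne_empty]
    intro he
    rw [he] at hlt
    simp at hlt
    linarith
  have hApos : 0 < μ.real A := by
    have h1 : μ.real (A ∩ bal g (s / 10)) ≤ μ.real A := measureReal_mono inter_subset_left
    linarith
  have hball : 0 < μ.real (bal 1 s) := by
    have h1 : 0 < μ (bal 1 s) :=
      (n01_open 1 s).measure_pos μ ⟨1, n01_self hs (by linarith)⟩
    exact ENNReal.toReal_pos h1.ne' (measure_ne_top _ _)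
  have h4 := n04 μ hμ hp hA hA g (r := s / 10) (s := s) (by linarith) hs (by linarith) hne hMpos hM
  have hc : 0 ≤ Real.cos ((s / 10 + s) / 2) :=
    Real.cos_nonneg_of_neg_pi_div_two_le_of_le (by linarith) (by linarith)
  have hfrac : (1 / 2 : ℝ) ≤ μ.real (A ∩ bal g (s / 10)) / M := by
    rw [le_div_iff₀ hMpos]
    linarith
  have h5 := n04_mono (b := 1) hc (Real.cos_le_one _) (by norm_num) hfrac
  have h6 := n06_num hs hs1
  have h7 := n05 μ hμ hp hs hs1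
  have h8 : s / 10 + s = 11 / 10 * s := by ring
  rw [h8] at h4 h5 h6
  have h9 : 0 < μ.real (bal 1 s) * μ.real A := mul_pos hball hApos
  have h10 := mul_lt_mul_of_pos_left (h6.trans_le h5) h9
  have h11 := mul_le_mul_of_nonneg_right h7 (measureReal_nonneg (μ := μ) (s := A * A))
  have h12 := mul_le_mul_of_nonneg_left hAA hball.le
  nlinarith [h4, h10, h11, h12]

end Pool.Agent.Lib.H68L
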