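import Pool.Agent.Lib.H68L.N06

open MeasureTheory Set Matrix Filter Topology
open Pool.Agent.Lib.H68S (SO3)
open scoped Pointwise

namespace Pool.Agent.Lib.H68L

variable [MeasurableSpace SO3] [BorelSpace SO3]

/-- Proof. Induction on `n`: for `n = 0`, `μ (A ∩ bal g (3/5)) ≤ μ A`; step: `n06` with
`s = (3/5) / 10 ^ n`, `M = μ A / 2 ^ n`. -/
theorem n07 (μ : Measure SO3) (hμ : μ.IsHaarMeasure) (hp : IsProbabilityMeasure μ) {A : Set SO3}
    (hA : IsOpen A) (hAA : μ.real (A * A) ≤ 4 * μ.real A) (n : ℕ) (g : SO3) :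
    μ.real (A ∩ bal g (3 / 5 / 10 ^ n)) ≤ μ.real A / 2 ^ n := by
  have := hp
  induction n generalizing g with
  | zero =>
    rw [pow_zero, pow_zero, div_one, div_one]
    exact measureReal_mono inter_subset_left
  | succ n ih =>
    have h1 : (1 : ℝ) ≤ 10 ^ n := one_le_pow₀ (by norm_num)
    have h0 : (0 : ℝ) < 10 ^ n := by positivity
    have hs : (0 : ℝ) < 3 / 5 / 10 ^ n := by positivity
    have hs1 : (3 : ℝ) / 5 / 10 ^ n ≤ 3 / 5 := div_le_self (by norm_num) h1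
    have key := n06 μ hμ hp hA hAA hs hs1 ih g
    have e1 : (3 : ℝ) / 5 / 10 ^ (n + 1) = 3 / 5 / 10 ^ n / 10 := by
      rw [pow_succ, div_mul_eq_div_div]
    have e2 : μ.real A / 2 ^ (n + 1) = μ.real A / 2 ^ n / 2 := by
      rw [pow_succ, div_mul_eq_div_div]
    rw [e1, e2]
    exact key

end Pool.Agent.Lib.H68L
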