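import Pool.Agent.Lib.H68L.N01

open MeasureTheory Set Matrix Filter Topology
open Pool.Agent.Lib.H68S (SO3)
open scoped Pointwise

namespace Pool.Agent.Lib.H68L

variable [MeasurableSpace SO3] [BorelSpace SO3]

/-- Proof. `Phi c 1 1 = 8 c + 4 (1 - c)`, `Phi c a b ≥ Phi c b b = b * Phi c 1 1` (`j06_hom`, `Phi` is
nondecreasing in the first argument). -/
theorem n08_phi {c a b : ℝ} (hc : 0 ≤ c) (hc1 : c ≤ 1) (hb : 0 ≤ b) (hab : b ≤ a) :
    4 * (1 + c) * b ≤ Phi c a b := by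
  have h1 := j06_cube b hb
  have h2 := Real.sq_sqrt hb
  have h3 : b ^ (1 / 3 : ℝ) ≤ a ^ (1 / 3 : ℝ) := Real.rpow_le_rpow hb hab (by norm_num)
  have h4 : √b ≤ √a := Real.sqrt_le_sqrt hab
  have h5 : 0 ≤ b ^ (1 / 3 : ℝ) := Real.rpow_nonneg hb _
  have h6 : 0 ≤ √b := Real.sqrt_nonneg b
  unfold Phi
  have h7 : 8 * b ≤ (a ^ (1 / 3 : ℝ) + b ^ (1 / 3 : ℝ)) ^ 3 := by
    have : (b ^ (1 / 3 : ℝ) + b ^ (1 / 3 : ℝ)) ^ 3 ≤ (a ^ (1 / 3 : ℝ) + b ^ (1 / 3 : ℝ)) ^ 3 := by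
      gcongr
    nlinarith [this, h1]
  have h8 : 4 * b ≤ (√a + √b) ^ 2 := by
    have : (√b + √b) ^ 2 ≤ (√a + √b) ^ 2 := by
      gcongr
    nlinarith [this, h2]
  have h9 := mul_le_mul_of_nonneg_left h7 hc
  have h10 := mul_le_mul_of_nonneg_left h8 (sub_nonneg.2 hc1)
  linarith

/-- The conjecture for sets covered by well separated balls.

Proof. If `A` is empty the claim is trivial. Let `g₀ ∈ F` maximise `μ (A ∩ bal g r)`,
`A₀ = A ∩ bal g₀ r` (nonempty, because `μ A > 0` and `A` is covered by the balls). For `g ∈ F` let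
`A_g = A ∩ bal g r`. The sets `A₀ * A_g`, `g ∈ F`, are open, contained in `A * A`, and pairwise
disjoint: `A₀ * A_g ⊆ bal (g₀ * g) (2 r)` (`n01_mul'`), that is `g₀⁻¹ * z ∈ bal g (2 r)`
(`(g₀ * g)⁻¹ * z = g⁻¹ * (g₀⁻¹ * z)`, `n01_mem`). By `z02` (with `r = s`, `(r + r)/2 = r`) and `n08_phi`,
`μ (A₀ * A_g) ≥ 4 (1 + cos r) μ (A_g)` (trivial if `A_g` is empty). Sum over `g ∈ F`
(`measureReal_biUnion_finset`), `μ A ≤ Σ μ (A_g)`. -/
theorem n08 (μ : Measure SO3) (hμ : μ.IsHaarMeasure) (hp : IsProbabilityMeasure μ) {A : Set SO3}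
    (hA : IsOpen A) {r : ℝ} (hr : 0 < r) (hr1 : r ≤ Real.pi / 2) (F : Finset SO3)
    (hF : ∀ g ∈ F, ∀ h ∈ F, g ≠ h → Disjoint (bal g (2 * r)) (bal h (2 * r)))
    (hAF : ∀ x ∈ A, ∃ g ∈ F, x ∈ bal g r) :
    4 * (1 + Real.cos r) * μ.real A ≤ μ.real (A * A) := by
  have := hμ
  have := hp
  rcases A.eq_empty_or_nonempty with rfl | ⟨x0, hx0⟩
  · simp
  obtain ⟨g1, hg1, hx1⟩ := hAF x0 hx0
  obtain ⟨g0, hg0, hmax⟩ := F.exists_max_image (fun g => μ.real (A ∩ bal g r)) ⟨g1, hg1⟩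
  have hopen : ∀ g : SO3, IsOpen (A ∩ bal g r) := fun g => hA.inter (n01_open g r)
  have hcos : 0 ≤ Real.cos r := Real.cos_nonneg_of_neg_pi_div_two_le_of_le (by linarith) hr1
  have hpos : 0 < μ.real (A ∩ bal g1 r) := by
    have h1 : 0 < μ (A ∩ bal g1 r) := (hopen g1).measure_pos μ ⟨x0, hx0, hx1⟩
    exact ENNReal.toReal_pos h1.ne' (measure_ne_top μ _)
  have hpos0 : 0 < μ.real (A ∩ bal g0 r) := lt_of_lt_of_le hpos (hmax g1 hg1)
  have hne0 : (A ∩ bal g0 r).Nonempty := by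
    rw [nonempty_iff_ne_empty]
    intro h
    rw [h] at hpos0
    simp at hpos0
  -- each product set is large
  have hstep : ∀ g ∈ F, 4 * (1 + Real.cos r) * μ.real (A ∩ bal g r) ≤
      μ.real ((A ∩ bal g0 r) * (A ∩ bal g r)) := by
    intro g hg
    rcases (A ∩ bal g r).eq_empty_or_nonempty with he | hne
    · rw [he]
      simp
    · have key := z02 μ hμ hp (hopen g0) (hopen g) hne0 hne g0 g hr hr (by linarith)
        (fun x hx => hx.2) (fun y hy => hy.2)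
      have e : (r + r) / 2 = r := by ring
      rw [e] at key
      exact le_trans (n08_phi hcos (Real.cos_le_one r) measureReal_nonneg (hmax g hg)) key
  have hpi : r + r ≤ Real.pi := by linarith
  have hsub : ∀ g, (A ∩ bal g0 r) * (A ∩ bal g r) ⊆ {z | g0⁻¹ * z ∈ bal g (2 * r)} := by
    rintro g z ⟨x, hx, y, hy, rfl⟩
    have h1 := n01_mul' hr hr hpi hx.2 hy.2
    rw [n01_mem] at h1
    show g0⁻¹ * (x * y) ∈ bal g (2 * r)
    rw [n01_mem, two_mul]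
    have e : g⁻¹ * (g0⁻¹ * (x * y)) = (g0 * g)⁻¹ * (x * y) := by group
    rw [e]
    exact h1
  have hdisj : (F : Set SO3).PairwiseDisjoint
      (fun g => (A ∩ bal g0 r) * (A ∩ bal g r)) := by
    intro g hg h hh hgh
    rw [Function.onFun, Set.disjoint_left]
    intro z hz hz'
    exact Set.disjoint_left.1 (hF g hg h hh hgh) (hsub g hz) (hsub h hz')
  have hmeas : ∀ g ∈ F, MeasurableSet ((A ∩ bal g0 r) * (A ∩ bal g r)) := fun g _ =>
    ((hopen g).mul_left).measurableSet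
  have hU : μ.real (⋃ g ∈ F, (A ∩ bal g0 r) * (A ∩ bal g r)) =
      ∑ g ∈ F, μ.real ((A ∩ bal g0 r) * (A ∩ bal g r)) :=
    measureReal_biUnion_finset hdisj hmeas
  have hUs : (⋃ g ∈ F, (A ∩ bal g0 r) * (A ∩ bal g r)) ⊆ A * A := by
    refine iUnion₂_subset fun g _ => ?_
    exact Set.mul_subset_mul inter_subset_left inter_subset_left
  have hcov : A ⊆ ⋃ g ∈ F, (A ∩ bal g r) := by
    intro x hx
    obtain ⟨g, hg, hxg⟩ := hAF x hx
    exact mem_iUnion₂.2 ⟨g, hg, hx, hxg⟩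
  have hle : μ.real A ≤ ∑ g ∈ F, μ.real (A ∩ bal g r) :=
    le_trans (measureReal_mono hcov (measure_ne_top μ _)) (measureReal_biUnion_finset_le F _)
  calc 4 * (1 + Real.cos r) * μ.real A
      ≤ 4 * (1 + Real.cos r) * ∑ g ∈ F, μ.real (A ∩ bal g r) := by
        apply mul_le_mul_of_nonneg_left hle
        linarith
    _ = ∑ g ∈ F, 4 * (1 + Real.cos r) * μ.real (A ∩ bal g r) := by rw [Finset.mul_sum]
    _ ≤ ∑ g ∈ F, μ.real ((A ∩ bal g0 r) * (A ∩ bal g r)) := Finset.sum_le_sum hstep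
    _ = μ.real (⋃ g ∈ F, (A ∩ bal g0 r) * (A ∩ bal g r)) := hU.symm
    _ ≤ μ.real (A * A) := measureReal_mono hUs (measure_ne_top μ _)

end Pool.Agent.Lib.H68L
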