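import Pool.Agent.Lib.H68L.Defs

open MeasureTheory Set Matrix Filter Topology

namespace Pool.Agent.Lib.H68L


theorem p01_cont {B : Set E3} {b : E3 → ℝ} (hb : ContinuousOn b B) (x : E3) :
    ContinuousOn (fun y => qq x y * b y) B := by
  refine ContinuousOn.mul ?_ hb
  unfold qq
  fun_prop

theorem p01_bdd {B : Set E3} (hB : IsCompact B) {b : E3 → ℝ}
    (hb : ContinuousOn b B) (x : E3) : BddBelow (range fun y : B => qq x y * b y) := by
  obtain ⟨m, hm⟩ := hB.bddBelow_image (p01_cont hb x)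
  refine ⟨m, ?_⟩
  rintro _ ⟨y, rfl⟩
  exact hm ⟨y.1, y.2, rfl⟩

/-- Proof. The function `y ↦ qq x y * b y` is continuous on the compact set `B`, so it has a
minimum on `B` (`IsCompact.exists_isMinOn`), which is the infimum over the subtype. -/
theorem p01_att {B : Set E3} (hB : IsCompact B) (hB0 : B.Nonempty) {b : E3 → ℝ}
    (hb : ContinuousOn b B) (x : E3) : ∃ y ∈ B, pot B b x = qq x y * b y := by
  obtain ⟨y0, hy0, hmin⟩ := hB.exists_isMinOn hB0 (p01_cont hb x)
  have : Nonempty B := hB0.to_subtype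
  refine ⟨y0, hy0, le_antisymm (ciInf_le (p01_bdd hB hb x) ⟨y0, hy0⟩) ?_⟩
  exact le_ciInf fun y => hmin y.2

/-- Proof. `ciInf_le`; the range is bounded below by compactness. -/
theorem p01_le {B : Set E3} (hB : IsCompact B) {b : E3 → ℝ}
    (hb : ContinuousOn b B) (x : E3) {y : E3} (hy : y ∈ B) : pot B b x ≤ qq x y * b y := by
  exact ciInf_le (p01_bdd hB hb x) ⟨y, hy⟩

/-- Proof. For `y ∈ B` the function `x ↦ qq x y * b y` is affine. With `x = s x₁ + t x₂`,
`s + t = 1`, take a minimiser `y` for `x` (`p01_att`):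
`pot x = qq x y * b y = s (qq x₁ y * b y) + t (qq x₂ y * b y) ≥ s pot x₁ + t pot x₂`. -/
theorem p01_conc {B : Set E3} (hB : IsCompact B) (hB0 : B.Nonempty) {b : E3 → ℝ}
    (hb : ContinuousOn b B) : ConcaveOn ℝ univ (pot B b) := by
  refine ⟨convex_univ, ?_⟩
  intro x1 _ x2 _ s t hs ht hst
  obtain ⟨y, hy, h0⟩ := p01_att hB hB0 hb (s • x1 + t • x2)
  have h1 := p01_le hB hb x1 hy
  have h2 := p01_le hB hb x2 hy
  rw [h0]
  have h3 : qq (s • x1 + t • x2) y = s * qq x1 y + t * qq x2 y := by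
    unfold qq
    rw [inner_add_left, inner_smul_left, inner_smul_left]
    simp only [conj_trivial]
    linear_combination -hst
  rw [h3, smul_eq_mul, smul_eq_mul]
  have h4 := mul_le_mul_of_nonneg_left h1 hs
  have h5 := mul_le_mul_of_nonneg_left h2 ht
  calc s * pot B b x1 + t * pot B b x2 ≤ s * (qq x1 y * b y) + t * (qq x2 y * b y) := add_le_add h4 h5
    _ = (s * qq x1 y + t * qq x2 y) * b y := by ring

/-- Proof. `‖b y • y‖ ≤ L` on the compact set `B`. For `x, x'` take a minimiser `y` for `x'`: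
`pot x - pot x' ≤ (qq x y - qq x' y) * b y = inner (x' - x) y * b y ≤ L ‖x - x'‖`
(Cauchy-Schwarz). `LipschitzWith.of_le_add_mul` or `LipschitzWith.of_dist_le_mul`. -/
theorem p01_lip {B : Set E3} (hB : IsCompact B) (hB0 : B.Nonempty) {b : E3 → ℝ}
    (hb : ContinuousOn b B) : ∃ L : NNReal, LipschitzWith L (pot B b) := by
  obtain ⟨C, hC⟩ := hB.exists_bound_of_continuousOn (f := fun y => b y • y) (hb.smul continuousOn_id)
  refine ⟨Real.toNNReal C, LipschitzWith.of_le_add_mul _ ?_⟩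
  intro x x'
  obtain ⟨y, hy, h0⟩ := p01_att hB hB0 hb x'
  have h1 := p01_le hB hb x hy
  have hCy := hC y hy
  have hC0 : 0 ≤ C := le_trans (norm_nonneg _) hCy
  rw [Real.coe_toNNReal _ hC0, h0, dist_eq_norm]
  have h2 : qq x y * b y - qq x' y * b y = inner ℝ (x' - x) (b y • y) := by
    unfold qq
    rw [inner_smul_right, inner_sub_left]
    ring
  have h3 := real_inner_le_norm (x' - x) (b y • y)
  have h4 : ‖x' - x‖ * ‖b y • y‖ ≤ C * ‖x - x'‖ := by
    rw [norm_sub_rev x' x, mul_comm]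
    exact mul_le_mul_of_nonneg_right hCy (norm_nonneg _)
  linarith

end Pool.Agent.Lib.H68L
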