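import Pool.Agent.Lib.H68L.P01

open MeasureTheory Set Matrix Filter Topology

namespace Pool.Agent.Lib.H68L


/-- Proof. The function `z ↦ qq z y * b y - pot B b z` is differentiable at `x` with the gradient
`-(b y) • y - g`, it is nonnegative (`p01_le`) and vanishes at `x`: so it has a minimum at `x` and
its gradient is zero (`IsLocalMin.hasFDerivAt_eq_zero`). -/
theorem p02_grad {B : Set E3} (hB : IsCompact B) {b : E3 → ℝ}
    (hb : ContinuousOn b B) {x g : E3} (hg : HasGradientAt (pot B b) g x) {y : E3} (hy : y ∈ B)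
    (hxy : pot B b x = qq x y * b y) : g = -(b y • y) := by
  have hL : HasFDerivAt (fun z => qq z y * b y) (b y • (-(innerSL ℝ y))) x := by
    have h0 : (fun z => qq z y * b y) = fun z => (1 - (innerSL ℝ y) z) * b y := by
      funext z
      rw [qq, innerSL_apply_apply, real_inner_comm]
    rw [h0]
    exact (((innerSL ℝ y).hasFDerivAt).const_sub 1).mul_const (b y)
  have hsub := hL.sub hg.hasFDerivAt
  have hmin : IsLocalMin (fun z => qq z y * b y - pot B b z) x := by
    refine Filter.Eventually.of_forall fun z => ?_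
    have h1 := p01_le hB hb z hy
    show qq x y * b y - pot B b x ≤ qq z y * b y - pot B b z
    rw [hxy, sub_self]
    linarith
  have hz := hmin.hasFDerivAt_eq_zero hsub
  refine ext_inner_right ℝ fun v => ?_
  have h2 := DFunLike.congr_fun hz v
  have h3 : b y * -(inner ℝ y v) - inner ℝ g v = 0 := h2
  rw [inner_neg_left, inner_smul_left]
  simp only [conj_trivial]
  linarith

/-- Proof. `g = -(b y) y` by `p02_grad`; `pot B b x = qq x y * b y = b y - (b y) (x · y)` and
`x · g = -(b y) (x · y)`. -/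
theorem p02_val {B : Set E3} (hB : IsCompact B) {b : E3 → ℝ}
    (hb : ContinuousOn b B) {x g : E3} (hg : HasGradientAt (pot B b) g x) {y : E3} (hy : y ∈ B)
    (hxy : pot B b x = qq x y * b y) : pot B b x - inner ℝ x g = b y := by
  rw [p02_grad hB hb hg hy hxy, hxy, inner_neg_right, inner_smul_right, qq]
  ring

/-- Proof. With `g = gradient (pot B b) x` (`DifferentiableAt.hasGradientAt`), `p02_grad` and
`p02_val`: `Fm (pot B b) x = -((b y)⁻¹ • g) = y` because `b y > 0`. -/
theorem p02_Fm {B : Set E3} (hB : IsCompact B) {b : E3 → ℝ}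
    (hb : ContinuousOn b B) (hb0 : ∀ y ∈ B, 0 < b y) {x : E3}
    (hx : DifferentiableAt ℝ (pot B b) x) {y : E3} (hy : y ∈ B)
    (hxy : pot B b x = qq x y * b y) : Fm (pot B b) x = y := by
  have hg := hx.hasGradientAt
  have h1 := p02_grad hB hb hg hy hxy
  have h2 := p02_val hB hb hg hy hxy
  have h3 := hb0 y hy
  rw [Fm, h2, h1, smul_neg, neg_neg, smul_smul, inv_mul_cancel₀ h3.ne', one_smul]

/-- At a point where the potential is differentiable, `Fm` is the unique minimiser.

Proof. `p01_att` gives a minimiser, `p02_Fm` says that every minimiser is `Fm (pot B b) x`; so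
`Fm (pot B b) x ∈ B` is a minimiser and for another `y ∈ B` the inequality `p01_le` is
strict. -/
theorem p02_uniq {B : Set E3} (hB : IsCompact B) (hB0 : B.Nonempty) {b : E3 → ℝ}
    (hb : ContinuousOn b B) (hb0 : ∀ y ∈ B, 0 < b y) {x : E3}
    (hx : DifferentiableAt ℝ (pot B b) x) :
    Fm (pot B b) x ∈ B ∧ pot B b x = qq x (Fm (pot B b) x) * b (Fm (pot B b) x) ∧
      ∀ y ∈ B, y ≠ Fm (pot B b) x → pot B b x < qq x y * b y := by
  obtain ⟨y0, hy0, h0⟩ := p01_att hB hB0 hb x
  have h1 := p02_Fm hB hb hb0 hx hy0 h0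
  rw [h1]
  refine ⟨hy0, h0, ?_⟩
  intro y hy hne
  refine lt_of_le_of_ne (p01_le hB hb x hy) ?_
  intro h2
  have h3 := p02_Fm hB hb hb0 hx hy h2
  exact hne (h3.symm.trans h1)

end Pool.Agent.Lib.H68L
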