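import Pool.Agent.Lib.H68L.Defs

open MeasureTheory Set Matrix Filter Topology

namespace Pool.Agent.Lib.H68L


/-- Proof. `gradient U x` is the image of `fderiv ℝ U x` under the continuous map
`(InnerProductSpace.toDual ℝ E3).symm`; `measurable_fderiv ℝ U` (no assumption on `U`). -/
theorem p03_grad (U : E3 → ℝ) : Measurable (gradient U) := by
  exact ((InnerProductSpace.toDual ℝ E3).symm.continuous.measurable).comp (measurable_fderiv ℝ U)

/-- Proof. `p03_grad`, `U` is continuous; sums, products, inverses of measurable functions. -/
theorem p03_Fm {U : E3 → ℝ} (hU : Continuous U) : Measurable (Fm U) := by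
  have hg := p03_grad U
  unfold Fm
  exact ((hU.measurable.sub (measurable_id.inner hg)).inv.smul hg).neg

/-- Proof. Rademacher: `LipschitzWith.ae_differentiableAt` for the volume; `nu` is absolutely
continuous with respect to the volume (`nu_ac`). -/
theorem p03_diff {U : E3 → ℝ} {L : NNReal} (hU : LipschitzWith L U) :
    ∀ᵐ x ∂nu, DifferentiableAt ℝ U x := by
  exact nu_ac.ae_le hU.ae_differentiableAt

/-- Proof. `measurableSet_of_differentiableAt ℝ U`. -/
theorem p03_meas (U : E3 → ℝ) : MeasurableSet {x | DifferentiableAt ℝ U x} := by
  exact measurableSet_of_differentiableAt ℝ U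

end Pool.Agent.Lib.H68L
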