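import Pool.Agent.Lib.H68L.T07
import Pool.Agent.Lib.H68L.P01

open MeasureTheory Set Matrix Filter Topology

namespace Pool.Agent.Lib.H68L


/-- The normalised measure on a subset. -/
noncomputable def p04_m (A : Set E3) : Measure A := (nu A)⁻¹ • nu.comap Subtype.val

theorem p04_m_apply {A : Set E3} (hA : MeasurableSet A) (t : Set A) :
    p04_m A t = (nu A)⁻¹ * nu (Subtype.val '' t) := by
  rw [p04_m, Measure.smul_apply, comap_subtype_coe_apply hA, smul_eq_mul]

theorem p04_prob {A : Set E3} (hA : MeasurableSet A) (hfin : IsFiniteMeasure nu)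
    (hA0 : nu A ≠ 0) : IsProbabilityMeasure (p04_m A) := by
  constructor
  rw [p04_m_apply hA]
  rw [image_univ, Subtype.range_coe]
  exact ENNReal.inv_mul_cancel hA0 (measure_ne_top _ _)

theorem p04_ae {A : Set E3} (hA : MeasurableSet A) {p : E3 → Prop}
    (h : ∀ᵐ x ∂nu, x ∈ A → p x) : ∀ᵐ (x : A) ∂(p04_m A), p (x : E3) := by
  rw [ae_iff, p04_m_apply hA]
  have h0 : nu (Subtype.val '' {x : A | ¬ p (x : E3)}) = 0 := by
    refine measure_mono_null ?_ (ae_iff.mp h)
    rintro x ⟨y, hy, rfl⟩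
    simp only [mem_ofPred_eq] at hy ⊢
    intro hh
    exact hy (hh y.2)
  rw [h0, mul_zero]

theorem p04_pf {A B : Set E3} (hA : MeasurableSet A) (hB : MeasurableSet B)
    (hfin : IsFiniteMeasure nu) (hA0 : nu A ≠ 0) (hB0 : nu B ≠ 0) {F : E3 → E3}
    {F' : A → B} (hF' : Measurable F') (hFF : ∀ᵐ x ∂nu, ∀ h : x ∈ A, (F' ⟨x, h⟩ : E3) = F x)
    (hmap : Measure.map F' (p04_m A) = p04_m B) {Y : Set E3} (hY : MeasurableSet Y) :
    nu (A ∩ F ⁻¹' Y) * nu B = nu (B ∩ Y) * nu A := by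
  have hYm : MeasurableSet ((Subtype.val : B → E3) ⁻¹' Y) := measurable_subtype_coe hY
  have h1 : p04_m B ((Subtype.val : B → E3) ⁻¹' Y) = (nu B)⁻¹ * nu (B ∩ Y) := by
    rw [p04_m_apply hB, Subtype.image_preimage_coe]
  have h2 : p04_m B ((Subtype.val : B → E3) ⁻¹' Y) = (nu A)⁻¹ * nu (A ∩ F ⁻¹' Y) := by
    rw [← hmap, Measure.map_apply hF' hYm, p04_m_apply hA]
    congr 1
    apply measure_congr
    filter_upwards [hFF] with x hx
    apply propext
    change x ∈ (Subtype.val '' (F' ⁻¹' (Subtype.val ⁻¹' Y)) : Set E3) ↔ x ∈ A ∩ F ⁻¹' Y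
    constructor
    · rintro ⟨y, hy, rfl⟩
      refine ⟨y.2, ?_⟩
      have h3 := hx y.2
      simp only [mem_preimage] at hy ⊢
      rw [← h3]
      exact hy
    · rintro ⟨hxA, hxY⟩
      refine ⟨⟨x, hxA⟩, ?_, rfl⟩
      simp only [mem_preimage] at hxY ⊢
      rw [hx hxA]
      exact hxY
  have h3 : (nu A)⁻¹ * nu (A ∩ F ⁻¹' Y) = (nu B)⁻¹ * nu (B ∩ Y) := h2.symm.trans h1
  have hAt : nu A ≠ ⊤ := measure_ne_top _ _
  have hBt : nu B ≠ ⊤ := measure_ne_top _ _
  calc nu (A ∩ F ⁻¹' Y) * nu B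
      = (nu A * (nu A)⁻¹) * nu (A ∩ F ⁻¹' Y) * nu B := by
        rw [ENNReal.mul_inv_cancel hA0 hAt, one_mul]
    _ = nu A * ((nu A)⁻¹ * nu (A ∩ F ⁻¹' Y)) * nu B := by ring
    _ = nu A * ((nu B)⁻¹ * nu (B ∩ Y)) * nu B := by rw [h3]
    _ = ((nu B)⁻¹ * nu B) * nu (B ∩ Y) * nu A := by ring
    _ = nu (B ∩ Y) * nu A := by rw [ENNReal.inv_mul_cancel hB0 hBt, one_mul]

theorem p04_qs (x y : E3) : qq x y = qq y x := by
  rw [qq, qq, real_inner_comm]

theorem p04_half {A B : Set E3} (hA : IsCompact A) (hB : IsCompact B) (hfin : IsFiniteMeasure nu)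
    (hA0 : nu A ≠ 0) (hB0 : nu B ≠ 0) (hq : ∀ x ∈ A, ∀ y ∈ B, 0 < qq x y)
    {K : A → B → ℝ} (hK : ∀ x y, K x y = Real.log (qq x y)) {v : B → ℝ} {b : E3 → ℝ}
    (hb : ∀ y : B, b y = Real.exp (-v y)) (hbc : ContinuousOn b B)
    (hpush : ∀ F : A → B, Measurable F →
        (∀ᵐ x ∂(p04_m A), ∀ y, y ≠ F x → K x (F x) - v (F x) < K x y - v y) →
        Measure.map F (p04_m A) = p04_m B)
    {F : E3 → E3} (hF : Measurable F)
    (hae : ∀ᵐ x ∂nu, x ∈ A → F x ∈ B ∧ ∀ y ∈ B, y ≠ F x → pot B b x < qq x y * b y)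
    {Y : Set E3} (hY : MeasurableSet Y) :
    nu (A ∩ F ⁻¹' Y) * nu B = nu (B ∩ Y) * nu A := by
  classical
  have hBn : B.Nonempty := nonempty_of_measure_ne_zero hB0
  obtain ⟨y0, hy0⟩ := hBn
  have hBm : MeasurableSet B := hB.measurableSet
  have hAm : MeasurableSet A := hA.measurableSet
  set F' : A → B := fun x => if h : F x ∈ B then ⟨F x, h⟩ else ⟨y0, hy0⟩ with hF'def
  have hF'm : Measurable F' := by
    have h1 : Measurable fun x : A => (F' x : E3) := by
      have h2 : (fun x : A => (F' x : E3)) = fun x : A => if F x ∈ B then F x else y0 := by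
        funext x
        simp only [hF'def]
        split_ifs <;> rfl
      rw [h2]
      exact Measurable.ite ((hF.comp measurable_subtype_coe) hBm)
        (hF.comp measurable_subtype_coe) measurable_const
    exact h1.subtype_mk
  have hval : ∀ (x : A) (h : F x ∈ B), F' x = ⟨F x, h⟩ := by
    intro x h
    simp only [hF'def]
    rw [dif_pos h]
  have hFF : ∀ᵐ x ∂nu, ∀ h : x ∈ A, (F' ⟨x, h⟩ : E3) = F x := by
    filter_upwards [hae] with x hx h
    rw [hval ⟨x, h⟩ (hx h).1]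
  have hexp : ∀ (x : A) (y : B), qq x y * b y = Real.exp (K x y - v y) := by
    intro x y
    rw [hb y, hK x y, sub_eq_add_neg, Real.exp_add, Real.exp_log (hq x x.2 y y.2)]
  refine p04_pf hAm hBm hfin hA0 hB0 hF'm hFF (hpush F' hF'm ?_) hY
  have h3 : ∀ᵐ (x : A) ∂(p04_m A), F x ∈ B ∧ ∀ y ∈ B, y ≠ F x → pot B b x < qq x y * b y :=
    p04_ae hAm hae
  filter_upwards [h3] with x hx y hy
  have h4 : F' x = ⟨F x, hx.1⟩ := hval x hx.1
  have h5 : (y : E3) ≠ F x := by
    intro h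
    apply hy
    rw [h4]
    exact Subtype.ext h
  have h6 : pot B b x = qq x (F x) * b (F x) := by
    obtain ⟨z, hz, hz2⟩ := p01_att hB ⟨y0, hy0⟩ hbc x
    by_cases hzF : z = F x
    · rw [hz2, hzF]
    · exact absurd hz2 (hx.2 z hz hzF).ne
  have h7 := hx.2 y y.2 h5
  rw [h6] at h7
  have h8 : qq x (F x) * b (F x) = Real.exp (K x (F' x) - v (F' x)) := by
    have h9 := hexp x (F' x)
    rw [← h9, h4]
  rw [h8, hexp x y] at h7
  exact Real.exp_lt_exp.mp h7

theorem p04_pot {A B : Set E3} (hB : IsCompact B) (hB0 : B.Nonempty)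
    (hq : ∀ x ∈ A, ∀ y ∈ B, 0 < qq x y) {K : A → B → ℝ}
    (hK : ∀ x y, K x y = Real.log (qq x y)) {v : B → ℝ} {b : E3 → ℝ}
    (hb : ∀ y : B, b y = Real.exp (-v y)) (hbc : ContinuousOn b B)
    (hKc : Continuous fun p : A × B => K p.1 p.2) (hv : Continuous v) (x : A)
    (hAc : CompactSpace A) (hBc : CompactSpace B) (hAn : Nonempty A) (hBn : Nonempty B) :
    pot B b x = Real.exp (ctr K v x) := by
  have hexp : ∀ (x : A) (y : B), qq x y * b y = Real.exp (K x y - v y) := by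
    intro x y
    rw [hb y, hK x y, sub_eq_add_neg, Real.exp_add, Real.exp_log (hq x x.2 y y.2)]
  apply le_antisymm
  · obtain ⟨y, hy⟩ := t01_att hKc hv x
    rw [hy, ← hexp]
    exact p01_le hB hbc x y.2
  · obtain ⟨y, hy, hy2⟩ := p01_att hB hB0 hbc (x : E3)
    rw [hy2, hexp x ⟨y, hy⟩]
    exact Real.exp_le_exp.mpr (t01_le hKc hv x ⟨y, hy⟩)

/-- Potentials for two compact sets (duality and push-forward).

Proof. Let `X = ↥A`, `Y = ↥B` (compact metric spaces, nonempty), `K x y = Real.log (qq x y)`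
(continuous, because `qq > 0` on `A × B`), `α = (nu A)⁻¹ • nu.comap Subtype.val`, similarly `β`
(probability measures; `nu A` is finite and not zero; `comap_apply` for the measurable embedding
`Subtype.val`, or `Measure.Subtype` lemmas such as `Measure.map_comap_subtype_coe`). Take `u`, `v`
from `t_main`. Put `a x = Real.exp (-u x)` for `x ∈ A` and `0` outside, `b y = Real.exp (-v y)` for
`y ∈ B` (continuous on `A`, `B`: `continuousOn_iff_continuous_restrict`). For `x ∈ A`,
`qq x y * b y = Real.exp (K x y - v y)`, so `pot B b x = Real.exp (ctr K v x) = Real.exp (u x)`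
(`exp` is increasing and continuous; use that the infimum is attained, `t01_att`, `p01_att`, or
`Real.exp` and `Monotone.map_ciInf_of_continuousAt`); similarly `pot A a y = Real.exp (v y)`
(`qq y x = qq x y`). Push-forward: let `F` be as in the statement, and define `F' : X → Y` by
`F' x = ⟨F x, h⟩` if `h : F x ∈ B` and `F' x = y0` otherwise (`Measurable.dite` or
`measurable_of_...`; `B` is closed). The hypothesis of `t_main` for `F'` follows (apply the increasing
function `log`). So `map F' α = β`, and for measurable `Y'`: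
`nu (A ∩ F ⁻¹' Y') / nu A = α (F' ⁻¹' Y') = β (Y') = nu (B ∩ Y') / nu B`. -/
theorem p04 {A B : Set E3} (hA : IsCompact A) (hB : IsCompact B) (hfin : IsFiniteMeasure nu)
    (hA0 : nu A ≠ 0) (hB0 : nu B ≠ 0) (hq : ∀ x ∈ A, ∀ y ∈ B, 0 < qq x y) :
    ∃ a b : E3 → ℝ, ContinuousOn a A ∧ ContinuousOn b B ∧ (∀ x ∈ A, 0 < a x) ∧
      (∀ y ∈ B, 0 < b y) ∧ (∀ x ∈ A, pot B b x = (a x)⁻¹) ∧ (∀ y ∈ B, pot A a y = (b y)⁻¹) ∧
      (∀ F : E3 → E3, Measurable F →
        (∀ᵐ x ∂nu, x ∈ A → F x ∈ B ∧ ∀ y ∈ B, y ≠ F x → pot B b x < qq x y * b y) →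
        ∀ Y : Set E3, MeasurableSet Y → nu (A ∩ F ⁻¹' Y) * nu B = nu (B ∩ Y) * nu A) ∧
      (∀ G : E3 → E3, Measurable G →
        (∀ᵐ y ∂nu, y ∈ B → G y ∈ A ∧ ∀ x ∈ A, x ≠ G y → pot A a y < qq y x * a x) →
        ∀ X : Set E3, MeasurableSet X → nu (B ∩ G ⁻¹' X) * nu A = nu (A ∩ X) * nu B) := by
  classical
  have hAne : A.Nonempty := nonempty_of_measure_ne_zero hA0
  have hBne : B.Nonempty := nonempty_of_measure_ne_zero hB0
  have hAc : CompactSpace A := isCompact_iff_compactSpace.mp hA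
  have hBc : CompactSpace B := isCompact_iff_compactSpace.mp hB
  have hAn : Nonempty A := hAne.to_subtype
  have hBn : Nonempty B := hBne.to_subtype
  have hPA : IsProbabilityMeasure (p04_m A) := p04_prob hA.measurableSet hfin hA0
  have hPB : IsProbabilityMeasure (p04_m B) := p04_prob hB.measurableSet hfin hB0
  set K : A → B → ℝ := fun x y => Real.log (qq x y) with hKdef
  have hKc : Continuous fun p : A × B => K p.1 p.2 := by
    have h1 : Continuous fun p : A × B => qq (p.1 : E3) (p.2 : E3) :=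
      continuous_qq.comp
        ((continuous_subtype_val.comp continuous_fst).prodMk
          (continuous_subtype_val.comp continuous_snd))
    exact h1.log fun p => (hq p.1 p.1.2 p.2 p.2.2).ne'
  obtain ⟨u, v, hu, hv, huv, hvu, hpF, hpG⟩ := t_main hKc (p04_m A) (p04_m B)
  have hKt : Continuous fun p : B × A => (fun (y : B) (x : A) => K x y) p.1 p.2 :=
    hKc.comp continuous_swap
  set a : E3 → ℝ := fun x => if h : x ∈ A then Real.exp (-u ⟨x, h⟩) else 0 with hadef
  set b : E3 → ℝ := fun y => if h : y ∈ B then Real.exp (-v ⟨y, h⟩) else 0 with hbdef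
  have ha : ∀ x : A, a x = Real.exp (-u x) := by
    intro x
    simp only [hadef]
    rw [dif_pos x.2]
  have hb : ∀ y : B, b y = Real.exp (-v y) := by
    intro y
    simp only [hbdef]
    rw [dif_pos y.2]
  have hac : ContinuousOn a A := by
    rw [continuousOn_iff_continuous_domRestrict]
    have h1 : A.domRestrict a = fun x : A => Real.exp (-u x) := by
      funext x
      exact ha x
    rw [h1]
    exact Real.continuous_exp.comp hu.neg
  have hbc : ContinuousOn b B := by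
    rw [continuousOn_iff_continuous_domRestrict]
    have h1 : B.domRestrict b = fun y : B => Real.exp (-v y) := by
      funext y
      exact hb y
    rw [h1]
    exact Real.continuous_exp.comp hv.neg
  have hq' : ∀ y ∈ B, ∀ x ∈ A, 0 < qq y x := by
    intro y hy x hx
    rw [p04_qs]
    exact hq x hx y hy
  have hKt' : ∀ (y : B) (x : A), (fun (y : B) (x : A) => K x y) y x = Real.log (qq y x) := by
    intro y x
    change Real.log (qq x y) = _
    rw [p04_qs]
  refine ⟨a, b, hac, hbc, ?_, ?_, ?_, ?_, ?_, ?_⟩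
  · intro x hx
    rw [ha ⟨x, hx⟩]
    exact Real.exp_pos _
  · intro y hy
    rw [hb ⟨y, hy⟩]
    exact Real.exp_pos _
  · intro x hx
    have h1 := p04_pot (A := A) hB hBne hq (K := K) (fun _ _ => rfl) hb hbc hKc hv ⟨x, hx⟩
      hAc hBc hAn hBn
    rw [ha ⟨x, hx⟩, ← Real.exp_neg, neg_neg, ← huv]
    exact h1
  · intro y hy
    have h1 := p04_pot (A := B) hA hAne hq' (K := fun (y : B) (x : A) => K x y) hKt' ha hac hKt
      hu ⟨y, hy⟩ hBc hAc hBn hAn
    rw [hb ⟨y, hy⟩, ← Real.exp_neg, neg_neg]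
    rw [h1, hvu]
  · intro F hF hae Y hY
    exact p04_half hA hB hfin hA0 hB0 hq (K := K) (fun _ _ => rfl) hb hbc hpF hF hae hY
  · intro G hG hae X hX
    exact p04_half hB hA hfin hB0 hA0 hq' (K := fun (y : B) (x : A) => K x y) hKt' ha hac hpG
      hG hae hX

end Pool.Agent.Lib.H68L
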