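import Pool.Agent.Lib.H68L.P02
import Pool.Agent.Lib.H68L.P03
import Pool.Agent.Lib.H68L.P04

open MeasureTheory Set Matrix Filter Topology

namespace Pool.Agent.Lib.H68L


/-- The transport theorem.

Proof. Take `a`, `b` from `p04`, `U = pot B b`, `V = pot A a`, `F = Fm U`, `G = Fm V` (measurable:
`p03_Fm`, `p01_lip`). `A₁ = {x ∈ A | DifferentiableAt ℝ U x}`, `B₁ = {y ∈ B | DifferentiableAt ℝ V y}`
(measurable, of full measure in `A`, `B`: `p03_meas`, `p03_diff`). On `A₁`, `F x` is the unique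
minimiser (`p02_uniq`), so the push-forward statements of `p04` hold for `F`, and for `G`.
`A' = {x ∈ A₁ | F x ∈ B₁}`. `nu (A \ A') = 0`: `A \ A'` is contained in `(A \ A₁) ∪ (A ∩ F⁻¹' B₁ᶜ)` and
`nu (A ∩ F⁻¹' B₁ᶜ) * nu B = nu (B ∩ B₁ᶜ) * nu A = 0`. For `x ∈ A'`: `y = F x ∈ B₁`, and `x` is a
minimiser of `x' ↦ qq y x' * a x'` over `A`: `V y = (b y)⁻¹`, `U x = (a x)⁻¹ = qq x y * b y`, so
`qq y x * a x = (b y)⁻¹`. Hence `G (F x) = x` (`p02_Fm` for `V`), so `F` is injective on `A'`.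
With `g = gradient U x`: `U x - x · g = b (F x) > 0` (`p02_val`), `U x = (a x)⁻¹ > 0`.
Monotonicity: for `x, x' ∈ A'`: `U x = qq x (F x) * b (F x)`, `U x ≤ qq x (F x') * b (F x')`,
similarly for `x'`; multiply: `qq x (F x) * qq x' (F x') * (b (F x) * b (F x')) = U x * U x' ≤
qq x (F x') * qq x' (F x) * (b (F x) * b (F x'))`. The last statement is `p04` for `F`, with
`nu (A' ∩ F⁻¹' Y) = nu (A ∩ F⁻¹' Y)` since `nu (A \ A') = 0`. -/
theorem p05 {A B : Set E3} (hA : IsCompact A) (hB : IsCompact B) (hfin : IsFiniteMeasure nu)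
    (hA0 : nu A ≠ 0) (hB0 : nu B ≠ 0) (hq : ∀ x ∈ A, ∀ y ∈ B, 0 < qq x y) :
    ∃ (U : E3 → ℝ) (A' : Set E3), ConcaveOn ℝ univ U ∧ (∃ L : NNReal, LipschitzWith L U) ∧
      MeasurableSet A' ∧ A' ⊆ A ∧ nu (A \ A') = 0 ∧ (∀ x ∈ A', DifferentiableAt ℝ U x) ∧
      (∀ x ∈ A', Fm U x ∈ B) ∧ InjOn (Fm U) A' ∧
      (∀ x ∈ A', 0 < U x - inner ℝ x (gradient U x)) ∧
      (∀ x ∈ A', ∀ x' ∈ A',
        qq x (Fm U x) * qq x' (Fm U x') ≤ qq x (Fm U x') * qq x' (Fm U x)) ∧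
      (∀ Y : Set E3, MeasurableSet Y →
        nu (A' ∩ Fm U ⁻¹' Y) * nu B = nu (B ∩ Y) * nu A) := by
  obtain ⟨a, b, ha, hb, ha0, hb0, hpa, hpb, hpushF, -⟩ := p04 hA hB hfin hA0 hB0 hq
  have hAne : A.Nonempty := nonempty_of_measure_ne_zero hA0
  have hBne : B.Nonempty := nonempty_of_measure_ne_zero hB0
  obtain ⟨LU, hLU⟩ := p01_lip hB hBne hb
  obtain ⟨LV, hLV⟩ := p01_lip hA hAne ha
  have hdU := p03_diff hLU
  have hdV := p03_diff hLV
  have hFm : Measurable (Fm (pot B b)) := p03_Fm hLU.continuous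
  have huniq := fun {x : E3} (hx : DifferentiableAt ℝ (pot B b) x) =>
    p02_uniq hB hBne hb hb0 hx
  have hPF := hpushF (Fm (pot B b)) hFm (by
    filter_upwards [hdU] with x hx _
    exact ⟨(huniq hx).1, (huniq hx).2.2⟩)
  set B1 : Set E3 := B ∩ {y | DifferentiableAt ℝ (pot A a) y} with hB1
  set A' : Set E3 := (A ∩ {x | DifferentiableAt ℝ (pot B b) x}) ∩ Fm (pot B b) ⁻¹' B1 with hA'
  have hB1m : MeasurableSet B1 := hB.measurableSet.inter (p03_meas _)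
  have hA'm : MeasurableSet A' := (hA.measurableSet.inter (p03_meas _)).inter (hFm hB1m)
  have hnull : nu (A \ A') = 0 := by
    have h1 : nu {x | ¬ DifferentiableAt ℝ (pot B b) x} = 0 := ae_iff.1 hdU
    have h2 : nu {x | ¬ DifferentiableAt ℝ (pot A a) x} = 0 := ae_iff.1 hdV
    have h3 : nu (B ∩ B1ᶜ) = 0 := by
      refine measure_mono_null ?_ h2
      rintro y ⟨hy, hy'⟩ hd
      exact hy' ⟨hy, hd⟩
    have h4 : nu (A ∩ Fm (pot B b) ⁻¹' B1ᶜ) = 0 := by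
      have h5 := hPF B1ᶜ hB1m.compl
      rw [h3, zero_mul] at h5
      exact (mul_eq_zero.1 h5).resolve_right hB0
    refine measure_mono_null ?_ (measure_union_null h1 h4)
    rintro x ⟨hx, hx'⟩
    by_cases hd : DifferentiableAt ℝ (pot B b) x
    · exact Or.inr ⟨hx, fun h6 => hx' ⟨⟨hx, hd⟩, h6⟩⟩
    · exact Or.inl hd
  have hqs : ∀ x y : E3, qq x y = qq y x := fun x y => by
    rw [qq, qq, real_inner_comm]
  have hG : ∀ x ∈ A', Fm (pot A a) (Fm (pot B b) x) = x := by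
    rintro x ⟨⟨hxA, hxd⟩, hyB, hyd⟩
    refine p02_Fm hA ha ha0 hyd hxA ?_
    rw [hpb _ hyB, hqs]
    have h1 := (huniq hxd).2.1
    rw [hpa x hxA] at h1
    have h2 := ha0 x hxA
    have h3 := hb0 _ hyB
    field_simp at h1 ⊢
    linarith
  refine ⟨pot B b, A', p01_conc hB hBne hb, ⟨LU, hLU⟩, hA'm, fun x hx => hx.1.1, hnull,
    fun x hx => hx.1.2, fun x hx => hx.2.1, ?_, ?_, ?_, ?_⟩
  · intro x hx x' hx' h
    rw [← hG x hx, ← hG x' hx', h]
  · intro x hx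
    have h1 := huniq hx.1.2
    rw [p02_val hB hb (DifferentiableAt.hasGradientAt hx.1.2) h1.1 h1.2.1]
    exact hb0 _ h1.1
  · intro x hx x' hx'
    have h1 := huniq hx.1.2
    have h2 := huniq hx'.1.2
    have h3 := p01_le hB hb x h2.1
    have h4 := p01_le hB hb x' h1.1
    have h5 : 0 < pot B b x := by
      rw [hpa x hx.1.1]
      exact inv_pos.2 (ha0 x hx.1.1)
    have h6 : 0 < pot B b x' := by
      rw [hpa x' hx'.1.1]
      exact inv_pos.2 (ha0 x' hx'.1.1)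
    have h7 := mul_le_mul h3 h4 h6.le (h5.le.trans h3)
    rw [h1.2.1, h2.2.1] at h7
    have h8 := hb0 _ h1.1
    have h9 := hb0 _ h2.1
    refine le_of_mul_le_mul_right ?_ (mul_pos h8 h9)
    linarith
  · intro Y hY
    rw [← hPF Y hY]
    congr 1
    refine le_antisymm (measure_mono (inter_subset_inter_left _ fun x hx => hx.1.1)) ?_
    have h1 : A ∩ Fm (pot B b) ⁻¹' Y ⊆ (A' ∩ Fm (pot B b) ⁻¹' Y) ∪ (A \ A') := by
      rintro x ⟨hx, hx'⟩
      by_cases h : x ∈ A'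
      · exact Or.inl ⟨h, hx'⟩
      · exact Or.inr ⟨hx, h⟩
    refine (measure_mono h1).trans ((measure_union_le _ _).trans ?_)
    rw [hnull, add_zero]

end Pool.Agent.Lib.H68L
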