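import Pool.Agent.Lib.H68L.Defs
import Pool.Agent.Lib.H68S.B01

open MeasureTheory Set Matrix Filter Topology
open Pool.Agent.Lib.H68S (SO3)
open scoped Pointwise

namespace Pool.Agent.Lib.H68L

/-- The matrix of the conjugation by the quaternion `1 + x`. -/
noncomputable def rotM (x : E3) : Matrix (Fin 3) (Fin 3) ℝ :=
  (nn x)⁻¹ • ((2 - nn x) • (1 : Matrix (Fin 3) (Fin 3) ℝ) + (2 : ℝ) • vv x x + (2 : ℝ) • crM x)

/-- The numerators of the entries. -/
noncomputable def q01_num (n a b c q : ℝ) : Matrix (Fin 3) (Fin 3) ℝ :=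
  !![2 * q ^ 2 - n + 2 * a * a, 2 * a * b - 2 * q * c, 2 * a * c + 2 * q * b;
     2 * b * a + 2 * q * c, 2 * q ^ 2 - n + 2 * b * b, 2 * b * c - 2 * q * a;
     2 * c * a - 2 * q * b, 2 * c * b + 2 * q * a, 2 * q ^ 2 - n + 2 * c * c]

theorem q01_eq (x : E3) : rotM x = (nn x)⁻¹ • q01_num (nn x) (x 0) (x 1) (x 2) 1 := by
  unfold rotM
  congr 1
  ext i j
  fin_cases i <;> fin_cases j <;> simp [q01_num, vv, crM] <;> ring

/-- Proof. `Matrix.mem_specialOrthogonalGroup_iff`, `Matrix.mem_orthogonalGroup_iff`: compute the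
entries of `rotM x * (rotM x)ᵀ` and the determinant (`Matrix.det_fin_three`); multiply by `nn x ^ 2`,
`nn x ^ 3` (`nn_eq`, `field_simp`, `ring`). -/
theorem rotM_mem (x : E3) : rotM x ∈ Matrix.specialOrthogonalGroup (Fin 3) ℝ := by
  rw [Matrix.mem_specialOrthogonalGroup_iff, Matrix.mem_orthogonalGroup_iff, q01_eq]
  have hn : nn x ≠ 0 := (nn_pos x).ne'
  have hq := nn_eq x
  generalize nn x = n at hn hq ⊢
  generalize x 0 = a at hq ⊢
  generalize x 1 = b at hq ⊢
  generalize x 2 = c at hq ⊢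
  have hi : n⁻¹ * n = 1 := inv_mul_cancel₀ hn
  constructor
  · have key : q01_num n a b c 1 * (q01_num n a b c 1).transpose = (n ^ 2) • 1 := by
      subst hq
      ext i j
      fin_cases i <;> fin_cases j <;>
        simp [q01_num, Matrix.mul_apply, Fin.sum_univ_three] <;> ring
    rw [Matrix.transpose_smul, Matrix.smul_mul, Matrix.mul_smul, key, smul_smul, smul_smul]
    have : n⁻¹ * n⁻¹ * n ^ 2 = 1 := by
      field_simp
    rw [this, one_smul]
  · have key : (q01_num n a b c 1).det = n ^ 3 := by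
      subst hq
      simp [q01_num, Matrix.det_fin_three]
      ring
    rw [Matrix.det_smul, key, Fintype.card_fin]
    field_simp

/-- The rotation with the coordinate `x`. -/
noncomputable def rot (x : E3) : SO3 := ⟨rotM x, rotM_mem x⟩

theorem q01_nnop {x y : E3} (h : qq x y ≠ 0) :
    nn (op x y) = nn x * nn y / (qq x y) ^ 2 := by
  rw [nn_eq, op0, op1, op2, nn_eq, nn_eq]
  have hq := qq_eq x y
  generalize qq x y = q at h hq ⊢
  have : 1 + ((q⁻¹ * (x 0 + y 0 + (x 1 * y 2 - x 2 * y 1))) ^ 2 +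
      (q⁻¹ * (x 1 + y 1 + (x 2 * y 0 - x 0 * y 2))) ^ 2 +
      (q⁻¹ * (x 2 + y 2 + (x 0 * y 1 - x 1 * y 0))) ^ 2) =
      (q ^ 2 + ((x 0 + y 0 + (x 1 * y 2 - x 2 * y 1)) ^ 2 +
      (x 1 + y 1 + (x 2 * y 0 - x 0 * y 2)) ^ 2 +
      (x 2 + y 2 + (x 0 * y 1 - x 1 * y 0)) ^ 2)) / q ^ 2 := by
    field_simp
  rw [this]
  congr 1
  subst hq
  ring

theorem q01_op {x y : E3} (h : qq x y ≠ 0) :
    rotM (op x y) = (nn x * nn y)⁻¹ • q01_num (nn x * nn y)
      (x 0 + y 0 + (x 1 * y 2 - x 2 * y 1)) (x 1 + y 1 + (x 2 * y 0 - x 0 * y 2))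
      (x 2 + y 2 + (x 0 * y 1 - x 1 * y 0)) (qq x y) := by
  rw [q01_eq, q01_nnop h, op0, op1, op2]
  have hn : nn x * nn y ≠ 0 := (mul_pos (nn_pos x) (nn_pos y)).ne'
  generalize nn x * nn y = n at hn ⊢
  generalize qq x y = q at h ⊢
  generalize (x 0 + y 0 + (x 1 * y 2 - x 2 * y 1)) = a
  generalize (x 1 + y 1 + (x 2 * y 0 - x 0 * y 2)) = b
  generalize (x 2 + y 2 + (x 0 * y 1 - x 1 * y 0)) = c
  ext i j
  fin_cases i <;> fin_cases j <;> simp [q01_num] <;> field_simp

/-- Proof. Compare the entries of `rotM (op x y)` and `rotM x * rotM y`. With `q = qq x y`,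
`q op x y = x + y + x × y` and `nn (op x y) = nn x * nn y / q²` both sides are polynomials divided by
`nn x * nn y` (checked with exact arithmetic at random points). -/
theorem rot_op {x y : E3} (h : qq x y ≠ 0) : rot (op x y) = rot x * rot y := by
  apply Subtype.ext
  change rotM (op x y) = rotM x * rotM y
  rw [q01_op h, q01_eq, q01_eq, Matrix.smul_mul, Matrix.mul_smul, smul_smul, mul_inv]
  congr 1
  rw [nn_eq, nn_eq, qq_eq]
  generalize x 0 = a
  generalize x 1 = b
  generalize x 2 = c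
  generalize y 0 = d
  generalize y 1 = e
  generalize y 2 = f
  ext i j
  fin_cases i <;> fin_cases j <;>
    simp [q01_num, Matrix.mul_apply, Fin.sum_univ_three] <;> ring

/-- Proof. `Matrix.trace_fin_three`: `(3 (2 - nn x) + 2 (nn x - 1)) / nn x`. -/
theorem rot_trace (x : E3) : (rot x).1.trace = (4 - nn x) / nn x := by
  change (rotM x).trace = _
  rw [q01_eq, Matrix.trace_fin_three]
  have hn : nn x ≠ 0 := (nn_pos x).ne'
  have hq := nn_eq x
  simp only [q01_num, Matrix.smul_apply, smul_eq_mul, Matrix.of_apply, Matrix.cons_val', Matrix.cons_val_zero,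
    Matrix.cons_val_one, Matrix.cons_val]
  field_simp
  nlinarith [hq]

/-- Proof. By `rot_trace`, `1 + trace = 4 / nn x > 0`. -/
theorem rot_trace' (x : E3) : 0 < 1 + (rot x).1.trace := by
  rw [rot_trace]
  have hn := nn_pos x
  have : 1 + (4 - nn x) / nn x = 4 / nn x := by
    field_simp
    ring
  rw [this]
  positivity

/-- Proof. The antisymmetric part of `rotM x` is `(2 / nn x) [x]` and `1 + trace = 4 / nn x`. -/
theorem rot_coord (x : E3) :
    x 0 = ((rot x).1 2 1 - (rot x).1 1 2) / (1 + (rot x).1.trace) ∧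
    x 1 = ((rot x).1 0 2 - (rot x).1 2 0) / (1 + (rot x).1.trace) ∧
    x 2 = ((rot x).1 1 0 - (rot x).1 0 1) / (1 + (rot x).1.trace) := by
  have hn := nn_pos x
  have ht : 1 + (rot x).1.trace = 4 / nn x := by
    rw [rot_trace]
    field_simp
    ring
  rw [ht]
  have hr : (rot x).1 = (nn x)⁻¹ • q01_num (nn x) (x 0) (x 1) (x 2) 1 := q01_eq x
  rw [hr]
  refine ⟨?_, ?_, ?_⟩ <;>
    simp [q01_num] <;> field_simp <;> ring

/-- Proof. `rot_coord`. -/
theorem rot_inj : Function.Injective rot := by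
  intro x y h
  obtain ⟨hx0, hx1, hx2⟩ := rot_coord x
  obtain ⟨hy0, hy1, hy2⟩ := rot_coord y
  ext i
  fin_cases i
  · change x 0 = y 0
    rw [hx0, hy0, h]
  · change x 1 = y 1
    rw [hx1, hy1, h]
  · change x 2 = y 2
    rw [hx2, hy2, h]

/-- Proof. The entries of `rotM x` are continuous functions of `x`. -/
theorem rot_cont : Continuous rot := by
  refine continuous_induced_rng.2 ?_
  change Continuous rotM
  have h1 : Continuous fun x : E3 => (nn x)⁻¹ := continuous_nn.inv₀ fun x => (nn_pos x).ne'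
  have h2 : Continuous fun x : E3 => (2 - nn x) • (1 : Matrix (Fin 3) (Fin 3) ℝ) :=
    (continuous_const.sub continuous_nn).smul continuous_const
  have h3 : Continuous fun x : E3 => (2 : ℝ) • vv x x := by
    refine continuous_matrix fun i j => ?_
    simp only [vv, Matrix.of_apply, Matrix.smul_apply, smul_eq_mul]
    fun_prop
  have h4 : Continuous fun x : E3 => (2 : ℝ) • crM x := by
    refine continuous_matrix fun i j => ?_
    fin_cases i <;> fin_cases j <;> simp [crM] <;> fun_prop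
  exact h1.smul ((h2.add h3).add h4)

end Pool.Agent.Lib.H68L
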