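import Pool.Agent.Lib.H68L.Q01
import Pool.Agent.Lib.H68S.B02

open MeasureTheory Set Matrix Filter Topology
open Pool.Agent.Lib.H68S (SO3)
open scoped Pointwise

namespace Pool.Agent.Lib.H68L

/-- Proof. `g.1 * g.1ᵀ = 1`, `g.1ᵀ * g.1 = 1`, `det g.1 = 1`, so `g.1` equals its cofactor matrix
(nine equations, `Matrix.adjugate`: `adjugate g.1 = g.1ᵀ`). Let `t = trace g.1`, and let `x` be the
vector of `rot_coord`: `x 0 = (g 2 1 - g 1 2) / (1 + t)`, and so on. First
`(1 + t) * nn x = 4`, i.e. `(1+t)² + Σ (g 2 1 - g 1 2)² = 4 (1 + t)`: the sum of the squares of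
the entries is `3`, and the cofactor equations give `Σ_{i<j} (g i i * g j j - g i j * g j i) = t`.
Then compare the entries of `rotM x` with `g.1`: multiply by `(1 + t) * nn x = 4`; e.g. the
entry `(0,0)` is `2 (1 + t) x₀² + (1 + t) (2 - nn x) = 4 g₀₀`, which follows from the cofactor and
the orthogonality equations. Alternative: `g` and `1` have no eigenvalue `-1`, Cayley transform:
`x` with `[x] = (g - 1)(g + 1)⁻¹`. Another way: by `Pool.Agent.Lib.H68S.kak` write
`g = kz z * ax t * kz w` and use half angles: `kz` of angle `φ` is `rot (tan (φ/2) e₃)` when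
`φ ≠ π`, and products are given by `rot_op`. -/
theorem rot_surj (g : SO3) (hg : 0 < 1 + g.1.trace) : ∃ x : E3, rot x = g := by
  obtain ⟨h1, h2, h3⟩ := Pool.Agent.Lib.H68S.b02_mem g
  have hadj : g.1.adjugate = g.1.transpose := by
    have e1 : g.1.adjugate * g.1 = 1 := by
      rw [Matrix.adjugate_mul, h3, one_smul]
    calc g.1.adjugate = g.1.adjugate * (g.1 * g.1.transpose) := by rw [h1, mul_one]
      _ = (g.1.adjugate * g.1) * g.1.transpose := by rw [mul_assoc]
      _ = g.1.transpose := by rw [e1, one_mul]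
  rw [Matrix.trace_fin_three] at hg
  obtain ⟨a, ha⟩ : ∃ a, a = g.1 0 0 := ⟨_, rfl⟩
  obtain ⟨b, hb⟩ : ∃ a, a = g.1 0 1 := ⟨_, rfl⟩
  obtain ⟨c, hc⟩ : ∃ a, a = g.1 0 2 := ⟨_, rfl⟩
  obtain ⟨d, hd⟩ : ∃ a, a = g.1 1 0 := ⟨_, rfl⟩
  obtain ⟨e, he⟩ : ∃ a, a = g.1 1 1 := ⟨_, rfl⟩
  obtain ⟨f, hf⟩ : ∃ a, a = g.1 1 2 := ⟨_, rfl⟩
  obtain ⟨p, hp⟩ : ∃ a, a = g.1 2 0 := ⟨_, rfl⟩
  obtain ⟨q, hq⟩ : ∃ a, a = g.1 2 1 := ⟨_, rfl⟩
  obtain ⟨r, hr⟩ : ∃ a, a = g.1 2 2 := ⟨_, rfl⟩
  have r0 := congrFun (congrFun h1 0) 0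
  have r1 := congrFun (congrFun h1 1) 1
  have r2 := congrFun (congrFun h1 2) 2
  have r01 := congrFun (congrFun h1 0) 1
  have r02 := congrFun (congrFun h1 0) 2
  have r12 := congrFun (congrFun h1 1) 2
  have k0 := congrFun (congrFun h2 0) 0
  have k1 := congrFun (congrFun h2 1) 1
  have k2 := congrFun (congrFun h2 2) 2
  have k01 := congrFun (congrFun h2 0) 1
  have k02 := congrFun (congrFun h2 0) 2
  have k12 := congrFun (congrFun h2 1) 2
  simp only [Matrix.mul_apply, Matrix.transpose_apply, Fin.sum_univ_three, Matrix.one_apply]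
    at r0 r1 r2 r01 r02 r12 k0 k1 k2 k01 k02 k12
  have n02 : ¬ (0 : Fin 3) = 2 := by decide
  have n12 : ¬ (1 : Fin 3) = 2 := by decide
  rw [if_neg n02] at r02 k02
  rw [if_neg n12] at r12 k12
  norm_num at r0 r1 r2 r01 r02 r12 k0 k1 k2 k01 k02 k12
  rw [Matrix.adjugate_fin_three] at hadj
  have c00 := congrFun (congrFun hadj 0) 0
  have c01 := congrFun (congrFun hadj 0) 1
  have c02 := congrFun (congrFun hadj 0) 2
  have c10 := congrFun (congrFun hadj 1) 0
  have c11 := congrFun (congrFun hadj 1) 1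
  have c12 := congrFun (congrFun hadj 1) 2
  have c20 := congrFun (congrFun hadj 2) 0
  have c21 := congrFun (congrFun hadj 2) 1
  have c22 := congrFun (congrFun hadj 2) 2
  simp at c00 c01 c02 c10 c11 c12 c20 c21 c22
  rw [← ha, ← he, ← hr] at hg
  rw [← ha, ← hb, ← hc] at r0
  rw [← hd, ← he, ← hf] at r1
  rw [← hp, ← hq, ← hr] at r2
  rw [← ha, ← hb, ← hc, ← hd, ← he, ← hf] at r01
  rw [← ha, ← hb, ← hc, ← hp, ← hq, ← hr] at r02
  rw [← hd, ← he, ← hf, ← hp, ← hq, ← hr] at r12
  rw [← ha, ← hd, ← hp] at k0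
  rw [← hb, ← he, ← hq] at k1
  rw [← hc, ← hf, ← hr] at k2
  rw [← ha, ← hb, ← hd, ← he, ← hp, ← hq] at k01
  rw [← ha, ← hc, ← hd, ← hf, ← hp, ← hr] at k02
  rw [← hb, ← hc, ← he, ← hf, ← hq, ← hr] at k12
  simp only [← ha, ← hb, ← hc, ← hd, ← he, ← hf, ← hp, ← hq, ← hr] at c00 c01 c02 c10 c11 c12 c20 c21 c22
  obtain ⟨D, hD⟩ : ∃ D, D = 1 + (a + e + r) := ⟨_, rfl⟩
  rw [← hD] at hg
  have K00 : (q - f) * (q - f) = D * (1 + a - e - r) := by
    rw [hD]; linear_combination 2 * c00 + r1 + r2 - k0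
  have K11 : (c - p) * (c - p) = D * (1 + e - a - r) := by
    rw [hD]; linear_combination 2 * c11 + r0 + r2 - k1
  have K22 : (d - b) * (d - b) = D * (1 + r - a - e) := by
    rw [hD]; linear_combination 2 * c22 + r0 + r1 - k2
  have K01 : (q - f) * (c - p) = D * (b + d) := by
    rw [hD]; linear_combination c10 + c01 - k01 - r01
  have K02 : (q - f) * (d - b) = D * (c + p) := by
    rw [hD]; linear_combination c02 + c20 - r02 - k02
  have K12 : (c - p) * (d - b) = D * (f + q) := by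
    rw [hD]; linear_combination c12 + c21 - k12 - r12
  have hDne : D ≠ 0 := hg.ne'
  have x00 : (q - f) / D * ((q - f) / D) = (1 + a - e - r) / D := by
    rw [div_mul_div_comm, K00]; field_simp
  have x11 : (c - p) / D * ((c - p) / D) = (1 + e - a - r) / D := by
    rw [div_mul_div_comm, K11]; field_simp
  have x22 : (d - b) / D * ((d - b) / D) = (1 + r - a - e) / D := by
    rw [div_mul_div_comm, K22]; field_simp
  have x01 : (q - f) / D * ((c - p) / D) = (b + d) / D := by
    rw [div_mul_div_comm, K01]; field_simp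
  have x02 : (q - f) / D * ((d - b) / D) = (c + p) / D := by
    rw [div_mul_div_comm, K02]; field_simp
  have x12 : (c - p) / D * ((d - b) / D) = (f + q) / D := by
    rw [div_mul_div_comm, K12]; field_simp
  have x10 : (c - p) / D * ((q - f) / D) = (b + d) / D := by rw [mul_comm, x01]
  have x20 : (d - b) / D * ((q - f) / D) = (c + p) / D := by rw [mul_comm, x02]
  have x21 : (d - b) / D * ((c - p) / D) = (f + q) / D := by rw [mul_comm, x12]
  refine ⟨!₂[(q - f) / D, (c - p) / D, (d - b) / D], Subtype.ext ?_⟩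
  have hnn : nn !₂[(q - f) / D, (c - p) / D, (d - b) / D] = 4 / D := by
    rw [nn_eq]
    simp only [Matrix.cons_val_zero, Matrix.cons_val_one, Matrix.cons_val]
    rw [pow_two, pow_two, pow_two, x00, x11, x22]
    rw [hD] at hDne ⊢
    field_simp
    ring
  show rotM _ = g.1
  rw [rotM, hnn]
  ext i j
  fin_cases i <;> fin_cases j <;>
    simp [vv, crM, x00, x11, x22, x01, x02, x12, x10, x20, x21, ← ha, ← hb, ← hc, ← hd, ← he,
      ← hf, ← hp, ← hq, ← hr] <;> field_simp <;> linarith [hD]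

/-- Proof. `-1 ≤ trace g.1` for rotations is not needed: by `rot_trace'` and `rot_surj` the range is
`{g | 0 < 1 + trace g.1}`, which is open (the trace is continuous). -/
theorem rot_range : range rot = {g : SO3 | 0 < 1 + g.1.trace} := by
  ext g
  constructor
  · rintro ⟨x, rfl⟩
    exact rot_trace' x
  · intro h
    exact rot_surj g h

theorem rot_range_open : IsOpen (range rot) := by
  rw [rot_range]
  have hc : Continuous fun g : SO3 => 1 + g.1.trace := by
    have h1 : Continuous fun g : SO3 => g.1.trace := by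
      simp only [Matrix.trace_fin_three]
      have h2 : ∀ i j : Fin 3, Continuous fun g : SO3 => g.1 i j := fun i j =>
        (continuous_apply j).comp ((continuous_apply i).comp continuous_subtype_val)
      exact ((h2 0 0).add (h2 1 1)).add (h2 2 2)
    exact continuous_const.add h1
  exact isOpen_lt continuous_const hc

end Pool.Agent.Lib.H68L
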