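import Pool.Agent.Lib.H68L.Defs

open MeasureTheory Set Matrix Filter Topology

namespace Pool.Agent.Lib.H68L


/-- Proof. `∫ (1 + ‖x‖²)⁻² dx < ∞` in dimension `3 < 4`: `integrable_rpow_neg_one_add_norm_sq` with
`r = 4` (`(1 + ‖x‖²) ^ (-4/2) = dens x`), `isFiniteMeasure_withDensity_ofReal`. -/
theorem q03_fin : IsFiniteMeasure nu := by
  have h := integrable_rpow_neg_one_add_norm_sq (E := E3) (μ := volume) (r := 4)
    (by rw [finrank_euclideanSpace]; norm_num)
  have h2 : (fun x : E3 => (1 + ‖x‖ ^ 2) ^ (-(4 : ℝ) / 2)) = dens := by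
    funext x
    have hp : 0 < nn x := nn_pos x
    have : (-(4 : ℝ) / 2) = -((2 : ℕ) : ℝ) := by norm_num
    rw [this, Real.rpow_neg (by positivity), Real.rpow_natCast]
    rfl
  rw [h2] at h
  exact isFiniteMeasure_withDensity_ofReal h.2

/-- Proof. The density is positive, so `volume ≪ nu` (`withDensity_absolutelyContinuous'`), and the
volume is positive on nonempty open sets. -/
theorem q03_pos {O : Set E3} (hO : IsOpen O) (hne : O.Nonempty) : nu O ≠ 0 := by
  have hac : (volume : Measure E3) ≪ nu := by
    unfold nu
    refine withDensity_absolutelyContinuous' ?_ ?_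
    · exact (ENNReal.continuous_ofReal.comp continuous_dens).measurable.aemeasurable
    · filter_upwards with x
      simpa using dens_pos x
  intro h0
  exact (hO.measure_pos volume hne).ne' (hac h0)

/-- Proof. If `z = 0` the set is empty. Otherwise it is an affine plane,
`Measure.addHaar_affineSubspace`, or: it is the translate of the kernel of a nonzero linear form,
a proper subspace (`Measure.addHaar_submodule`); `nu_ac`. -/
theorem q03_plane (z : E3) : nu {x | qq z x = 0} = 0 := by
  apply nu_ac
  by_cases hz : z = 0
  · have : {x : E3 | qq z x = 0} = ∅ := by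
      ext x
      simp [qq, hz]
    rw [this, measure_empty]
  · set x0 : E3 := (‖z‖ ^ 2)⁻¹ • z with hx0
    have hzn : ‖z‖ ^ 2 ≠ 0 := by
      have := norm_pos_iff.mpr hz
      positivity
    have h1 : inner ℝ z x0 = 1 := by
      rw [hx0, inner_smul_right, real_inner_self_eq_norm_sq]
      exact inv_mul_cancel₀ hzn
    have hset : {x : E3 | qq z x = 0} =
        (fun y => y + (-x0)) ⁻¹' ((LinearMap.ker (innerSL ℝ z : E3 →L[ℝ] ℝ).toLinearMap : Submodule ℝ E3) : Set E3) := by
      ext x
      simp only [mem_setOf_eq, mem_preimage, SetLike.mem_coe, LinearMap.mem_ker,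
        ContinuousLinearMap.coe_coe, innerSL_apply_apply, inner_add_right, inner_neg_right, h1, qq]
      constructor <;> intro h <;> linarith
    rw [hset, measure_preimage_add_right]
    refine Measure.addHaar_submodule _ _ ?_
    intro htop
    have : z ∈ (LinearMap.ker (innerSL ℝ z : E3 →L[ℝ] ℝ).toLinearMap : Submodule ℝ E3) := by
      rw [htop]; trivial
    rw [LinearMap.mem_ker] at this
    simp only [ContinuousLinearMap.coe_coe, innerSL_apply_apply, real_inner_self_eq_norm_sq] at this
    exact hzn this

end Pool.Agent.Lib.H68L
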