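import Pool.Agent.Lib.H68L.Q03
import Pool.Agent.Lib.H68L.J02
import Pool.Agent.Lib.H68L.D01
import Pool.Agent.Lib.H68L.D03
import Pool.Agent.Lib.H68L.C03

open MeasureTheory Set Matrix Filter Topology

namespace Pool.Agent.Lib.H68L


/-- Proof. `nn z ≠ 0`; `qq (-z) (op z x) = 1 + z · op z x = nn z / qq z x`. -/
theorem q04_qq {z x : E3} (h : qq z x ≠ 0) : qq (-z) (op z x) = nn z / qq z x := by
  have z0 : qq z x * op z x 0 = z 0 + x 0 + (z 1 * x 2 - z 2 * x 1) := by
    rw [op0, mul_inv_cancel_left₀ h]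
  have z1 : qq z x * op z x 1 = z 1 + x 1 + (z 2 * x 0 - z 0 * x 2) := by
    rw [op1, mul_inv_cancel_left₀ h]
  have z2 : qq z x * op z x 2 = z 2 + x 2 + (z 0 * x 1 - z 1 * x 0) := by
    rw [op2, mul_inv_cancel_left₀ h]
  rw [eq_div_iff h, qq_eq, nn_eq]
  simp only [PiLp.neg_apply]
  have h1 := qq_eq z x
  linear_combination z 0 * z0 + z 1 * z1 + z 2 * z2 + h1

/-- Proof. Coordinates: `q04_qq`, `op0`, `op1`, `op2`, `field_simp`, `ring`
(the quaternion identity `(1 - z)(1 + z)(1 + x) = |1 + z|² (1 + x)`). -/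
theorem q04_inv {z x : E3} (h : qq z x ≠ 0) : op (-z) (op z x) = x := by
  have z0 : qq z x * op z x 0 = z 0 + x 0 + (z 1 * x 2 - z 2 * x 1) := by
    rw [op0, mul_inv_cancel_left₀ h]
  have z1 : qq z x * op z x 1 = z 1 + x 1 + (z 2 * x 0 - z 0 * x 2) := by
    rw [op1, mul_inv_cancel_left₀ h]
  have z2 : qq z x * op z x 2 = z 2 + x 2 + (z 0 * x 1 - z 1 * x 0) := by
    rw [op2, mul_inv_cancel_left₀ h]
  have hn := (nn_pos z).ne'
  have h2 := q04_qq h
  have key : ∀ A B : ℝ, qq z x * A = nn z * B → (qq (-z) (op z x))⁻¹ * A = B := by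
    intro A B hAB
    rw [h2, inv_div]
    field_simp
    exact hAB
  have hq := qq_eq z x
  have hnn := nn_eq z
  ext i
  fin_cases i
  · show op (-z) (op z x) 0 = x 0
    rw [op0]
    apply key
    simp only [PiLp.neg_apply]
    linear_combination z0 - z 1 * z2 + z 2 * z1 - z 0 * hq - x 0 * hnn
  · show op (-z) (op z x) 1 = x 1
    rw [op1]
    apply key
    simp only [PiLp.neg_apply]
    linear_combination z1 - z 2 * z0 + z 0 * z2 - z 1 * hq - x 1 * hnn
  · show op (-z) (op z x) 2 = x 2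
    rw [op2]
    apply key
    simp only [PiLp.neg_apply]
    linear_combination z2 - z 0 * z1 + z 1 * z0 - z 2 * hq - x 2 * hnn

/-- Left multiplication preserves `nu`.

Proof. Let `s = {x | qq z x ≠ 0 ∧ op z x ∈ X}` (measurable: `qq z` is continuous, and `op z` is
measurable). On `s` the map `op z` is injective (`q04_inv`), with the derivative
`tm (zyM z x)` (`d01` with a constant first argument), and
`|(tm (zyM z x)).det| * dens (op z x) = dens x`: `d03_det` and `j02_e` with `S = 0`, `H = 1`,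
`j01_d'`. So `nu (op z '' s) = nu s` (`c03_cov`, `withDensity_apply`). Finally
`op z '' s = X ∩ {y | qq (-z) y ≠ 0}`: `⊆` by `q04_qq`; `⊇`: for `y` with `qq (-z) y ≠ 0`,
`x = op (-z) y` satisfies `qq z x = nn z / qq (-z) y ≠ 0` and `op z x = y` (`q04_qq`, `q04_inv` for
`-z`). And `{y | qq (-z) y = 0}` is a null set (`q03_plane`). -/
theorem q04 (z : E3) {X : Set E3} (hX : MeasurableSet X) :
    nu {x | qq z x ≠ 0 ∧ op z x ∈ X} = nu X := by
  have hcro : Continuous fun x : E3 => cro z x := by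
    unfold cro
    fun_prop
  have hqc : Continuous fun x : E3 => qq z x :=
    continuous_qq.comp (Continuous.prodMk continuous_const continuous_id)
  have hop : Measurable (op z) := by
    have h1 : Continuous fun x : E3 => z + x + cro z x :=
      (continuous_const.add continuous_id).add hcro
    exact (hqc.measurable.inv).smul h1.measurable
  have hO : MeasurableSet {x : E3 | qq z x ≠ 0} := by
    have h1 : IsOpen {x : E3 | qq z x ≠ 0} := isOpen_ne_fun hqc continuous_const
    exact h1.measurableSet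
  have hs : MeasurableSet {x : E3 | qq z x ≠ 0 ∧ op z x ∈ X} := hO.inter (hop hX)
  have hd : ∀ x ∈ {x : E3 | qq z x ≠ 0 ∧ op z x ∈ X}, HasFDerivAt (op z) (tm (zyM z x)) x := by
    intro x hx
    have h1 := d01 (x := fun _ => z) (y := fun w => w) (w := x) (hasFDerivAt_const z x)
      (hasFDerivAt_id x) hx.1
    rw [ContinuousLinearMap.comp_zero, zero_add, ContinuousLinearMap.comp_id] at h1
    exact h1
  have hinj : InjOn (op z) {x : E3 | qq z x ≠ 0 ∧ op z x ∈ X} := by
    intro x hx y hy hxy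
    rw [← q04_inv hx.1, hxy, q04_inv hy.1]
  have h2 := c03_cov hs hd hinj
  have h3 : ∀ x ∈ {x : E3 | qq z x ≠ 0 ∧ op z x ∈ X},
      ENNReal.ofReal |(tm (zyM z x)).det| * ENNReal.ofReal (dens (op z x)) =
        ENNReal.ofReal (dens x) := by
    intro x hx
    have h4 := j02_e hx.1 0 1
    rw [Matrix.mul_zero, Matrix.mul_zero, zero_add, zero_add, Matrix.mul_one, Matrix.mul_one,
      j01_d'] at h4
    have h5 : 0 < (zyM z x).det := by
      have h6 : 0 < (zyM z x).det * dens (op z x) := by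
        rw [h4]
        exact dens_pos x
      exact pos_of_mul_pos_left h6 (dens_pos _).le
    rw [d03_det, abs_of_pos h5, ← ENNReal.ofReal_mul h5.le, h4]
  rw [setLIntegral_congr_fun hs h3] at h2
  have h4 : nu {x : E3 | qq z x ≠ 0 ∧ op z x ∈ X} =
      ∫⁻ x in {x : E3 | qq z x ≠ 0 ∧ op z x ∈ X}, ENNReal.ofReal (dens x) :=
    withDensity_apply _ hs
  have h5 : op z '' {x : E3 | qq z x ≠ 0 ∧ op z x ∈ X} = X ∩ {y | qq (-z) y ≠ 0} := by
    ext y
    constructor
    · rintro ⟨x, hx, rfl⟩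
      refine ⟨hx.2, ?_⟩
      show qq (-z) (op z x) ≠ 0
      rw [q04_qq hx.1]
      exact div_ne_zero (nn_pos z).ne' hx.1
    · rintro ⟨hy, hy2⟩
      have h6 := q04_qq hy2
      have h7 := q04_inv hy2
      rw [neg_neg] at h6 h7
      refine ⟨op (-z) y, ⟨?_, ?_⟩, h7⟩
      · rw [h6]
        exact div_ne_zero (nn_pos _).ne' hy2
      · rw [h7]
        exact hy
  have h6 : nu (X ∩ {y | qq (-z) y ≠ 0}) = nu X := by
    refine measure_inter_conull ?_
    have h7 : {y : E3 | qq (-z) y ≠ 0}ᶜ = {y | qq (-z) y = 0} := by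
      ext y
      simp
    rw [h7]
    exact q03_plane (-z)
  rw [h4, ← h2, h5, h6]

end Pool.Agent.Lib.H68L
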