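import Pool.Agent.Lib.H68L.Q02
import Pool.Agent.Lib.H68L.Q04

open MeasureTheory Set Matrix Filter Topology
open Pool.Agent.Lib.H68S (SO3)
open scoped Pointwise

namespace Pool.Agent.Lib.H68L

variable [MeasurableSpace SO3] [BorelSpace SO3]

/-- Proof. `Measure.map_apply` (`rot_cont.measurable`): the left side is
`nu {x | rot z * rot x ∈ X}`; outside the null set `{x | qq z x = 0}` (`q03_plane`),
`rot z * rot x = rot (op z x)` (`rot_op`), so it is `nu {x | qq z x ≠ 0 ∧ op z x ∈ rot ⁻¹' X}`, and
`q04`. -/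
theorem q05_rot (z : E3) {X : Set SO3} (hX : MeasurableSet X) :
    Measure.map rot nu ((fun y => rot z * y) ⁻¹' X) = Measure.map rot nu X := by
  have hm : Measurable rot := rot_cont.measurable
  have hm2 : Measurable fun y : SO3 => rot z * y := (continuous_const.mul continuous_id).measurable
  rw [Measure.map_apply hm (hm2 hX), Measure.map_apply hm hX, ← q04 z (hm hX)]
  apply measure_congr
  have h0 : ∀ᵐ x ∂nu, qq z x ≠ 0 := by
    rw [ae_iff]
    simpa using q03_plane z
  filter_upwards [h0] with x hx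
  apply propext
  change rot z * rot x ∈ X ↔ (qq z x ≠ 0 ∧ op z x ∈ rot ⁻¹' X)
  rw [← rot_op hx]
  exact ⟨fun h => ⟨hx, h⟩, fun h => h.2⟩

end Pool.Agent.Lib.H68L
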