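import Pool.Agent.Lib.H68L.Q01

open MeasureTheory Set Matrix Filter Topology
open Pool.Agent.Lib.H68S (SO3)
open scoped Pointwise

namespace Pool.Agent.Lib.H68L


/-- Proof. Let `t = ‖x‖²`. By `rot_trace`, `(3 - t) / (1 + t) > 1 + 2 cos r`, i.e.
`t (1 + cos r) < 1 - cos r`; with `cos r = 2 cos² (r/2) - 1 = 1 - 2 sin² (r/2)`:
`t cos² (r/2) < sin² (r/2)`, where `cos (r/2) > 0`, `sin (r/2) > 0`. -/
theorem q07_tan {x : E3} {r : ℝ} (h0 : 0 < r) (h1 : r < Real.pi)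
    (h : 1 + 2 * Real.cos r < (rot x).1.trace) : ‖x‖ < Real.tan (r / 2) := by
  have hn := nn_pos x
  have hn' : nn x = 1 + ‖x‖ ^ 2 := rfl
  rw [rot_trace, lt_div_iff₀ hn] at h
  have hc : 0 < Real.cos (r / 2) :=
    Real.cos_pos_of_mem_Ioo ⟨by linarith [Real.pi_pos], by linarith⟩
  have hs : 0 < Real.sin (r / 2) := Real.sin_pos_of_pos_of_lt_pi (by linarith) (by linarith)
  have e1 : Real.cos r = 2 * Real.cos (r / 2) ^ 2 - 1 := by
    rw [← Real.cos_two_mul]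
    congr 1
    ring
  have e2 := Real.sin_sq_add_cos_sq (r / 2)
  have h2 : (‖x‖ * Real.cos (r / 2)) ^ 2 < Real.sin (r / 2) ^ 2 := by
    rw [hn', e1] at h
    nlinarith
  have h3 : ‖x‖ * Real.cos (r / 2) < Real.sin (r / 2) := lt_of_pow_lt_pow_left₀ 2 hs.le h2
  rw [Real.tan_eq_sin_div_cos, lt_div_iff₀ hc]
  exact h3

/-- Proof. Let `‖x‖ = tan α`, `‖y‖ = tan β` with `α = arctan ‖x‖ ∈ [0, r/2)`,
`β = arctan ‖y‖ ∈ [0, s/2)`. By Cauchy-Schwarz
`qq x y ≥ 1 - ‖x‖ ‖y‖ = cos (α + β) / (cos α cos β)`, and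
`√(nn x * nn y) = 1 / (cos α cos β)` (`nn x = 1 + tan² α`). Since
`0 ≤ α + β < (r + s)/2 ≤ π/2`, `cos (α + β) ≥ cos ((r+s)/2)` and `cos (α + β) > 0`. -/
theorem q07_cos {x y : E3} {r s : ℝ} (hr : 0 < r) (hs : 0 < s) (hrs : r + s ≤ Real.pi)
    (hx : ‖x‖ < Real.tan (r / 2)) (hy : ‖y‖ < Real.tan (s / 2)) :
    0 < qq x y ∧ Real.cos ((r + s) / 2) * √(nn x * nn y) ≤ qq x y := by
  have hr2 : Real.arctan (Real.tan (r / 2)) = r / 2 :=
    Real.arctan_tan (by linarith [Real.pi_pos]) (by linarith)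
  have hs2 : Real.arctan (Real.tan (s / 2)) = s / 2 :=
    Real.arctan_tan (by linarith [Real.pi_pos]) (by linarith)
  have hα : Real.arctan ‖x‖ < r / 2 := by
    rw [← hr2]
    exact Real.arctan_strictMono hx
  have hβ : Real.arctan ‖y‖ < s / 2 := by
    rw [← hs2]
    exact Real.arctan_strictMono hy
  have hα0 : 0 ≤ Real.arctan ‖x‖ := Real.arctan_nonneg.2 (norm_nonneg _)
  have hβ0 : 0 ≤ Real.arctan ‖y‖ := Real.arctan_nonneg.2 (norm_nonneg _)
  have hca : 0 < Real.cos (Real.arctan ‖x‖) := Real.cos_arctan_pos _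
  have hcb : 0 < Real.cos (Real.arctan ‖y‖) := Real.cos_arctan_pos _
  have hsa : Real.sin (Real.arctan ‖x‖) = ‖x‖ * Real.cos (Real.arctan ‖x‖) := by
    have := Real.tan_arctan ‖x‖
    rw [Real.tan_eq_sin_div_cos, div_eq_iff hca.ne'] at this
    exact this
  have hsb : Real.sin (Real.arctan ‖y‖) = ‖y‖ * Real.cos (Real.arctan ‖y‖) := by
    have := Real.tan_arctan ‖y‖
    rw [Real.tan_eq_sin_div_cos, div_eq_iff hcb.ne'] at this
    exact this
  have hsq : √(nn x * nn y) = (Real.cos (Real.arctan ‖x‖) * Real.cos (Real.arctan ‖y‖))⁻¹ := by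
    have h1 : nn x * nn y =
        ((Real.cos (Real.arctan ‖x‖) * Real.cos (Real.arctan ‖y‖))⁻¹) ^ 2 := by
      have e1 := Real.sin_sq_add_cos_sq (Real.arctan ‖x‖)
      have e2 := Real.sin_sq_add_cos_sq (Real.arctan ‖y‖)
      rw [hsa] at e1
      rw [hsb] at e2
      have h2 : nn x * Real.cos (Real.arctan ‖x‖) ^ 2 = 1 := by
        unfold nn
        linarith
      have h3 : nn y * Real.cos (Real.arctan ‖y‖) ^ 2 = 1 := by
        unfold nn
        linarith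
      rw [inv_pow]
      refine eq_inv_of_mul_eq_one_left ?_
      calc nn x * nn y * (Real.cos (Real.arctan ‖x‖) * Real.cos (Real.arctan ‖y‖)) ^ 2
          = (nn x * Real.cos (Real.arctan ‖x‖) ^ 2) *
            (nn y * Real.cos (Real.arctan ‖y‖) ^ 2) := by ring
        _ = 1 := by rw [h2, h3, one_mul]
    rw [h1, Real.sqrt_sq (by positivity)]
  have hadd : Real.cos (Real.arctan ‖x‖ + Real.arctan ‖y‖) =
      (1 - ‖x‖ * ‖y‖) * (Real.cos (Real.arctan ‖x‖) * Real.cos (Real.arctan ‖y‖)) := by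
    rw [Real.cos_add, hsa, hsb]
    ring
  have hcos : Real.cos ((r + s) / 2) ≤ Real.cos (Real.arctan ‖x‖ + Real.arctan ‖y‖) :=
    Real.cos_le_cos_of_nonneg_of_le_pi (by positivity) (by linarith) (by linarith)
  have hpos : 0 < Real.cos (Real.arctan ‖x‖ + Real.arctan ‖y‖) :=
    Real.cos_pos_of_mem_Ioo ⟨by linarith [Real.pi_pos], by linarith⟩
  have hqq : 1 - ‖x‖ * ‖y‖ ≤ qq x y := by
    unfold qq
    have := real_inner_le_norm x y
    linarith
  have hP : 0 < Real.cos (Real.arctan ‖x‖) * Real.cos (Real.arctan ‖y‖) := mul_pos hca hcb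
  rw [hadd] at hpos hcos
  have h1 : 0 < 1 - ‖x‖ * ‖y‖ := by
    by_contra h
    push Not at h
    nlinarith
  refine ⟨lt_of_lt_of_le h1 hqq, ?_⟩
  rw [hsq, mul_inv_le_iff₀ hP]
  refine hcos.trans ?_
  exact mul_le_mul_of_nonneg_right hqq hP.le

end Pool.Agent.Lib.H68L
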