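import Pool.Agent.Lib.H68L.Defs

open MeasureTheory Set Matrix Filter Topology

namespace Pool.Agent.Lib.H68L

variable {X Y : Type*} [MetricSpace X] [CompactSpace X] [Nonempty X]
  [MetricSpace Y] [CompactSpace Y] [Nonempty Y]

theorem t01_aux_cont {K : X → Y → ℝ} (hK : Continuous fun p : X × Y => K p.1 p.2) {v : Y → ℝ}
    (hv : Continuous v) (x : X) : Continuous fun y => K x y - v y := by
  have h1 : Continuous fun y : Y => K x y :=
    hK.comp (Continuous.prodMk continuous_const continuous_id)
  exact h1.sub hv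

theorem t01_aux_bdd {K : X → Y → ℝ} (hK : Continuous fun p : X × Y => K p.1 p.2) {v : Y → ℝ}
    (hv : Continuous v) (x : X) : BddBelow (range fun y => K x y - v y) :=
  (isCompact_range (t01_aux_cont hK hv x)).bddBelow

/-- Proof. The function `y ↦ K x y - v y` is continuous on the compact space `Y`, so its infimum is
attained (`IsCompact.exists_isMinOn isCompact_univ`); it is then the infimum (`ciInf_le`, `le_ciInf`,
the range is bounded below). -/
theorem t01_att {K : X → Y → ℝ} (hK : Continuous fun p : X × Y => K p.1 p.2) {v : Y → ℝ}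
    (hv : Continuous v) (x : X) : ∃ y, ctr K v x = K x y - v y := by
  obtain ⟨y, -, hy⟩ := isCompact_univ.exists_isMinOn (Set.univ_nonempty)
    (t01_aux_cont hK hv x).continuousOn
  refine ⟨y, le_antisymm (ciInf_le (t01_aux_bdd hK hv x) y) (le_ciInf fun z => ?_)⟩
  exact hy (Set.mem_univ z)


/-- Proof. `ciInf_le`; the range is bounded below (compactness). -/
theorem t01_le {K : X → Y → ℝ} (hK : Continuous fun p : X × Y => K p.1 p.2) {v : Y → ℝ}
    (hv : Continuous v) (x : X) (y : Y) : ctr K v x ≤ K x y - v y := by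
  exact ciInf_le (t01_aux_bdd hK hv x) y


omit [MetricSpace X] [CompactSpace X] [Nonempty X] [MetricSpace Y] [CompactSpace Y] in
/-- Proof. `le_ciInf`. -/
theorem t01_ge {K : X → Y → ℝ} {v : Y → ℝ} {x : X} {c : ℝ} (h : ∀ y, c ≤ K x y - v y) :
    c ≤ ctr K v x := by
  exact le_ciInf h


/-- Proof. From `t01_att`, `t01_le`, `t01_ge` (or `ciInf` and addition of a constant). -/
theorem t01_shift {K : X → Y → ℝ} (hK : Continuous fun p : X × Y => K p.1 p.2) {v : Y → ℝ}
    (hv : Continuous v) (c : ℝ) (x : X) : ctr K (fun y => v y + c) x = ctr K v x - c := by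
  have hv' : Continuous fun y => v y + c := hv.add continuous_const
  apply le_antisymm
  · obtain ⟨y, hy⟩ := t01_att hK hv x
    have := t01_le hK hv' x y
    rw [hy]
    linarith
  · apply t01_ge
    intro y
    have := t01_le hK hv x y
    linarith


/-- Proof. For every `y`: `ctr K v' x ≤ K x y - v' y ≤ K x y - v y`; `t01_ge`. -/
theorem t01_anti {K : X → Y → ℝ} (hK : Continuous fun p : X × Y => K p.1 p.2) {v v' : Y → ℝ}
    (hv' : Continuous v') (h : ∀ y, v y ≤ v' y) (x : X) : ctr K v' x ≤ ctr K v x := by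
  apply t01_ge
  intro y
  have := t01_le hK hv' x y
  have := h y
  linarith


/-- Proof. For every `y`: `ctr K v x ≤ K x y - v y ≤ K x y - v' y + ε`, so
`ctr K v x - ε ≤ ctr K v' x` (`t01_ge`); symmetrically. -/
theorem t01_lip {K : X → Y → ℝ} (hK : Continuous fun p : X × Y => K p.1 p.2) {v v' : Y → ℝ}
    (hv : Continuous v) (hv' : Continuous v') {ε : ℝ} (h : ∀ y, |v y - v' y| ≤ ε) (x : X) :
    |ctr K v x - ctr K v' x| ≤ ε := by
  rw [abs_le]
  constructor
  · have h1 : ctr K v' x - ε ≤ ctr K v x := by
      apply t01_ge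
      intro y
      have h2 := t01_le hK hv' x y
      have h3 := abs_le.1 (h y)
      linarith [h3.1, h3.2]
    linarith
  · have h1 : ctr K v x - ε ≤ ctr K v' x := by
      apply t01_ge
      intro y
      have h2 := t01_le hK hv x y
      have h3 := abs_le.1 (h y)
      linarith [h3.1, h3.2]
    linarith


/-- Proof. If `|K x y - K x' y| ≤ ε` for all `y`, then
`ctr K v x ≤ K x y - v y ≤ K x' y - v y + ε` for all `y`; `t01_ge`; symmetrically. -/
theorem t01_lip' {K : X → Y → ℝ} (hK : Continuous fun p : X × Y => K p.1 p.2) {v : Y → ℝ}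
    (hv : Continuous v) {x x' : X} {ε : ℝ} (h : ∀ y, |K x y - K x' y| ≤ ε) :
    |ctr K v x - ctr K v x'| ≤ ε := by
  rw [abs_le]
  constructor
  · have h1 : ctr K v x' - ε ≤ ctr K v x := by
      apply t01_ge
      intro y
      have h2 := t01_le hK hv x' y
      have h3 := abs_le.1 (h y)
      linarith [h3.1, h3.2]
    linarith
  · have h1 : ctr K v x - ε ≤ ctr K v x' := by
      apply t01_ge
      intro y
      have h2 := t01_le hK hv x y
      have h3 := abs_le.1 (h y)
      linarith [h3.1, h3.2]
    linarith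


end Pool.Agent.Lib.H68L
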