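import Pool.Agent.Lib.H68L.T01

open MeasureTheory Set Matrix Filter Topology

namespace Pool.Agent.Lib.H68L

variable {X Y : Type*} [MetricSpace X] [CompactSpace X] [Nonempty X]
  [MetricSpace Y] [CompactSpace Y] [Nonempty Y]

/-- Uniform continuity of the cost.

Proof. `K` (as a function on the compact metric space `X × Y`) is uniformly continuous
(`CompactSpace.uniformContinuous_of_continuous`), and
`dist (x, y) (x', y) = dist x x'`. -/
theorem t02_unif {K : X → Y → ℝ} (hK : Continuous fun p : X × Y => K p.1 p.2) {ε : ℝ} (hε : 0 < ε) :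
    ∃ δ > 0, ∀ x x' : X, dist x x' < δ → ∀ y, |K x y - K x' y| ≤ ε := by
  have hu := CompactSpace.uniformContinuous_of_continuous hK
  rw [Metric.uniformContinuous_iff] at hu
  obtain ⟨δ, hδ, h⟩ := hu ε hε
  refine ⟨δ, hδ, fun x x' hx y => ?_⟩
  have h1 : dist (x, y) (x', y) < δ := by
    rw [Prod.dist_eq]
    simpa using hx
  have h2 := h h1
  rw [Real.dist_eq] at h2
  exact h2.le


/-- Proof. `t02_unif` and `t01_lip'`, `Metric.continuous_iff`. -/
theorem t02_cont {K : X → Y → ℝ} (hK : Continuous fun p : X × Y => K p.1 p.2) {v : Y → ℝ}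
    (hv : Continuous v) : Continuous (ctr K v) := by
  rw [Metric.continuous_iff]
  intro x ε hε
  obtain ⟨δ, hδ, h⟩ := t02_unif hK (half_pos hε)
  refine ⟨δ, hδ, fun a ha => ?_⟩
  rw [Real.dist_eq]
  have h1 := t01_lip' hK hv (h a x ha)
  linarith


/-- Proof. For all `x`: `v y ≤ K x y - ctr K v x` by `t01_le`; `t01_ge` for the transposed
cost. -/
theorem t02_le {K : X → Y → ℝ} (hK : Continuous fun p : X × Y => K p.1 p.2) {v : Y → ℝ}
    (hv : Continuous v) (y : Y) : v y ≤ ctr (fun y x => K x y) (ctr K v) y := by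
  apply t01_ge
  intro x
  have := t01_le hK hv x y
  linarith


/-- Proof. `≥`: `t02_le` for the transposed cost and the function `ctr K v`. `≤`: `t02_le` and
`t01_anti` (`ctr K` reverses the order). All functions are continuous (`t02_cont`; the transposed
cost is continuous: compose with `Prod.swap`). -/
theorem t02_triple {K : X → Y → ℝ} (hK : Continuous fun p : X × Y => K p.1 p.2) {v : Y → ℝ}
    (hv : Continuous v) (x : X) :
    ctr K (ctr (fun y x => K x y) (ctr K v)) x = ctr K v x := by
  have hKt : Continuous fun p : Y × X => (fun y x => K x y) p.1 p.2 :=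
    hK.comp continuous_swap
  have hc := t02_cont hK hv
  apply le_antisymm
  · exact t01_anti hK (t02_cont hKt hc) (fun y => t02_le hK hv y) x
  · exact t02_le hKt hc x


end Pool.Agent.Lib.H68L
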