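import Pool.Agent.Lib.H68L.T02

open MeasureTheory Set Matrix Filter Topology

namespace Pool.Agent.Lib.H68L

variable {X Y : Type*} [MetricSpace X] [CompactSpace X] [Nonempty X]
  [MetricSpace Y] [CompactSpace Y] [Nonempty Y]

theorem t03 {K : X → Y → ℝ} (hK : Continuous fun p : X × Y => K p.1 p.2) :
    ∃ 𝒮 : Set (BoundedContinuousFunction Y ℝ), IsCompact 𝒮 ∧
      ∀ v : Y → ℝ, Continuous v → ∃ f ∈ 𝒮, ∃ c : ℝ,
        ∀ y, f y = ctr (fun y x => K x y) (ctr K v) y - c := by
  have hK' : Continuous fun p : Y × X => (fun y x => K x y) p.1 p.2 := hK.comp continuous_swap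
  obtain ⟨y0⟩ := (inferInstance : Nonempty Y)
  obtain ⟨M0, hM0⟩ : ∃ M0 : ℝ, ∀ x y, |K x y| ≤ M0 := by
    obtain ⟨C, hC⟩ := isCompact_univ.exists_bound_of_continuousOn
      (f := fun p : X × Y => K p.1 p.2) hK.continuousOn
    exact ⟨C, fun x y => by simpa using hC (x, y) (mem_univ _)⟩
  let 𝒮 : Set (BoundedContinuousFunction Y ℝ) :=
    {f | f y0 = 0 ∧ ∀ y y' : Y, ∀ M : ℝ, (∀ x, |K x y - K x y'| ≤ M) → |f y - f y'| ≤ M}
  refine ⟨𝒮, ?_, ?_⟩
  · have hev : ∀ y : Y, Continuous fun f : BoundedContinuousFunction Y ℝ => f y := fun y =>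
      (BoundedContinuousFunction.evalCLM ℝ y).continuous
    have hcl : IsClosed 𝒮 := by
      have e : 𝒮 = {f | f y0 = 0} ∩ ⋂ (y : Y) (y' : Y) (M : ℝ) (_ : ∀ x, |K x y - K x y'| ≤ M),
          {f | |f y - f y'| ≤ M} := by
        ext f
        simp only [𝒮, mem_ofPred_eq, mem_inter_iff, mem_iInter]
      rw [e]
      refine IsClosed.inter ?_ ?_
      · exact isClosed_eq (hev y0) continuous_const
      · refine isClosed_iInter fun y => isClosed_iInter fun y' => isClosed_iInter fun M =>
          isClosed_iInter fun _ => ?_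
        exact isClosed_le (((hev y).sub (hev y')).abs) continuous_const
    refine BoundedContinuousFunction.arzela_ascoli₂ (Icc (-(2 * M0)) (2 * M0)) isCompact_Icc 𝒮
      hcl ?_ ?_
    · rintro f y ⟨h0, h1⟩
      have h2 := h1 y y0 (2 * M0) (fun x => by
        have a1 := abs_le.1 (hM0 x y)
        have a2 := abs_le.1 (hM0 x y0)
        rw [abs_le]
        constructor <;> linarith [a1.1, a1.2, a2.1, a2.2])
      rw [h0, sub_zero, abs_le] at h2
      exact h2
    · intro y
      rw [Metric.equicontinuousAt_iff]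
      intro ε hε
      obtain ⟨δ, hδ, h⟩ := t02_unif (K := fun y x => K x y) hK' (half_pos hε)
      refine ⟨δ, hδ, fun y' hy' f => ?_⟩
      have h3 := f.2.2 y y' (ε / 2) (fun x => h y y' (by rwa [dist_comm]) x)
      rw [Real.dist_eq]
      have : |(f : BoundedContinuousFunction Y ℝ) y - (f : BoundedContinuousFunction Y ℝ) y'| < ε := by
        linarith
      exact this
  · intro v hv
    have hu := t02_cont hK hv
    have hw : Continuous (ctr (fun y x => K x y) (ctr K v)) := t02_cont hK' hu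
    refine ⟨BoundedContinuousFunction.mkOfCompact
      ⟨fun y => ctr (fun y x => K x y) (ctr K v) y - ctr (fun y x => K x y) (ctr K v) y0,
        hw.sub continuous_const⟩, ⟨?_, ?_⟩, ctr (fun y x => K x y) (ctr K v) y0, fun y => rfl⟩
    · simp
    · intro y y' M hM
      have := t01_lip' (K := fun y x => K x y) hK' hu (x := y) (x' := y') (ε := M) hM
      simpa using this

end Pool.Agent.Lib.H68L
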