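import Pool.Agent.Lib.H68L.T03

open MeasureTheory Set Matrix Filter Topology

namespace Pool.Agent.Lib.H68L

variable {X Y : Type*} [MetricSpace X] [CompactSpace X] [Nonempty X]
  [MetricSpace Y] [CompactSpace Y] [Nonempty Y]
  [MeasurableSpace X] [BorelSpace X] [MeasurableSpace Y] [BorelSpace Y]

/-- Kantorovich potentials.

Proof. Let `J v = ∫ ctr K v dα + ∫ v dβ`. All integrands are continuous on compact spaces, hence
integrable (`Continuous.integrable_of_hasCompactSupport`, or bounded and measurable for finite
measures). `J` is continuous on bounded continuous functions: `|J f - J g| ≤ 2 ‖f - g‖`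
(`t01_lip`, probability measures). Let `𝒮` be as in `t03`, it is nonempty; `J` attains its
maximum on `𝒮` at some `f` (`IsCompact.exists_isMaxOn`). Put `v = ctr Kᵗ (ctr K f)`. Then
`ctr K v = ctr K f` (`t02_triple`), so `ctr Kᵗ (ctr K v) = v`, and `f ≤ v` (`t02_le`), so
`J f ≤ J v`. For a continuous `v'` let `f' = ctr Kᵗ (ctr K v') - c ∈ 𝒮`. Then `f' ≥ v' - c` and
`ctr K f' = ctr K v' + c` (`t01_shift`, `t02_triple`), so `J v' ≤ J f' ≤ J f ≤ J v`. -/
theorem t04 {K : X → Y → ℝ} (hK : Continuous fun p : X × Y => K p.1 p.2)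
    (α : Measure X) [IsProbabilityMeasure α] (β : Measure Y) [IsProbabilityMeasure β] :
    ∃ v : Y → ℝ, Continuous v ∧ ctr (fun y x => K x y) (ctr K v) = v ∧
      ∀ v' : Y → ℝ, Continuous v' →
        ∫ x, ctr K v' x ∂α + ∫ y, v' y ∂β ≤ ∫ x, ctr K v x ∂α + ∫ y, v y ∂β := by
  classical
  have hKt : Continuous fun p : Y × X => (fun y x => K x y) p.1 p.2 :=
    hK.comp continuous_swap
  have hintX : ∀ f : X → ℝ, Continuous f → Integrable f α := fun f hf =>
    hf.integrable_of_hasCompactSupport (HasCompactSupport.of_compactSpace f)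
  have hintY : ∀ f : Y → ℝ, Continuous f → Integrable f β := fun f hf =>
    hf.integrable_of_hasCompactSupport (HasCompactSupport.of_compactSpace f)
  obtain ⟨𝒮, hS, hS2⟩ := t03 hK
  set J : (Y → ℝ) → ℝ := fun v => ∫ x, ctr K v x ∂α + ∫ y, v y ∂β with hJ
  have hJc : Continuous fun f : BoundedContinuousFunction Y ℝ => J f := by
    rw [Metric.continuous_iff]
    intro g ε hε
    refine ⟨ε / 4, by positivity, fun f hf => ?_⟩
    have hfg : ∀ y, |f y - g y| ≤ ε / 4 := fun y => by
      have := BoundedContinuousFunction.dist_coe_le_dist (f := f) (g := g) y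
      rw [Real.dist_eq] at this
      linarith
    have h1 : |∫ x, ctr K f x ∂α - ∫ x, ctr K g x ∂α| ≤ ε / 4 := by
      rw [← integral_sub (hintX _ (t02_cont hK f.continuous)) (hintX _ (t02_cont hK g.continuous))]
      have := norm_integral_le_of_norm_le_const (μ := α) (f := fun x => ctr K f x - ctr K g x)
        (C := ε / 4) (Filter.Eventually.of_forall fun x => by
          rw [Real.norm_eq_abs]
          exact t01_lip hK f.continuous g.continuous hfg x)
      simpa using this
    have h2 : |∫ y, f y ∂β - ∫ y, g y ∂β| ≤ ε / 4 := by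
      rw [← integral_sub (hintY _ f.continuous) (hintY _ g.continuous)]
      have := norm_integral_le_of_norm_le_const (μ := β) (f := fun y => f y - g y)
        (C := ε / 4) (Filter.Eventually.of_forall fun y => by
          rw [Real.norm_eq_abs]
          exact hfg y)
      simpa using this
    rw [Real.dist_eq, hJ]
    have h3 := abs_le.1 h1
    have h4 := abs_le.1 h2
    rw [abs_lt]
    constructor <;> simp only <;> linarith [h3.1, h3.2, h4.1, h4.2]
  have hne : 𝒮.Nonempty := by
    obtain ⟨f, hf, -⟩ := hS2 (fun _ => 0) continuous_const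
    exact ⟨f, hf⟩
  obtain ⟨f, hf, hmax⟩ := hS.exists_isMaxOn hne hJc.continuousOn
  have hcf : Continuous (ctr K f) := t02_cont hK f.continuous
  have hcv : Continuous (ctr (fun y x => K x y) (ctr K f)) := t02_cont hKt hcf
  have htr : ctr K (ctr (fun y x => K x y) (ctr K f)) = ctr K f := by
    funext x
    exact t02_triple hK f.continuous x
  refine ⟨ctr (fun y x => K x y) (ctr K f), hcv, by rw [htr], fun v' hv' => ?_⟩
  obtain ⟨g, hg, c, hgc⟩ := hS2 v' hv'
  have hcv' : Continuous (ctr K v') := t02_cont hK hv'
  have hcc' : Continuous (ctr (fun y x => K x y) (ctr K v')) := t02_cont hKt hcv'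
  have h1 : J v' ≤ J g := by
    have e1 : ∀ x, ctr K g x = ctr K v' x + c := by
      intro x
      have e2 : (g : Y → ℝ) = fun y => ctr (fun y x => K x y) (ctr K v') y + (-c) := by
        funext y
        rw [hgc y]
        ring
      rw [e2, t01_shift hK hcc' (-c) x, t02_triple hK hv' x]
      ring
    have e3 : ∫ x, ctr K g x ∂α = ∫ x, ctr K v' x ∂α + c := by
      simp_rw [e1]
      rw [integral_add (hintX _ hcv') (integrable_const c)]
      simp
    have e4 : ∫ y, v' y ∂β ≤ ∫ y, g y ∂β + c := by
      have e5 : ∫ y, g y ∂β + c = ∫ y, (g y + c) ∂β := by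
        rw [integral_add (hintY _ g.continuous) (integrable_const c)]
        simp
      rw [e5]
      refine integral_mono (hintY _ hv') (hintY _ (g.continuous.add continuous_const)) fun y => ?_
      have e6 := t02_le hK hv' y
      have e7 := hgc y
      simp only
      linarith
    simp only [hJ]
    linarith
  have h2 : J g ≤ J f := hmax hg
  have h3 : J f ≤ J (ctr (fun y x => K x y) (ctr K f)) := by
    have e1 : ∫ y, f y ∂β ≤ ∫ y, ctr (fun y x => K x y) (ctr K f) y ∂β :=
      integral_mono (hintY _ f.continuous) (hintY _ hcv) fun y => t02_le hK f.continuous y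
    simp only [hJ]
    rw [htr]
    linarith
  exact (h1.trans h2).trans h3


end Pool.Agent.Lib.H68L
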