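import Pool.Agent.Lib.H68L.T02

open MeasureTheory Set Matrix Filter Topology

namespace Pool.Agent.Lib.H68L

variable {X Y : Type*} [MetricSpace X] [CompactSpace X] [Nonempty X]
  [MetricSpace Y] [CompactSpace Y] [Nonempty Y]

theorem t05_bound {K : X → Y → ℝ} (hK : Continuous fun p : X × Y => K p.1 p.2) {v f : Y → ℝ}
    (hv : Continuous v) (hf : Continuous f) {C : ℝ} (hC : ∀ y, |f y| ≤ C) {ε : ℝ} (hε : 0 < ε)
    (x : X) : |(ctr K (fun y => v y + ε * f y) x - ctr K v x) / ε| ≤ C := by
  have h1 : |ctr K (fun y => v y + ε * f y) x - ctr K v x| ≤ ε * C := by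
    apply t01_lip hK (hv.add (continuous_const.mul hf)) hv
    intro y
    show |v y + ε * f y - v y| ≤ ε * C
    have : v y + ε * f y - v y = ε * f y := by ring
    rw [this, abs_mul, abs_of_pos hε]
    exact mul_le_mul_of_nonneg_left (hC y) hε.le
  rw [abs_div, abs_of_pos hε, div_le_iff₀ hε]
  linarith

theorem t05_conv {K : X → Y → ℝ} (hK : Continuous fun p : X × Y => K p.1 p.2) {v f : Y → ℝ}
    (hv : Continuous v) (hf : Continuous f) {x : X} {y0 : Y}
    (h : ∀ y, y ≠ y0 → K x y0 - v y0 < K x y - v y) :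
    Tendsto (fun ε : ℝ => (ctr K (fun y => v y + ε * f y) x - ctr K v x) / ε) (𝓝[>] 0)
      (𝓝 (-f y0)) := by
  have hKx : Continuous fun y => K x y := hK.comp (Continuous.prodMk_right x)
  have hmin : ctr K v x = K x y0 - v y0 := by
    apply le_antisymm (t01_le hK hv x y0)
    apply t01_ge
    intro y
    by_cases hy : y = y0
    · rw [hy]
    · exact (h y hy).le
  obtain ⟨C, hC⟩ : ∃ C : ℝ, ∀ y, |f y| ≤ C := by
    obtain ⟨C, hC⟩ := isCompact_univ.exists_bound_of_continuousOn (f := f) hf.continuousOn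
    exact ⟨C, fun y => by simpa using hC y (mem_univ y)⟩
  have hC0 : 0 ≤ C := le_trans (abs_nonneg _) (hC y0)
  rw [Metric.tendsto_nhds]
  intro η hη
  -- the bad set
  have hbad : ∃ m > 0, ∀ y, f y0 + η / 2 ≤ f y → m ≤ K x y - v y - (K x y0 - v y0) := by
    by_cases hne : ({y | f y0 + η / 2 ≤ f y} : Set Y).Nonempty
    · have hcl : IsCompact ({y | f y0 + η / 2 ≤ f y} : Set Y) :=
        (isClosed_le continuous_const hf).isCompact
      obtain ⟨y1, hy1, hy1'⟩ := hcl.exists_isMinOn hne
        ((hKx.sub hv).sub continuous_const : Continuous fun y => K x y - v y - (K x y0 - v y0)).continuousOn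
      refine ⟨K x y1 - v y1 - (K x y0 - v y0), ?_, fun y hy => hy1' hy⟩
      have : y1 ≠ y0 := by
        intro he
        rw [he] at hy1
        simp only [mem_ofPred_eq] at hy1
        linarith
      have := h y1 this
      show 0 < _
      linarith
    · refine ⟨1, one_pos, fun y hy => absurd ⟨y, hy⟩ hne⟩
  obtain ⟨m, hm, hbad⟩ := hbad
  have hev : ∀ᶠ ε : ℝ in 𝓝[>] 0, ε < m / (2 * C + 1) := by
    apply Filter.eventually_of_mem (Ioo_mem_nhdsGT (show (0:ℝ) < m / (2 * C + 1) by positivity))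
    intro ε hε
    exact hε.2
  filter_upwards [hev, self_mem_nhdsWithin] with ε h1 h2
  have hε : 0 < ε := h2
  have hvc : Continuous fun y => v y + ε * f y := hv.add (continuous_const.mul hf)
  obtain ⟨y1, hy1⟩ := t01_att hK hvc x
  have hup : ctr K (fun y => v y + ε * f y) x ≤ K x y0 - (v y0 + ε * f y0) := t01_le hK hvc x y0
  have hlow : ctr K v x ≤ K x y1 - v y1 := t01_le hK hv x y1
  have hf1 : f y1 < f y0 + η / 2 := by
    by_contra hcon
    push Not at hcon
    have h3 := hbad y1 hcon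
    have h4 := (abs_le.1 (hC y1)).2
    have h5 := (abs_le.1 (hC y0)).1
    have h6 : K x y1 - v y1 - (K x y0 - v y0) ≤ ε * (f y1 - f y0) := by
      rw [hy1] at hup
      linarith
    have h7 : ε * (f y1 - f y0) ≤ ε * (2 * C) := mul_le_mul_of_nonneg_left (by linarith) hε.le
    have h8 : ε * (2 * C + 1) < m := by
      rwa [lt_div_iff₀ (by positivity)] at h1
    nlinarith
  have e1 : (ctr K (fun y => v y + ε * f y) x - ctr K v x) / ε ≤ - f y0 := by
    rw [div_le_iff₀ hε, hmin]
    linarith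
  have e2 : - f y1 ≤ (ctr K (fun y => v y + ε * f y) x - ctr K v x) / ε := by
    rw [le_div_iff₀ hε, hy1]
    linarith
  rw [Real.dist_eq, abs_lt]
  constructor <;> linarith

end Pool.Agent.Lib.H68L
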