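import Pool.Agent.Lib.H68L.T05

open MeasureTheory Set Matrix Filter Topology

namespace Pool.Agent.Lib.H68L

variable {X Y : Type*} [MetricSpace X] [CompactSpace X] [Nonempty X]
  [MetricSpace Y] [CompactSpace Y] [Nonempty Y]
  [MeasurableSpace X] [BorelSpace X] [MeasurableSpace Y] [BorelSpace Y]

/-- One inequality of the first variation.

Proof. `f` is bounded by some `C` (compactness). For `ε > 0` the hypothesis `hmax` with
`v' = v + ε f` gives `∫ (ctr K (v + ε f) - ctr K v)/ε dα + ∫ f dβ ≤ 0` (linearity; everything is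
continuous on compact spaces, so integrable). For `ε = 1/(n+1)` the integrands are bounded by `C`
(`t05_bound`) and converge to `-f (F x)` for almost all `x` (`t05_conv`; `1/(n+1) → 0` within
`(0, ∞)`). Dominated convergence (`tendsto_integral_of_dominated_convergence`) gives
`-∫ f (F x) dα + ∫ f dβ ≤ 0` (`le_of_tendsto`). -/
theorem t06_le {K : X → Y → ℝ} (hK : Continuous fun p : X × Y => K p.1 p.2)
    (α : Measure X) [IsProbabilityMeasure α] (β : Measure Y) [IsProbabilityMeasure β] {v : Y → ℝ}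
    (hv : Continuous v)
    (hmax : ∀ v' : Y → ℝ, Continuous v' →
        ∫ x, ctr K v' x ∂α + ∫ y, v' y ∂β ≤ ∫ x, ctr K v x ∂α + ∫ y, v y ∂β)
    {F : X → Y} (hF : Measurable F)
    (hF' : ∀ᵐ x ∂α, ∀ y, y ≠ F x → K x (F x) - v (F x) < K x y - v y)
    {f : Y → ℝ} (hf : Continuous f) : ∫ y, f y ∂β ≤ ∫ x, f (F x) ∂α := by
  obtain ⟨C, hC⟩ : ∃ C, ∀ y, |f y| ≤ C := by
    obtain ⟨C, hC⟩ := (isCompact_range hf).isBounded.exists_norm_le
    exact ⟨C, fun y => hC _ ⟨y, rfl⟩⟩
  have hic : ∀ {g : X → ℝ}, Continuous g → Integrable g α := fun hg =>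
    hg.integrable_of_hasCompactSupport (HasCompactSupport.of_compactSpace _)
  have hic' : ∀ {g : Y → ℝ}, Continuous g → Integrable g β := fun hg =>
    hg.integrable_of_hasCompactSupport (HasCompactSupport.of_compactSpace _)
  -- the difference quotients
  set g : ℕ → X → ℝ := fun n x =>
    (ctr K (fun y => v y + (1 / ((n : ℝ) + 1)) * f y) x - ctr K v x) / (1 / ((n : ℝ) + 1)) with hg
  have hcont : ∀ n : ℕ, Continuous (fun y => v y + (1 / ((n : ℝ) + 1)) * f y) := fun n =>
    hv.add (continuous_const.mul hf)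
  have hgc : ∀ n, Continuous (g n) := fun n =>
    ((t02_cont hK (hcont n)).sub (t02_cont hK hv)).div_const _
  have hpos : ∀ n : ℕ, (0 : ℝ) < 1 / ((n : ℝ) + 1) := fun n => Nat.one_div_pos_of_nat
  have hineq : ∀ n, ∫ x, g n x ∂α ≤ -∫ y, f y ∂β := by
    intro n
    have h1 := hmax _ (hcont n)
    have h2 : ∫ y, (v y + (1 / ((n : ℝ) + 1)) * f y) ∂β
        = ∫ y, v y ∂β + (1 / ((n : ℝ) + 1)) * ∫ y, f y ∂β := by
      rw [integral_add (hic' hv) ((hic' hf).const_mul _), integral_const_mul]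
    have h3 : ∫ x, g n x ∂α
        = (∫ x, ctr K (fun y => v y + (1 / ((n : ℝ) + 1)) * f y) x ∂α - ∫ x, ctr K v x ∂α)
          / (1 / ((n : ℝ) + 1)) := by
      rw [← integral_sub (hic (t02_cont hK (hcont n))) (hic (t02_cont hK hv)), ← integral_div]
    rw [h3, div_le_iff₀ (hpos n)]
    rw [h2] at h1
    linarith
  have hlim : Tendsto (fun n => ∫ x, g n x ∂α) atTop (𝓝 (∫ x, -f (F x) ∂α)) := by
    refine tendsto_integral_of_dominated_convergence (fun _ => C)
      (fun n => (hgc n).aestronglyMeasurable) (integrable_const C) ?_ ?_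
    · intro n
      refine Eventually.of_forall fun x => ?_
      rw [Real.norm_eq_abs]
      exact t05_bound hK hv hf hC (hpos n) x
    · filter_upwards [hF'] with x hx
      have h1 := t05_conv hK hv hf hx
      have h2 : Tendsto (fun n : ℕ => (1 : ℝ) / ((n : ℝ) + 1)) atTop (𝓝[>] 0) :=
        tendsto_nhdsWithin_iff.2 ⟨tendsto_one_div_add_atTop_nhds_zero_nat,
          Eventually.of_forall fun n => hpos n⟩
      exact h1.comp h2
  have h4 := le_of_tendsto hlim (Eventually.of_forall hineq)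
  rw [integral_neg] at h4
  linarith

/-- Proof. `t06_le` for `f` and for `-f`. -/
theorem t06_eq {K : X → Y → ℝ} (hK : Continuous fun p : X × Y => K p.1 p.2)
    (α : Measure X) [IsProbabilityMeasure α] (β : Measure Y) [IsProbabilityMeasure β] {v : Y → ℝ}
    (hv : Continuous v)
    (hmax : ∀ v' : Y → ℝ, Continuous v' →
        ∫ x, ctr K v' x ∂α + ∫ y, v' y ∂β ≤ ∫ x, ctr K v x ∂α + ∫ y, v y ∂β)
    {F : X → Y} (hF : Measurable F)
    (hF' : ∀ᵐ x ∂α, ∀ y, y ≠ F x → K x (F x) - v (F x) < K x y - v y)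
    {f : Y → ℝ} (hf : Continuous f) : ∫ x, f (F x) ∂α = ∫ y, f y ∂β := by
  refine le_antisymm ?_ (t06_le hK α β hv hmax hF hF' hf)
  have h := t06_le hK α β hv hmax hF hF' hf.neg
  simp only [Pi.neg_apply] at h
  rw [integral_neg, integral_neg] at h
  linarith

end Pool.Agent.Lib.H68L
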