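import Pool.Agent.Lib.H68L.T04
import Pool.Agent.Lib.H68L.T06

open MeasureTheory Set Matrix Filter Topology

namespace Pool.Agent.Lib.H68L

variable {X Y : Type*} [MetricSpace X] [CompactSpace X] [Nonempty X]
  [MetricSpace Y] [CompactSpace Y] [Nonempty Y]
  [MeasurableSpace X] [BorelSpace X] [MeasurableSpace Y] [BorelSpace Y]

/-- Proof. Two finite measures on a metric space with the same integrals of bounded continuous
functions are equal (`MeasureTheory.ext_of_forall_integral_eq_of_IsFiniteMeasure`);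
`integral_map`, `t06_eq`. -/
theorem t07_map {K : X → Y → ℝ} (hK : Continuous fun p : X × Y => K p.1 p.2)
    (α : Measure X) [IsProbabilityMeasure α] (β : Measure Y) [IsProbabilityMeasure β] {v : Y → ℝ}
    (hv : Continuous v)
    (hmax : ∀ v' : Y → ℝ, Continuous v' →
        ∫ x, ctr K v' x ∂α + ∫ y, v' y ∂β ≤ ∫ x, ctr K v x ∂α + ∫ y, v y ∂β)
    {F : X → Y} (hF : Measurable F)
    (hF' : ∀ᵐ x ∂α, ∀ y, y ≠ F x → K x (F x) - v (F x) < K x y - v y) :
    Measure.map F α = β := by
  refine ext_of_forall_integral_eq_of_IsFiniteMeasure fun f => ?_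
  rw [integral_map hF.aemeasurable f.continuous.aestronglyMeasurable]
  exact t06_eq hK α β hv hmax hF hF' f.continuous

/-- The abstract transport theorem.

Proof. Take `v` from `t04` and `u = ctr K v`. The first push-forward statement is `t07_map`. The
second one is `t07_map` for the transposed cost and the function `u`: the maximality of `u` is
`∫ ctr Kᵗ u' dβ + ∫ u' dα ≤ ∫ ctr Kᵗ u' dβ + ∫ ctr K (ctr Kᵗ u') dα ≤ ∫ v dβ + ∫ ctr K v dα =
∫ ctr Kᵗ u dβ + ∫ u dα` (`t02_le` for the transposed cost, `t04` for `v' = ctr Kᵗ u'`, and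
`v = ctr Kᵗ (ctr K v)`). -/
theorem t_main {K : X → Y → ℝ} (hK : Continuous fun p : X × Y => K p.1 p.2)
    (α : Measure X) [IsProbabilityMeasure α] (β : Measure Y) [IsProbabilityMeasure β] :
    ∃ (u : X → ℝ) (v : Y → ℝ), Continuous u ∧ Continuous v ∧ ctr K v = u ∧
      ctr (fun y x => K x y) u = v ∧
      (∀ F : X → Y, Measurable F →
        (∀ᵐ x ∂α, ∀ y, y ≠ F x → K x (F x) - v (F x) < K x y - v y) →
        Measure.map F α = β) ∧
      (∀ G : Y → X, Measurable G →
        (∀ᵐ y ∂β, ∀ x, x ≠ G y → K (G y) y - u (G y) < K x y - u x) →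
        Measure.map G β = α) := by
  obtain ⟨v, hv, hvv, hmax⟩ := t04 hK α β
  have hu : Continuous (ctr K v) := t02_cont hK hv
  have hKt : Continuous fun p : Y × X => (fun y x => K x y) p.1 p.2 := hK.comp continuous_swap
  refine ⟨ctr K v, v, hu, hv, rfl, hvv, fun F hF hF' => t07_map hK α β hv hmax hF hF', fun G hG hG' => ?_⟩
  refine t07_map (K := fun y x => K x y) hKt β α hu (fun u' hu' => ?_) hG hG'
  have h1 : Continuous (ctr (fun y x => K x y) u') := t02_cont hKt hu'
  have h2 := hmax _ h1
  have h3 : ∫ x, u' x ∂α ≤ ∫ x, ctr K (ctr (fun y x => K x y) u') x ∂α := by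
    refine integral_mono (hu'.integrable_of_hasCompactSupport (HasCompactSupport.of_compactSpace _))
      ((t02_cont hK h1).integrable_of_hasCompactSupport (HasCompactSupport.of_compactSpace _)) fun x => ?_
    exact t02_le (K := fun y x => K x y) hKt hu' x
  rw [hvv]
  linarith

end Pool.Agent.Lib.H68L
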