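import Pool.Agent.Lib.H68L.C07
import Pool.Agent.Lib.H68L.Q06
import Pool.Agent.Lib.H68L.Q07

open MeasureTheory Set Matrix Filter Topology
open Pool.Agent.Lib.H68S (SO3)
open scoped Pointwise

namespace Pool.Agent.Lib.H68L

variable [MeasurableSpace SO3] [BorelSpace SO3]

omit [MeasurableSpace SO3] [BorelSpace SO3] in
theorem z01_lim (c : ℝ) {u v : ℕ → ℝ} {a b : ℝ} (hu : Tendsto u atTop (𝓝 a))
    (hv : Tendsto v atTop (𝓝 b)) :
    Tendsto (fun n => Phi c (u n) (v n)) atTop (𝓝 (Phi c a b)) := by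
  have h1 : Continuous fun p : ℝ × ℝ => Phi c p.1 p.2 := j06_cont c
  have h2 : Tendsto (fun n => (u n, v n)) atTop (𝓝 (a, b)) := hu.prodMk_nhds hv
  have h3 : Tendsto (fun p : ℝ × ℝ => Phi c p.1 p.2) (𝓝 (a, b)) (𝓝 (Phi c (a, b).1 (a, b).2)) := h1.tendsto (a, b)
  generalize Phi c = F at *
  exact h3.comp h2

/-- Proof. `A0 = rot ⁻¹' A`, `B0 = rot ⁻¹' B` are open and nonempty (`rot_cont`; by `rot_surj` the
elements of `A` and `B` have coordinates: `1 + 2 cos r > -1` as `0 < r < π`). For compact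
`A1 ⊆ A0`, `B1 ⊆ B0` with `nu A1, nu B1 ≠ 0`, `c07` with `c0 = cos ((r + s)/2) ≥ 0`
(`q07_tan`, `q07_cos`) gives `Phi c0 (nu.real A1) (nu.real B1) ≤ nu.real (image2 op A1 B1)
≤ nu.real (rot ⁻¹' (A * B))` (`rot_op`, `qq > 0`; `A * B` is open). By inner regularity
(`IsOpen.exists_lt_isCompact` or `IsOpen.measure_eq_iSup_isCompact`) there are compact `A1`, `B1`
with `nu.real A1 → nu.real A0`, `nu.real B1 → nu.real B0`; `Phi c0` is continuous (`j06_cont`), so
`Phi c0 (nu.real A0) (nu.real B0) ≤ nu.real (rot ⁻¹' (A * B))`. Insert `q06` and divide by `κ`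
(`j06_hom`). -/
theorem z01 (μ : Measure SO3) (hμ : μ.IsHaarMeasure) (hp : IsProbabilityMeasure μ)
    {A B : Set SO3} (hA : IsOpen A) (hB : IsOpen B) (hA0 : A.Nonempty) (hB0 : B.Nonempty)
    {r s : ℝ} (hr : 0 < r) (hs : 0 < s) (hrs : r + s ≤ Real.pi)
    (hAr : ∀ x ∈ A, 1 + 2 * Real.cos r < x.1.trace)
    (hBs : ∀ y ∈ B, 1 + 2 * Real.cos s < y.1.trace) :
    Phi (Real.cos ((r + s) / 2)) (μ.real A) (μ.real B) ≤ μ.real (A * B) := by
  have hfin : IsFiniteMeasure nu := q03_fin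
  obtain ⟨κ, hκ, hκX⟩ := q06 μ hμ hp
  have hpi := Real.pi_pos
  have hrpi : r < Real.pi := by linarith
  have hspi : s < Real.pi := by linarith
  have hAo : IsOpen (rot ⁻¹' A) := hA.preimage rot_cont
  have hBo : IsOpen (rot ⁻¹' B) := hB.preimage rot_cont
  have hAn : (rot ⁻¹' A).Nonempty := by
    obtain ⟨g, hg⟩ := hA0
    have h1 := hAr g hg
    have h2 : -1 ≤ Real.cos r := Real.neg_one_le_cos r
    obtain ⟨x, hx⟩ := rot_surj g (by linarith)
    exact ⟨x, by rw [mem_preimage, hx]; exact hg⟩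
  have hBn : (rot ⁻¹' B).Nonempty := by
    obtain ⟨g, hg⟩ := hB0
    have h1 := hBs g hg
    have h2 : -1 ≤ Real.cos s := Real.neg_one_le_cos s
    obtain ⟨x, hx⟩ := rot_surj g (by linarith)
    exact ⟨x, by rw [mem_preimage, hx]; exact hg⟩
  have hapos : 0 < nu.real (rot ⁻¹' A) :=
    ENNReal.toReal_pos (q03_pos hAo hAn) (measure_ne_top _ _)
  have hbpos : 0 < nu.real (rot ⁻¹' B) :=
    ENNReal.toReal_pos (q03_pos hBo hBn) (measure_ne_top _ _)
  have hq : ∀ x ∈ rot ⁻¹' A, ∀ y ∈ rot ⁻¹' B, 0 < qq x y ∧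
      Real.cos ((r + s) / 2) * √(nn x * nn y) ≤ qq x y := by
    intro x hx y hy
    exact q07_cos hr hs hrs (q07_tan hr hrpi (hAr _ hx)) (q07_tan hs hspi (hBs _ hy))
  have hc0 : 0 ≤ Real.cos ((r + s) / 2) :=
    Real.cos_nonneg_of_neg_pi_div_two_le_of_le (by linarith) (by linarith)
  have hABo : IsOpen (A * B) := hB.mul_left
  have happrox : ∀ (O : Set E3), IsOpen O → 0 < nu.real O → ∀ n : ℕ, ∃ K ⊆ O, IsCompact K ∧
      nu K ≠ 0 ∧ nu.real O - 1 / ((n : ℝ) + 1) < nu.real K ∧ nu.real K ≤ nu.real O := by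
    intro O hO hpos n
    have hlt : max (nu.real O - 1 / ((n : ℝ) + 1)) 0 < nu.real O := by
      refine max_lt ?_ hpos
      have : (0 : ℝ) < 1 / ((n : ℝ) + 1) := by positivity
      linarith
    have h1 : ENNReal.ofReal (max (nu.real O - 1 / ((n : ℝ) + 1)) 0) < nu O := by
      rw [ENNReal.ofReal_lt_iff_lt_toReal (le_max_right _ _) (measure_ne_top _ _)]
      exact hlt
    obtain ⟨K, hKO, hK, hlt2⟩ := hO.exists_lt_isCompact h1
    rw [ENNReal.ofReal_lt_iff_lt_toReal (le_max_right _ _) (measure_ne_top _ _)] at hlt2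
    have h3 : 0 < nu.real K := lt_of_le_of_lt (le_max_right _ _) hlt2
    refine ⟨K, hKO, hK, ?_, lt_of_le_of_lt (le_max_left _ _) hlt2, measureReal_mono hKO⟩
    intro h0
    rw [Measure.real, h0] at h3
    simp at h3
  choose KA hKA1 hKA2 hKA3 hKA4 hKA5 using happrox _ hAo hapos
  choose KB hKB1 hKB2 hKB3 hKB4 hKB5 using happrox _ hBo hbpos
  have hstep : ∀ n : ℕ, Phi (Real.cos ((r + s) / 2)) (nu.real (KA n)) (nu.real (KB n)) ≤
      nu.real (rot ⁻¹' (A * B)) := by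
    intro n
    refine (c07 (hKA2 n) (hKB2 n) hfin (hKA3 n) (hKB3 n)
      (fun x hx y hy => (hq x (hKA1 n hx) y (hKB1 n hy)).1) hc0
      (fun x hx y hy => (hq x (hKA1 n hx) y (hKB1 n hy)).2)).trans ?_
    refine measureReal_mono ?_
    rintro _ ⟨x, hx, y, hy, rfl⟩
    rw [mem_preimage, rot_op (hq x (hKA1 n hx) y (hKB1 n hy)).1.ne']
    exact Set.mul_mem_mul (hKA1 n hx) (hKB1 n hy)
  have hone : Tendsto (fun n : ℕ => 1 / ((n : ℝ) + 1)) atTop (𝓝 0) :=
    tendsto_one_div_add_atTop_nhds_zero_nat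
  have htA : Tendsto (fun n => nu.real (KA n)) atTop (𝓝 (nu.real (rot ⁻¹' A))) := by
    refine tendsto_of_tendsto_of_tendsto_of_le_of_le (g := fun n : ℕ => nu.real (rot ⁻¹' A) -
      1 / ((n : ℝ) + 1)) ?_ tendsto_const_nhds (fun n => (hKA4 n).le) (fun n => hKA5 n)
    simpa using tendsto_const_nhds.sub hone
  have htB : Tendsto (fun n => nu.real (KB n)) atTop (𝓝 (nu.real (rot ⁻¹' B))) := by
    refine tendsto_of_tendsto_of_tendsto_of_le_of_le (g := fun n : ℕ => nu.real (rot ⁻¹' B) -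
      1 / ((n : ℝ) + 1)) ?_ tendsto_const_nhds (fun n => (hKB4 n).le) (fun n => hKB5 n)
    simpa using tendsto_const_nhds.sub hone
  have hlim := z01_lim (Real.cos ((r + s) / 2)) htA htB
  have hfinal : Phi (Real.cos ((r + s) / 2)) (nu.real (rot ⁻¹' A)) (nu.real (rot ⁻¹' B)) ≤
      nu.real (rot ⁻¹' (A * B)) := le_of_tendsto' hlim hstep
  rw [hκX A hA.measurableSet, hκX B hB.measurableSet, hκX (A * B) hABo.measurableSet,
    j06_hom measureReal_nonneg measureReal_nonneg hκ.le] at hfinal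
  exact le_of_mul_le_mul_left hfinal hκ

end Pool.Agent.Lib.H68L
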