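import Pool.Agent.Lib.H68L.Z01

open MeasureTheory Set Matrix Filter Topology
open Pool.Agent.Lib.H68S (SO3)
open scoped Pointwise

namespace Pool.Agent.Lib.H68L

variable [MeasurableSpace SO3] [BorelSpace SO3]

/-- Proof. Apply `z01` to `A' = {x | g * x ∈ A}` and `B' = {y | y * h ∈ B}`; `μ A' = μ A` and
`μ B' = μ B` (`measure_preimage_mul`; right invariance of `μ`: the instance `H68S.rinv` in
`Pool/Agent/Lib/H68S/Defs.lean`, `measure_preimage_mul_right`),
`A * B = {g * z * h | z ∈ A' * B'}`, so `μ (A * B) = μ (A' * B')` by both invariances. For `x ∈ A'`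
the trace of `g⁻¹ * (g * x) = x`; for `y ∈ B'`:
`trace (h⁻¹ * (y * h)) = trace y` (cyclicity, `Matrix.trace_mul_cycle` or `Matrix.trace_mul_comm`). -/
theorem z02 (μ : Measure SO3) (hμ : μ.IsHaarMeasure) (hp : IsProbabilityMeasure μ)
    {A B : Set SO3} (hA : IsOpen A) (hB : IsOpen B) (hA0 : A.Nonempty) (hB0 : B.Nonempty)
    (g h : SO3) {r s : ℝ} (hr : 0 < r) (hs : 0 < s) (hrs : r + s ≤ Real.pi)
    (hAr : ∀ x ∈ A, 1 + 2 * Real.cos r < (g⁻¹ * x).1.trace)
    (hBs : ∀ y ∈ B, 1 + 2 * Real.cos s < (h⁻¹ * y).1.trace) :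
    Phi (Real.cos ((r + s) / 2)) (μ.real A) (μ.real B) ≤ μ.real (A * B) := by
  have := hμ
  have := hp
  have hAm : μ.real ((fun x => g * x) ⁻¹' A) = μ.real A := by
    simp only [Measure.real, measure_preimage_mul]
  have hBm : μ.real ((fun y => y * h) ⁻¹' B) = μ.real B := by
    simp only [Measure.real, measure_preimage_mul_right]
  have hAo : IsOpen ((fun x => g * x) ⁻¹' A) := hA.preimage (continuous_const.mul continuous_id)
  have hBo : IsOpen ((fun y => y * h) ⁻¹' B) := hB.preimage (continuous_id.mul continuous_const)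
  have hAn : ((fun x => g * x) ⁻¹' A).Nonempty := by
    obtain ⟨a, ha⟩ := hA0
    exact ⟨g⁻¹ * a, by simpa using ha⟩
  have hBn : ((fun y => y * h) ⁻¹' B).Nonempty := by
    obtain ⟨b, hb⟩ := hB0
    exact ⟨b * h⁻¹, by simpa using hb⟩
  have hAB : μ.real (((fun x => g * x) ⁻¹' A) * ((fun y => y * h) ⁻¹' B)) = μ.real (A * B) := by
    have e : ((fun x => g * x) ⁻¹' A) * ((fun y => y * h) ⁻¹' B) =
        (fun z => g * z) ⁻¹' ((fun z => z * h) ⁻¹' (A * B)) := by
      ext z
      constructor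
      · rintro ⟨a, ha, b, hb, rfl⟩
        exact ⟨g * a, ha, b * h, hb, by simp [mul_assoc]⟩
      · rintro ⟨a, ha, b, hb, hab⟩
        refine ⟨g⁻¹ * a, by simpa using ha, b * h⁻¹, by simpa using hb, ?_⟩
        simp only at hab ⊢
        calc g⁻¹ * a * (b * h⁻¹) = g⁻¹ * (a * b) * h⁻¹ := by group
          _ = z := by rw [hab]; group
    rw [e]
    simp only [Measure.real, measure_preimage_mul, measure_preimage_mul_right]
  have key := z01 μ hμ hp hAo hBo hAn hBn hr hs hrs ?_ ?_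
  · rw [hAm, hBm, hAB] at key
    exact key
  · intro x hx
    have := hAr (g * x) hx
    rwa [inv_mul_cancel_left] at this
  · intro y hy
    have := hBs (y * h) hy
    have e : (h⁻¹ * (y * h)).1.trace = y.1.trace := by
      have e1 : (h⁻¹ * (y * h)).1 = h⁻¹.1 * (y.1 * h.1) := rfl
      have e2 : h.1 * h⁻¹.1 = 1 := congrArg Subtype.val (mul_inv_cancel h)
      rw [e1, Matrix.trace_mul_comm, Matrix.mul_assoc, e2, mul_one]
    rwa [e] at this

end Pool.Agent.Lib.H68L
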